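import Pool.Agent.H62.CR.Graph
import Pool.Agent.PPS.Bits

/-!
# The algorithm, on words

A word `w` is read as `1 ^ n 0 matrix`. Vertices of the graph are numbers below `n = lead w`,
vertices of `H` are numbers below 23 (`vtx`). A system of lists is a list `S` of pairs `(v, x)`.
-/

namespace Pool.Agent.H62.CR

open Pool.Agent.PPS

/-! ### Tables -/

/-- The numbers of the vertices of `H` with the property `P`. -/
def tab (P : Fin 23 → Bool) : List ℕ := ((List.finRange 23).filter P).map fun i => i.val

theorem mem_tab {P : Fin 23 → Bool} {i : Fin 23} : i.val ∈ tab P ↔ P i = true := by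
  simp only [tab, List.mem_map, List.mem_filter, List.mem_finRange, true_and]
  constructor
  · rintro ⟨j, h1, h2⟩
    rw [← Fin.ext h2]; exact h1
  · intro h
    exact ⟨i, h, rfl⟩

/-- The pairs of numbers of vertices of `H` with the property `P`. -/
def tab2 (P : Fin 23 → Fin 23 → Bool) : List (ℕ × ℕ) :=
  (List.finRange 23).flatMap fun i => ((List.finRange 23).filter (P i)).map fun j => (i.val, j.val)

theorem mem_tab2' {P : Fin 23 → Fin 23 → Bool} {p : ℕ × ℕ} :
    p ∈ tab2 P ↔ ∃ i j : Fin 23, P i j = true ∧ p = (i.val, j.val) := by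
  simp only [tab2, List.mem_flatMap, List.mem_map, List.mem_filter, List.mem_finRange, true_and]
  constructor
  · rintro ⟨i, j, h1, h2⟩
    exact ⟨i, j, h1, h2.symm⟩
  · rintro ⟨i, j, h1, h2⟩
    exact ⟨i, j, h1, h2.symm⟩

theorem mem_tab2 {P : Fin 23 → Fin 23 → Bool} {i j : Fin 23} :
    (i.val, j.val) ∈ tab2 P ↔ P i j = true := by
  rw [mem_tab2']
  constructor
  · rintro ⟨i', j', h1, h2⟩
    rw [Prod.mk.injEq] at h2
    rw [Fin.ext h2.1, Fin.ext h2.2]; exact h1
  · intro h
    exact ⟨i, j, h, rfl⟩

/-- The edges of `H`, both directions. -/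
def hTab : List (ℕ × ℕ) := tab2 fun i j => hadj (vtx i) (vtx j)

/-- The edges of `H`, from side 0 to side 1. -/
def eTab : List (ℕ × ℕ) := tab2 fun i j => (vtx i).isLeft && hadj (vtx i) (vtx j)

/-- The colours `b` and `ap`. -/
def bapTab : List ℕ := tab fun i => match vtx i with
  | .inr (.b _) => true
  | .inr (.ap _) => true
  | _ => false

/-- The colours `lam`. -/
def lamTab : List ℕ := tab fun i => isLam (vtx i)

/-- The colours `tau` with the type `j` coordinate `y`. -/
def tauTab (j : Bool) (y : Fin 3) : List ℕ := tab fun i => match vtx i with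
  | .inr (.tau x s) => decide (crd x s j = y)
  | _ => false

/-- The colour `inl o`. -/
def loTab : List ℕ := tab fun i => decide (vtx i = .inl .o)

/-- The colours `inl o` and `inr o`. -/
def ooTab : List ℕ := tab fun i => decide (vtx i = .inl .o ∨ vtx i = .inr .o)

/-! ### The algorithm -/

/-- The entry of the matrix. -/
def ab (w : List Bool) (a b : ℕ) : Bool := bitAt w (lead w + 1 + (a * lead w + b))

/-- The word `w` encodes a graph. -/
def wfB (w : List Bool) : Bool :=
  decide (w = List.replicate (lead w) true ++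
    (false :: (List.range (lead w)).flatMap (fun a => (List.range (lead w)).map (fun b =>
      ab w a b)))) &&
  (List.range (lead w)).all (fun a => (List.range (lead w)).all (fun b =>
    decide (ab w a b = ab w b a)))

/-- All pairs. -/
def full (w : List Bool) : List (ℕ × ℕ) :=
  (List.range (lead w)).flatMap (fun v => (List.range 23).map (fun x => (v, x)))

/-- The pair `p` has support in `S` at the vertex `u`. -/
def supB (w : List Bool) (S : List (ℕ × ℕ)) (p : ℕ × ℕ) (u : ℕ) : Bool :=
  !ab w p.1 u || S.any (fun q => decide (q.1 = u) && decide ((p.2, q.2) ∈ hTab))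

/-- One round of arc-consistency. -/
def acS (w : List Bool) (S : List (ℕ × ℕ)) : List (ℕ × ℕ) :=
  S.filter (fun p => (List.range (lead w)).all (fun u => supB w S p u))

/-- Arc-consistency. -/
def acI (w : List Bool) (S : List (ℕ × ℕ)) : List (ℕ × ℕ) := (acS w)^[S.length] S

/-- `v` is a guessed vertex. -/
def gsdB (gs : List (ℕ × ℕ)) (v : ℕ) : Bool := gs.any (fun q => decide (q.1 = v))

/-- The initial lists. -/
def iniN (w : List Bool) (gs : List (ℕ × ℕ)) : List (ℕ × ℕ) :=
  (full w).filter (fun p => gs.all (fun q => !decide (q.1 = p.1) || decide (q.2 = p.2)) &&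
    (gsdB gs p.1 || !decide (p.2 ∈ bapTab)))

/-- The list of `v` has exactly one element, a `lam`. -/
def singB (S : List (ℕ × ℕ)) (v : ℕ) : Bool :=
  (List.range 23).any (fun x => decide (x ∈ lamTab) && decide ((v, x) ∈ S) &&
    (List.range 23).all (fun x' => decide (x' = x) || !decide ((v, x') ∈ S)))

/-- The removal step. -/
def remN (w : List Bool) (gs : List (ℕ × ℕ)) (T : List ℕ) (S : List (ℕ × ℕ)) :
    List (ℕ × ℕ) :=
  S.filter (fun p => gsdB gs p.1 || !decide (p.2 ∈ T) ||
    (List.range (lead w)).any (fun u => ab w p.1 u && singB S u))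

/-- The guessed vertices cover all edges of `H`. -/
def covB (w : List Bool) (gs : List (ℕ × ℕ)) : Bool :=
  eTab.all (fun e => gs.any (fun p => gs.any (fun q =>
    ab w p.1 q.1 && decide (p.2 = e.1) && decide (q.2 = e.2))))

/-- All lists are not empty. -/
def neB (w : List Bool) (S : List (ℕ × ℕ)) : Bool :=
  (List.range (lead w)).all (fun v => S.any (fun p => decide (p.1 = v)))

/-- The guess is accepted. -/
def accB (w : List Bool) (gs : List (ℕ × ℕ)) (T : List ℕ) : Bool :=
  covB w gs && neB w (acI w (remN w gs T (acI w (iniN w gs))))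

/-- The lists of the test of bipartiteness. -/
def bipN (w : List Bool) (r : ℕ) : List (ℕ × ℕ) :=
  (full w).filter (fun p => decide (p.2 ∈ ooTab) && (!decide (p.1 = r) || decide (p.2 ∈ loTab)))

/-- The test of bipartiteness. -/
def bipB (w : List Bool) : Bool :=
  (List.range (lead w)).all (fun r => neB w (acI w (bipN w r)))

/-- All lists of length `k` of elements of `l`. -/
def tup (l : List (ℕ × ℕ)) : ℕ → List (List (ℕ × ℕ))
  | 0 => [[]]
  | k + 1 => (tup l k).flatMap (fun t => l.map (fun i => i :: t))

/-- The six tables `tauTab j y`. -/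
def tauTabs : List (List ℕ) :=
  [tauTab false 0, tauTab false 1, tauTab false 2, tauTab true 0, tauTab true 1, tauTab true 2]

/-- The algorithm. -/
def decW (w : List Bool) : Bool :=
  wfB w && bipB w && (tup (full w) 300).any (fun gs => tauTabs.any (fun T => accB w gs T))

end Pool.Agent.H62.CR
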