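import Pool.Agent.H62.CR.Algo

/-!
# Job CR-10: the encoding of graphs

Model: `Pool/Agent/H87/HC/Enc.lean` (lemmas `rows`, `ofFn_range`, `lead_encode`, `bitAt_encode`, the
encoding is the same, but here graphs may have loops; do not import that file, copy what you need).
-/

namespace Pool.Agent.H62.CR

open Pool.Agent.PPS

theorem algoEnc_rows {α : Type} (g : ℕ → ℕ → α) (n m : ℕ) :
    (List.range (m * n)).map (fun k => g (k / n) (k % n)) =
      (List.range m).flatMap (fun a => (List.range n).map (fun b => g a b)) := by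
  induction m with
  | zero => simp
  | succ m ih =>
    rw [Nat.succ_mul, List.range_add, List.map_append, ih, List.range_succ, List.flatMap_append,
      List.flatMap_singleton, List.map_map]
    congr 1
    apply List.map_congr_left
    intro b hb
    rw [List.mem_range] at hb
    show g ((m * n + b) / n) ((m * n + b) % n) = g m b
    have hn : 0 < n := by omega
    rw [Nat.mul_comm m n, Nat.mul_add_div hn, Nat.div_eq_of_lt hb, Nat.mul_add_mod,
      Nat.mod_eq_of_lt hb, Nat.add_zero]

theorem algoEnc_ofFn {α : Type} (g : ℕ → α) (N : ℕ) :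
    List.ofFn (fun k : Fin N => g k) = (List.range N).map g := by
  apply List.ext_getElem
  · simp
  · intro i h1 h2
    simp

open Classical in
/-- the matrix of a graph, with natural numbers as indices -/
noncomputable def algoEnc_A {n : ℕ} (G : LG (Fin n)) (a b : ℕ) : Bool :=
  if h : a < n ∧ b < n then decide (G.adj ⟨a, h.1⟩ ⟨b, h.2⟩) else false

theorem algoEnc_A_fin {n : ℕ} (G : LG (Fin n)) (a b : Fin n) :
    algoEnc_A G a b = true ↔ G.adj a b := by
  classical
  unfold algoEnc_A
  rw [dif_pos ⟨a.2, b.2⟩, decide_eq_true_iff]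

theorem algoEnc_eq {n : ℕ} (G : LG (Fin n)) : enc G = List.replicate n true ++
    (false :: (List.range n).flatMap (fun a => (List.range n).map (fun b => algoEnc_A G a b))) := by
  classical
  unfold enc
  congr 2
  rw [← algoEnc_rows (fun a b => algoEnc_A G a b) n n,
    ← algoEnc_ofFn (fun k => algoEnc_A G (k / n) (k % n)) (n * n)]
  congr 1
  funext k
  rw [Bool.eq_iff_iff, decide_eq_true_iff]
  exact (algoEnc_A_fin G k.divNat k.modNat).symm

/-- Job CR-10a. (`lead_append`.) -/
theorem lead_enc {n : ℕ} (G : LG (Fin n)) : lead (enc G) = n := lead_append _ _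

theorem algoEnc_ab {n : ℕ} (G : LG (Fin n)) {a b : ℕ} (ha : a < n) (hb : b < n) :
    ab (enc G) a b = algoEnc_A G a b := by
  classical
  have hn : 0 < n := by omega
  have hlt : a * n + b < n * n := by
    have : (a + 1) * n ≤ n * n := Nat.mul_le_mul_right n ha
    rw [Nat.succ_mul] at this
    omega
  unfold ab
  rw [lead_enc]
  unfold enc
  rw [bitAt_append, List.length_replicate, show decide (n + 1 + (a * n + b) < n) = false by
    rw [decide_eq_false_iff_not]; omega, cond_false,
    show n + 1 + (a * n + b) - n = (a * n + b) + 1 by omega, bitAt_cons_succ]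
  unfold bitAt
  rw [List.getD_eq_getElem _ _ (by rw [List.length_ofFn]; exact hlt), List.getElem_ofFn]
  have e1 : (a * n + b) / n = a := by
    rw [Nat.mul_comm a n, Nat.mul_add_div hn, Nat.div_eq_of_lt hb, Nat.add_zero]
  have e2 : (a * n + b) % n = b := by
    rw [Nat.mul_comm a n, Nat.mul_add_mod, Nat.mod_eq_of_lt hb]
  have e3 : (⟨a * n + b, hlt⟩ : Fin (n * n)).divNat = ⟨a, ha⟩ := Fin.ext e1
  have e4 : (⟨a * n + b, hlt⟩ : Fin (n * n)).modNat = ⟨b, hb⟩ := Fin.ext e2
  rw [e3, e4]
  unfold algoEnc_A
  rw [dif_pos ⟨ha, hb⟩]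

/-- Job CR-10b. -/
theorem ab_enc {n : ℕ} (G : LG (Fin n)) (a b : Fin n) : ab (enc G) a b = true ↔ G.adj a b := by
  rw [algoEnc_ab G a.2 b.2, algoEnc_A_fin]

theorem algoEnc_congr {α : Type} {g g' : ℕ → ℕ → α} (n : ℕ)
    (h : ∀ a < n, ∀ b < n, g a b = g' a b) :
    (List.range n).flatMap (fun a => (List.range n).map (fun b => g a b)) =
      (List.range n).flatMap (fun a => (List.range n).map (fun b => g' a b)) := by
  rw [List.flatMap_def, List.flatMap_def]
  congr 1
  apply List.map_congr_left
  intro a ha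
  apply List.map_congr_left
  intro b hb
  exact h a (List.mem_range.1 ha) b (List.mem_range.1 hb)

/-- Job CR-10c. Right to left: by `lead_enc` and `ab_enc` (and the symmetry of `G`). Left to right:
`n = lead w`, `G.adj a b ↔ ab w a b = true`. -/
theorem wfB_iff (w : List Bool) : wfB w = true ↔ ∃ (n : ℕ) (G : LG (Fin n)), w = enc G := by
  simp only [wfB, Bool.and_eq_true, decide_eq_true_eq, List.all_eq_true, List.mem_range]
  constructor
  · rintro ⟨h1, h2⟩
    let G : LG (Fin (lead w)) :=
      { adj := fun a b => ab w a b = true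
        symm := fun a b h => by
          rw [← h2 a a.2 b b.2]; exact h }
    refine ⟨lead w, G, ?_⟩
    rw [algoEnc_eq G, algoEnc_congr (g := fun a b => algoEnc_A G a b) (g' := fun a b => ab w a b)
      (lead w) (fun a ha b hb => ?_)]
    · exact h1
    · rw [Bool.eq_iff_iff]
      exact algoEnc_A_fin G ⟨a, ha⟩ ⟨b, hb⟩
  · rintro ⟨n, G, rfl⟩
    rw [lead_enc]
    refine ⟨?_, ?_⟩
    · rw [algoEnc_congr (g := fun a b => ab (enc G) a b) (g' := fun a b => algoEnc_A G a b) n
        (fun a ha b hb => algoEnc_ab G ha hb)]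
      exact algoEnc_eq G
    · intro a ha b hb
      rw [Bool.eq_iff_iff]
      have h1 := ab_enc G ⟨a, ha⟩ ⟨b, hb⟩
      have h2 := ab_enc G ⟨b, hb⟩ ⟨a, ha⟩
      constructor
      · intro h
        exact h2.2 (G.symm _ _ (h1.1 h))
      · intro h
        exact h1.2 (G.symm _ _ (h2.1 h))

end Pool.Agent.H62.CR
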