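import Pool.Agent.H62.CR.Lists

/-!
# CR-8: 2-colourability by arc-consistency
-/

namespace Pool.Agent.H62.CR

variable {V : Type}

/-- the two vertices `o` -/
def bipV (b : Bool) : Vx := if b then .inl .o else .inr .o

theorem bipV_adj (b : Bool) : hadj (bipV b) (bipV (!b)) = true := by
  cases b <;> rfl

theorem bipV_of_adj {x : Vx} (hx : x = .inl .o ∨ x = .inr .o) {b : Bool}
    (h : hadj x (bipV b) = true) : x = bipV (!b) := by
  rcases hx with rfl | rfl <;> cases b <;> simp_all [hadj, bipV, R]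

/-- the list of `v` has exactly one element -/
def BipP (G : LG V) (r v : V) (b : Bool) : Prop := ∀ x, ac G (bip r) v x ↔ x = bipV b

theorem bip_step {G : LG V} (h : ∀ r v, ∃ x, ac G (bip r) v x) {r u v : V} {b : Bool}
    (huv : G.adj u v) (hu : BipP G r u b) : BipP G r v (!b) := by
  have h1 : ∀ x, ac G (bip r) v x → x = bipV (!b) := by
    intro x hx
    obtain ⟨y, hy, hxy⟩ := ac_closed G (bip r) v u (G.symm _ _ huv) x hx
    rw [(hu y).1 hy] at hxy
    exact bipV_of_adj (ac_le G (bip r) hx).1 hxy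
  intro x
  refine ⟨h1 x, ?_⟩
  rintro rfl
  obtain ⟨y, hy⟩ := h r v
  rw [← h1 y hy]
  exact hy

theorem bip_root {G : LG V} (h : ∀ r v, ∃ x, ac G (bip r) v x) (r : V) : BipP G r r true := by
  have h1 : ∀ x, ac G (bip r) r x → x = bipV true := fun x hx =>
    (ac_le G (bip r) hx).2 rfl
  intro x
  refine ⟨h1 x, ?_⟩
  rintro rfl
  obtain ⟨y, hy⟩ := h r r
  rw [← h1 y hy]
  exact hy

theorem bip_conn {G : LG V} (h : ∀ r v, ∃ x, ac G (bip r) v x) (r : V) {u v : V}
    (huv : Relation.EqvGen G.adj u v) : (∃ b, BipP G r u b) ↔ ∃ b, BipP G r v b := by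
  induction huv with
  | rel a b hab =>
    exact ⟨fun ⟨c, hc⟩ => ⟨_, bip_step h hab hc⟩, fun ⟨c, hc⟩ => ⟨_, bip_step h (G.symm _ _ hab) hc⟩⟩
  | refl a => exact Iff.rfl
  | symm a b _ ih => exact ih.symm
  | trans a b c _ _ ih1 ih2 => exact ih1.trans ih2

theorem bip_iff (G : LG V) : (∃ χ : V → Bool, ∀ u v, G.adj u v → χ u ≠ χ v) ↔
    ∀ r v, ∃ x, ac G (bip r) v x := by
  classical
  constructor
  · rintro ⟨χ, hχ⟩ r v
    refine ⟨bipV (χ v == χ r), le_ac (L := fun v x => x = bipV (χ v == χ r)) ?_ ?_ rfl⟩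
    · rintro u w huw x rfl
      refine ⟨_, rfl, ?_⟩
      have h1 : (χ w == χ r) = !(χ u == χ r) := by
        have := hχ u w huw
        revert this
        cases χ u <;> cases χ w <;> cases χ r <;> simp
      rw [h1]
      exact bipV_adj _
    · rintro u y rfl
      refine ⟨?_, ?_⟩
      · cases (χ u == χ r) <;> simp [bipV]
      · rintro rfl
        simp [bipV]
  · intro h
    let s : Setoid V := Relation.EqvGen.setoid G.adj
    let rep : V → V := fun v => (Quotient.mk s v).out
    have hrep : ∀ v, Relation.EqvGen G.adj (rep v) v := fun v =>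
      Quotient.exact (s := s) (Quotient.out_eq (Quotient.mk s v))
    have hrep2 : ∀ u v, G.adj u v → rep u = rep v := by
      intro u v huv
      have : Quotient.mk s u = Quotient.mk s v := Quotient.sound (s := s) (Relation.EqvGen.rel _ _ huv)
      exact congrArg Quotient.out this
    refine ⟨fun v => decide (ac G (bip (rep v)) v (.inl .o)), ?_⟩
    intro u v huv
    obtain ⟨b, hb⟩ := (bip_conn h (rep u) (hrep u)).1 ⟨true, bip_root h (rep u)⟩
    have hv := bip_step h huv hb
    have h1 : ac G (bip (rep u)) u (.inl .o) ↔ b = true := by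
      rw [hb]
      cases b <;> simp [bipV]
    have h2 : ac G (bip (rep v)) v (.inl .o) ↔ (!b) = true := by
      rw [← hrep2 u v huv, hv]
      cases b <;> simp [bipV]
    simp only [h1, h2]
    cases b <;> simp

end Pool.Agent.H62.CR
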