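import Pool.Agent.H62.CR.Lists

/-!
# Job CR-7: soundness of the algorithm
-/

namespace Pool.Agent.H62.CR

variable {V : Type} {G : LG V}

/-- An order of the colours: `rk j y j z` is `0, 1, 2` for `z = y + 1, y + 2, y`, and
`rk j y (!j) z` is `0, 1, 2` for `z = y, y + 2, y + 1`. -/
def rk (j : Bool) (y : Fin 3) (k : Bool) (z : Fin 3) : Fin 3 :=
  if k = j then z - y - 1 else y - z

open Classical in
/-- The first colour `z` with `P z` in this order. -/
noncomputable def mn (j : Bool) (y : Fin 3) (k : Bool) (P : Fin 3 → Prop) : Fin 3 :=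
  if h : ∃ z, P z ∧ ∀ z', P z' → rk j y k z ≤ rk j y k z' then h.choose else 0


theorem exists_min_fin3 (r : Fin 3 → Fin 3) (P : Fin 3 → Prop) (h : ∃ z, P z) :
    ∃ z, P z ∧ ∀ z', P z' → r z ≤ r z' := by
  classical
  obtain ⟨z, hz, hmin⟩ := Finset.exists_min_image (Finset.univ.filter P) r
    (by obtain ⟨z, hz⟩ := h; exact ⟨z, by simp [hz]⟩)
  exact ⟨z, by simpa using hz, fun z' hz' => hmin z' (by simp [hz'])⟩

theorem mn_spec (j : Bool) (y : Fin 3) (k : Bool) (P : Fin 3 → Prop) (h : ∃ z, P z) :
    P (mn j y k P) ∧ ∀ z', P z' → rk j y k (mn j y k P) ≤ rk j y k z' := by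
  have h1 : ∃ z, P z ∧ ∀ z', P z' → rk j y k z ≤ rk j y k z' := exists_min_fin3 _ P h
  unfold mn
  rw [dif_pos h1]
  exact h1.choose_spec

theorem key_dec : ∀ y z a b : Fin 3, y - z ≤ y - a → a ≠ z → z - y - 1 ≤ b - y - 1 → b ≠ z →
    z = y + 2 ∧ a = y + 1 ∧ b = y := by decide

theorem add_two_ne : ∀ y : Fin 3, y + 2 ≠ y := by decide

theorem add_one_ne : ∀ y : Fin 3, y + 1 ≠ y + 2 := by decide

theorem crd_ne' (x : Fin 3) (s j : Bool) : crd x s j ≠ crd x s (!j) := by
  revert x s j; decide

theorem rk_self (j : Bool) (y z : Fin 3) : rk j y j z = z - y - 1 := by simp [rk]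

theorem rk_not (j : Bool) (y z : Fin 3) : rk j y (!j) z = y - z := by cases j <;> simp [rk]

/-- Part (c). -/
theorem mn_ne {T : Fin 3 → Bool → Prop} {j : Bool} {y : Fin 3} (hne : ∃ x s, T x s)
    (hrem : ∀ x s, T x s → crd x s j = y →
      ∃ k, ∀ x' s', T x' s' → crd x' s' k = crd x s k) :
    mn j y false (fun z => ∃ x s, T x s ∧ crd x s false = z) ≠
      mn j y true (fun z => ∃ x s, T x s ∧ crd x s true = z) := by
  intro heq
  obtain ⟨m, hm⟩ : ∃ m : Bool → Fin 3, ∀ k,
      m k = mn j y k (fun z => ∃ x s, T x s ∧ crd x s k = z) := ⟨_, fun _ => rfl⟩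
  have hmm : m j = m (!j) := by
    rw [← hm false, ← hm true] at heq
    cases j
    · exact heq
    · exact heq.symm
  have hs : ∀ k, (∃ x s, T x s ∧ crd x s k = m k) ∧
      ∀ x s, T x s → rk j y k (m k) ≤ rk j y k (crd x s k) := by
    intro k
    obtain ⟨x, s, hxs⟩ := hne
    have h1 := mn_spec j y k (fun z => ∃ x s, T x s ∧ crd x s k = z) ⟨_, x, s, hxs, rfl⟩
    rw [← hm k] at h1
    exact ⟨h1.1, fun x s h => h1.2 _ ⟨x, s, h, rfl⟩⟩
  obtain ⟨xa, sa, hA, hA1⟩ := (hs j).1
  obtain ⟨xb, sb, hB, hB1⟩ := (hs (!j)).1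
  have h1 := (hs (!j)).2 xa sa hA
  have h2 := (hs j).2 xb sb hB
  rw [rk_not, rk_not, ← hmm] at h1
  rw [rk_self, rk_self] at h2
  rw [← hmm] at hB1
  have h3 : crd xa sa (!j) ≠ m j := by
    rw [← hA1]; exact (crd_ne' xa sa j).symm
  have h4 : crd xb sb j ≠ m j := by
    rw [← hB1]; exact crd_ne' xb sb j
  obtain ⟨h5, h6, h7⟩ := key_dec _ _ _ _ h1 h3 h2 h4
  obtain ⟨k, hk⟩ := hrem xb sb hB h7
  have h8 := hk xa sa hA
  rw [h5] at hA1 hB1
  have h9 : k = j ∨ k = !j := by cases j <;> cases k <;> simp
  rcases h9 with rfl | rfl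
  · rw [hA1, h7] at h8
    exact add_two_ne _ h8
  · rw [h6, hB1] at h8
    exact add_one_ne _ h8

/-- The colours given to the reached vertices. -/
inductive Sp (G : LG V) (L : V → Vx → Prop) (j : Bool) (y : Fin 3) (v : V) : Vx → Prop
  | g (c : Vx) (h : ∀ x, L v x ↔ x = c) : Sp G L j y v c
  | n1 (c : S1) (hc : c = .o ∨ ∃ k, c = .al k) (h : L v (.inr c)) : Sp G L j y v (.inr c)
  | t (x : Fin 3) (s : Bool) (h : ∀ w, L v w → ∃ x' s', w = .inr (.tau x' s'))
      (hm : ∀ k, crd x s k = mn j y k (fun z => ∃ x' s', L v (.inr (.tau x' s')) ∧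
        crd x' s' k = z)) : Sp G L j y v (.inr (.tau x s))
  | e (h0 : ∀ w, L v w → ∃ x, w = .inl x)
      (h : ∀ u, G.adj v u → ∀ k, ¬ ∀ x, L u x ↔ x = .inr (.ap k)) : Sp G L j y v (.inl .e)
  | n0 (c : S0) (hc : c = .o ∨ ∃ k, c = .a k) (h : L v (.inl c)) : Sp G L j y v (.inl c)
  | l (k : Bool) (h : ∀ w, L v w → ∃ z, w = .inl (.lam k z)) :
      Sp G L j y v (.inl (.lam k (mn j y k fun z => L v (.inl (.lam k z)))))

/-- Part (e), one orientation. -/
theorem sp_hom {L : V → Vx → Prop} {j : Bool} {y : Fin 3} (hcl : Closed G L)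
    (hne : ∀ v, ∃ x, L v x) {u v : V} (huv : G.adj u v) {x : S0} {x' : S1}
    (hu : Sp G L j y u (.inl x)) (hv : Sp G L j y v (.inr x')) : R x x' = true := by
  have hvu := G.symm _ _ huv
  -- an element of one list is adjacent to an element of the other
  have f1 : ∀ w, L u w → ∃ w', L v w' ∧ hadj w w' = true := hcl u v huv
  have f2 : ∀ w, L v w → ∃ w', L u w' ∧ hadj w w' = true := hcl v u hvu
  have key : ∀ {a : S0} {b : S1}, L u (.inl a) → L v (.inr b) → (∀ w, L u w ↔ w = .inl a) →
      R a b = true := by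
    intro a b _ hb h
    obtain ⟨w, hw, hw2⟩ := f2 _ hb
    rw [h] at hw
    subst hw
    exact hw2
  have key' : ∀ {a : S0} {b : S1}, L u (.inl a) → L v (.inr b) → (∀ w, L v w ↔ w = .inr b) →
      R a b = true := by
    intro a b ha _ h
    obtain ⟨w, hw, hw2⟩ := f1 _ ha
    rw [h] at hw
    subst hw
    exact hw2
  cases hv with
  | g _ hgv =>
    have hLv : L v (.inr x') := (hgv _).2 rfl
    cases hu with
    | g _ hgu => exact key ((hgu _).2 rfl) hLv hgu
    | e h0 h =>
      have h1 : ∀ k, x' ≠ .ap k := by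
        rintro k rfl
        exact h v huv k hgv
      cases x' with
      | ap k => exact absurd rfl (h1 k)
      | o => rfl
      | al _ => rfl
      | b _ => rfl
      | tau _ _ => rfl
    | n0 _ hc h => exact key' h hLv hgv
    | l k h =>
      obtain ⟨w, hw⟩ := hne u
      obtain ⟨z, rfl⟩ := h w hw
      have h1 := (mn_spec j y k (fun z => L u (.inl (.lam k z))) ⟨z, hw⟩).1
      exact key' h1 hLv hgv
  | n1 _ hc h =>
    cases hu with
    | g _ hgu => exact key ((hgu _).2 rfl) h hgu
    | e h0 h =>
      rcases hc with rfl | ⟨k, rfl⟩ <;> rfl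
    | n0 _ hc' h' =>
      rcases hc with rfl | ⟨k, rfl⟩ <;> rcases hc' with rfl | ⟨k', rfl⟩ <;> rfl
    | l k hl =>
      obtain ⟨w, hw, hw2⟩ := f2 _ h
      obtain ⟨z, rfl⟩ := hl w hw
      rcases hc with rfl | ⟨k', rfl⟩
      · simp [hadj, R] at hw2
      · simpa [hadj, R] using hw2
  | t x0 s0 h hm =>
    obtain ⟨w0, hw0⟩ := hne v
    obtain ⟨x1, s1, rfl⟩ := h w0 hw0
    have hmP : ∀ k, ∃ x' s', L v (.inr (.tau x' s')) ∧ crd x' s' k = crd x0 s0 k := by
      intro k
      rw [hm k]
      exact (mn_spec j y k (fun z => ∃ x' s', L v (.inr (.tau x' s')) ∧ crd x' s' k = z)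
        ⟨_, x1, s1, hw0, rfl⟩).1
    cases hu with
    | g _ hgu =>
      have hLu : L u (.inl x) := (hgu _).2 rfl
      have h2 : ∀ x' s', L v (.inr (.tau x' s')) → R x (.tau x' s') = true :=
        fun x' s' h' => key hLu h' hgu
      cases x with
      | o => exact absurd (h2 _ _ hw0) (by simp [R])
      | e => rfl
      | a k => exact absurd (h2 _ _ hw0) (by simp [R])
      | lam k z =>
        obtain ⟨x2, s2, h3, h4⟩ := hmP k
        have h5 := h2 _ _ h3
        simp only [R, decide_eq_true_eq] at h5 ⊢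
        rw [← h4, h5]
    | e h0 h => rfl
    | n0 _ hc' h' =>
      obtain ⟨w, hw, hw2⟩ := f1 _ h'
      obtain ⟨x2, s2, rfl⟩ := h w hw
      rcases hc' with rfl | ⟨k', rfl⟩
      · simp [hadj, R] at hw2
      · simp [hadj, R] at hw2
    | l k hl =>
      have hiff : (fun z => L u (.inl (.lam k z))) =
          fun z => ∃ x' s', L v (.inr (.tau x' s')) ∧ crd x' s' k = z := by
        funext z
        apply propext
        constructor
        · intro hz
          obtain ⟨w, hw, hw2⟩ := f1 _ hz
          obtain ⟨x2, s2, rfl⟩ := h w hw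
          refine ⟨x2, s2, hw, ?_⟩
          simpa [hadj, R] using hw2
        · rintro ⟨x2, s2, hw, hz⟩
          obtain ⟨w, hw', hw2⟩ := f2 _ hw
          obtain ⟨z', rfl⟩ := hl w hw'
          have h6 : crd x2 s2 k = z' := by simpa [hadj, R] using hw2
          rw [← hz, h6]
          exact hw'
      rw [hiff]
      simp only [R, decide_eq_true_eq]
      exact hm k

/-- All elements of the list of a reached vertex are on the same side. -/
theorem reach_side {L : V → Vx → Prop} (hcl : Closed G L) {p v : V} {c : Vx}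
    (hp : ∀ x, L p x → x = c) (h : Relation.ReflTransGen G.adj p v) :
    ∃ s : Bool, ∀ x, L v x → x.isLeft = s := by
  induction h with
  | refl => exact ⟨c.isLeft, fun x hx => by rw [hp x hx]⟩
  | tail h1 h2 ih =>
    rename_i u w
    obtain ⟨s, hs⟩ := ih
    refine ⟨!s, fun x hx => ?_⟩
    obtain ⟨x', h3, h4⟩ := hcl w u (G.symm _ _ h2) x hx
    have h5 := hs x' h3
    rcases x with x | x <;> rcases x' with x' | x' <;> simp_all [hadj]

theorem sp_side {L : V → Vx → Prop} {j : Bool} {y : Fin 3}
    (hne : ∀ v, ∃ x, L v x) {v : V} {c : Vx} {s : Bool} (h : Sp G L j y v c)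
    (hs : ∀ x, L v x → x.isLeft = s) : c.isLeft = s := by
  cases h with
  | g _ h => exact hs _ ((h _).2 rfl)
  | n1 c hc h => exact hs _ h
  | t x s' h hm =>
    obtain ⟨w, hw⟩ := hne v
    obtain ⟨x', s'', rfl⟩ := h w hw
    have h1 := hs _ hw
    exact h1
  | e h0 h =>
    obtain ⟨w, hw⟩ := hne v
    obtain ⟨x, rfl⟩ := h0 w hw
    have h1 := hs _ hw
    exact h1
  | n0 c hc h => exact hs _ h
  | l k h =>
    obtain ⟨w, hw⟩ := hne v
    obtain ⟨z, rfl⟩ := h w hw
    have h1 := hs _ hw
    exact h1

/-- Job CR-7. Let `L = fin G gs j y`, `L1 = ac G (ini gs)`. Both are closed (`ac_closed`),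
`L v x → L1 v x → ini gs v x` (`ac_le`), `L v x → rem G gs j y L1 v x`.

(a) For `p ∈ gs`: `L p.1 x ↔ x = p.2` (the list is not empty). For `v` not in `gs`
(`∀ p ∈ gs, p.1 ≠ v`) no `b` and no `ap` is in `L v`.

(b) Let `Reach v ↔ ∃ p ∈ gs, Relation.ReflTransGen G.adj p.1 v`. For such `v` all elements of
`L v` are on the same side (`isLeft`): induction; every element of `L v` is adjacent to an element
of `L u`, if `u v` are adjacent (use `G.symm`), and adjacent colours have different sides.

(c) `mn`: if `P z` for some `z`, then `P (mn j y k P)` and `rk j y k (mn j y k P) ≤ rk j y k z` for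
all `z` with `P z`. Let `v` be not in `gs`, and let all elements of `L v` be colours `tau`. Let
`P k z ↔ ∃ x s, L v (tau x s) ∧ crd x s k = z` and `m k = mn j y k (P k)`. Then
`m false ≠ m true`: suppose `m j = m (!j) = z`. If `z = y + 1`: it is last in the order of type
`!j`, so all elements of `L v` have the type `!j` coordinate `z`, but some element has the type `j`
coordinate `z`: contradiction to `crd_ne`. If `z = y`: the same with `j` and `!j` exchanged. If
`z = y + 2`: every element of `L v` has the type `j` coordinate `y + 2` or `y` and the type `!j`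
coordinate `y + 2` or `y + 1`. Some element `A` has the type `!j` coordinate `y + 2`, so its type `j`
coordinate is `y`. Some element `B` has the type `j` coordinate `y + 2`, so its type `!j` coordinate
is `y + 1`. As `rem G gs j y L1 v A` and `v` is not in `gs`, `v` has a neighbour `w` with
`Sing L1 w`, say `lam k' z'`. As `L1` is closed, `A` and `B` are both adjacent to `lam k' z'`, so they
have the same type `k'` coordinate: contradiction. So `mk (m false) (m true)` (see `mk`,
`mk_crd` in `Graph`) is a colour `tau` with the coordinates `m false` and `m true`.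

(d) Definition of the compaction `f`:
* `v` in `gs`: `f v = p.2` for a `p ∈ gs` with `p.1 = v`, so `L v x ↔ x = f v`.
* not `Reach v`: `inr o` if `χ v = true` and `inl o` otherwise (`χ` from `hb`).
* `Reach v`, not in `gs`, `L v` on side 1 (elements `inr _`): the first of `inr o`,
  `inr (al false)`, `inr (al true)` which is in `L v`; if none is (then all elements of `L v` are
  colours `tau`), `inr (mk (m false) (m true))` as in (c).
* `Reach v`, not in `gs`, `L v` on side 0: if `v` has a neighbour `p.1`, `p ∈ gs`, `p.2 = inr (ap k)`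
  for some `k`: the first of `inl o`, `inl (a false)`, `inl (a true)` which is in `L v`; if none is
  (then all elements of `L v` are colours `lam k _`, as they are adjacent to `ap k`),
  `inl (lam k (mn j y k fun z => L v (inl (lam k z))))` (here `k` may be defined as `true` if
  `∃ z, L v (inl (lam true z))`, `false` otherwise), which is in `L v`. If `v` has no such neighbour:
  `inl e`.

(e) `f` is a homomorphism. Neighbours of a reached vertex are reached. So let `u v` be adjacent and
reached (otherwise `χ` and `R o o`), `u` on side 0, `v` on side 1.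
* `u, v` in `gs`: closed.
* `u` in `gs`, `v` not: if `f v` is `o`, `al _`, it is in `L v`, so adjacent to `f u`. Otherwise all
  elements of `L v` are colours `tau` adjacent to `f u`, so `f u = e` (fine) or `f u = lam k z`, all
  elements of `L v` have the type `k` coordinate `z`, so `f v` has the type `k` coordinate `z`: fine.
* `u` not in `gs`, `v` in `gs`: if `f u = e`, then `f v` is not an `ap`, and all other colours of side 1
  are adjacent to `e` (`R e o`, `R e (al _)`, `R e (b _)`, `R e (tau _ _)`). Otherwise `f u` is in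
  `L u`, so adjacent to `f v`.
* `u, v` not in `gs`: `f u = e`: `f v` is `o`, `al _` or `tau`, fine. `f u = o`: it is in `L u`, so it is
  adjacent to an element of `L v`, so `L v` contains an element which is not a `tau`, so
  `f v` is `o` or `al _`: adjacent to `o`. `f u = a _`: the same. `f u = lam k _`: all elements of
  `L u` are `lam k _`, so all elements of `L v` are adjacent to some `lam k _`, so they are `al k` or
  `tau` (no `ap`, `b`). If `f v = al k`, fine. Otherwise all are `tau`, and for all `z`: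
  `L u (lam k z) ↔ ∃ x s, L v (tau x s) ∧ crd x s k = z` (both directions by closedness), so the type
  `k` coordinate of `f v`, which is `m k`, is the colour of `f u`: fine.

(f) `f` covers all edges by the first part of `Acc`. -/
theorem sound {gs : List (V × Vx)} {j : Bool} {y : Fin 3} (h : Acc G gs j y)
    (hb : ∃ χ : V → Bool, ∀ u v, G.adj u v → χ u ≠ χ v) : ∃ c, Comp G c := by
  classical
  obtain ⟨χ, hχ⟩ := hb
  obtain ⟨hcov, hne⟩ := h
  obtain ⟨L, hLdef⟩ : ∃ L, L = fin G gs j y := ⟨_, rfl⟩
  rw [← hLdef] at hne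
  have hcl : Closed G L := by rw [hLdef]; exact ac_closed _ _
  have hrem : ∀ v x, L v x → rem G gs j y (ac G (ini gs)) v x := by
    intro v x hx; rw [hLdef] at hx; exact ac_le _ _ hx
  have hini : ∀ v x, L v x → ini gs v x := fun v x hx => ac_le _ _ (hrem v x hx).1
  -- (a)
  have ha : ∀ p ∈ gs, ∀ x, L p.1 x ↔ x = p.2 := by
    intro p hp x
    have h1 : ∀ x, L p.1 x → x = p.2 := fun x hx => ((hini _ _ hx).1 p hp rfl).symm
    refine ⟨h1 x, ?_⟩
    rintro rfl
    obtain ⟨x', hx'⟩ := hne p.1
    rw [← h1 x' hx']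
    exact hx'
  have hnb : ∀ v, (∀ p ∈ gs, p.1 ≠ v) → ∀ x, L v x → ∀ k, x ≠ .inr (.b k) ∧ x ≠ .inr (.ap k) :=
    fun v hv x hx => (hini v x hx).2 hv
  -- (b)
  let Reach : V → Prop := fun v => ∃ p ∈ gs, Relation.ReflTransGen G.adj p.1 v
  have hside : ∀ v, Reach v → ∃ s : Bool, ∀ x, L v x → x.isLeft = s := by
    rintro v ⟨p, hp, hr⟩
    exact reach_side hcl (fun x hx => (ha p hp x).1 hx) hr
  -- (d)
  have hex : ∀ v, ∃ c : Vx, (Reach v → Sp G L j y v c) ∧ (¬ Reach v → c = if χ v then
      .inr .o else .inl .o) ∧ ∀ p ∈ gs, p.1 = v → c = p.2 := by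
    intro v
    by_cases hg : ∃ p ∈ gs, p.1 = v
    · obtain ⟨p, hp, rfl⟩ := hg
      refine ⟨p.2, fun _ => .g _ (ha p hp), fun hn => absurd ⟨p, hp, .refl⟩ hn, ?_⟩
      intro q hq hqp
      have h1 : L p.1 p.2 := (ha p hp _).2 rfl
      rw [← hqp] at h1
      exact (ha q hq _).1 h1
    · have hg' : ∀ p ∈ gs, p.1 ≠ v := fun p hp hpv => hg ⟨p, hp, hpv⟩
      by_cases hr : Reach v
      swap
      · exact ⟨_, fun hr' => absurd hr' hr, fun _ => rfl, fun p hp hpv => absurd hpv (hg' p hp)⟩
      suffices hs : ∃ c, Sp G L j y v c by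
        obtain ⟨c, hc⟩ := hs
        exact ⟨c, fun _ => hc, fun hr' => absurd hr hr', fun p hp hpv => absurd hpv (hg' p hp)⟩
      obtain ⟨s, hs⟩ := hside v hr
      cases s with
      | false =>
        by_cases h1 : L v (.inr .o)
        · exact ⟨_, .n1 _ (Or.inl rfl) h1⟩
        by_cases h2 : ∃ k, L v (.inr (.al k))
        · obtain ⟨k, h2⟩ := h2
          exact ⟨_, .n1 _ (Or.inr ⟨k, rfl⟩) h2⟩
        have h3 : ∀ w, L v w → ∃ x' s', w = .inr (.tau x' s') := by
          intro w hw
          have h4 := hs w hw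
          have h5 := hnb v hg' w hw
          rcases w with w | w
          · simp at h4
          cases w with
          | o => exact absurd hw h1
          | al k => exact absurd ⟨k, hw⟩ h2
          | ap k => exact absurd rfl (h5 k).2
          | b k => exact absurd rfl (h5 k).1
          | tau x' s' => exact ⟨x', s', rfl⟩
        have h6 : ∃ x s, L v (.inr (.tau x s)) := by
          obtain ⟨w, hw⟩ := hne v
          obtain ⟨x', s', rfl⟩ := h3 w hw
          exact ⟨x', s', hw⟩
        have h7 := mn_ne (T := fun x s => L v (.inr (.tau x s))) (j := j) (y := y) h6 (by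
          intro x s hxs hxy
          obtain ⟨w, hvw, k, z, hw⟩ := (hrem v _ hxs).2 hg' x s rfl hxy
          have h8 : ∀ x' s', L v (.inr (.tau x' s')) → crd x' s' k = z := by
            intro x' s' hx'
            obtain ⟨w', h9, h10⟩ := ac_closed G (ini gs) v w hvw _ (hrem v _ hx').1
            rw [hw] at h9
            subst h9
            simpa [hadj, R] using h10
          exact ⟨k, fun x' s' hx' => by rw [h8 _ _ hx', h8 _ _ hxs]⟩)
        obtain ⟨-, h8, h9⟩ := mk_crd h7
        exact ⟨_, .t (mn j y false (fun z => ∃ x s, L v (.inr (.tau x s)) ∧ crd x s false = z))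
          (decide ((mn j y true fun z => ∃ x s, L v (.inr (.tau x s)) ∧ crd x s true = z) =
            mn j y false (fun z => ∃ x s, L v (.inr (.tau x s)) ∧ crd x s false = z) + 2)) h3
          (fun k => by
            cases k
            · exact h8
            · exact h9)⟩
      | true =>
        have hs' : ∀ w, L v w → ∃ x, w = .inl x := by
          intro w hw
          have h4 := hs w hw
          rcases w with w | w
          · exact ⟨w, rfl⟩
          · simp at h4
        by_cases hap : ∃ u, G.adj v u ∧ ∃ k, ∀ x, L u x ↔ x = .inr (.ap k)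
        swap
        · refine ⟨_, .e hs' ?_⟩
          intro u hvu k hk
          exact hap ⟨u, hvu, k, hk⟩
        obtain ⟨u, hvu, k, hk⟩ := hap
        by_cases h1 : L v (.inl .o)
        · exact ⟨_, .n0 _ (Or.inl rfl) h1⟩
        by_cases h2 : ∃ k, L v (.inl (.a k))
        · obtain ⟨k, h2⟩ := h2
          exact ⟨_, .n0 _ (Or.inr ⟨k, rfl⟩) h2⟩
        refine ⟨_, .l k ?_⟩
        intro w hw
        obtain ⟨w', h4, h5⟩ := hcl v u hvu w hw
        rw [hk] at h4
        subst h4
        obtain ⟨x, rfl⟩ := hs' w hw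
        cases x with
        | o => exact absurd hw h1
        | e => simp [hadj, R] at h5
        | a k' => exact absurd ⟨k', hw⟩ h2
        | lam k' z =>
          have h6 : k' = k := by simpa [hadj, R] using h5
          exact ⟨z, by rw [h6]⟩
  choose f hf1 hf2 hf3 using hex
  refine ⟨f, ?_, ?_⟩
  · -- (e)
    intro u v huv
    by_cases hr : Reach u
    · have hrv : Reach v := by
        obtain ⟨p, hp, hpu⟩ := hr
        exact ⟨p, hp, hpu.tail huv⟩
      obtain ⟨s, hs⟩ := hside u hr
      have hs' : ∀ x, L v x → x.isLeft = !s := by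
        intro x hx
        obtain ⟨x', h3, h4⟩ := hcl v u (G.symm _ _ huv) x hx
        have h5 := hs x' h3
        rcases x with x | x <;> rcases x' with x' | x' <;> simp_all [hadj]
      have hu := hf1 u hr
      have hv := hf1 v hrv
      have h1 := sp_side hne hu hs
      have h2 := sp_side hne hv hs'
      change hadj (f u) (f v) = true
      generalize f u = cu at hu h1 ⊢
      generalize f v = cv at hv h2 ⊢
      rcases cu with x | x <;> rcases cv with x' | x'
      · exfalso; simp at h1 h2; rw [h1] at h2; cases h2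
      · exact sp_hom hcl hne huv hu hv
      · exact sp_hom hcl hne (G.symm _ _ huv) hv hu
      · exfalso; simp at h1 h2; rw [h1] at h2; cases h2
    · have hrv : ¬ Reach v := by
        rintro ⟨p, hp, hpv⟩
        exact hr ⟨p, hp, hpv.tail (G.symm _ _ huv)⟩
      change hadj (f u) (f v) = true
      rw [hf2 u hr, hf2 v hrv]
      have h1 := hχ u v huv
      cases h2 : χ u <;> cases h3 : χ v <;> simp_all [hadj, R]
  · -- (f)
    intro x x' hR
    obtain ⟨p, hp, q, hq, h1, h2, h3⟩ := hcov x x' hR
    exact ⟨p.1, q.1, h1, by rw [hf3 p.1 p hp rfl, h2], by rw [hf3 q.1 q hq rfl, h3]⟩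

end Pool.Agent.H62.CR
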