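import Pool.Agent.H62.CR.Complete
import Pool.Agent.H62.CR.Sound
import Pool.Agent.H62.CR.Bip

/-!
# The characterisation of the graphs that compact to `H`
-/

namespace Pool.Agent.H62.CR

theorem hadj_isLeft (x y : Vx) (h : hadj x y = true) : x.isLeft ≠ y.isLeft := by
  rcases x with x | x <;> rcases y with y | y <;> simp_all [hadj]

/-- The characterisation which the algorithm uses. -/
theorem char {V : Type} [Fintype V] (G : LG V) : (∃ c, Comp G c) ↔
    (∀ r v, ∃ x, ac G (bip r) v x) ∧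
      ∃ gs : List (V × Vx), gs.length = 300 ∧ ∃ j y, Acc G gs j y := by
  rw [← bip_iff]
  constructor
  · intro h
    refine ⟨?_, ?_⟩
    · obtain ⟨c, h1, -⟩ := h
      exact ⟨fun v => (c v).isLeft, fun u v huv => hadj_isLeft _ _ (h1 u v huv)⟩
    · obtain ⟨c, M, h1, h2, h3⟩ := exists_normal G h
      obtain ⟨j, y, h4⟩ := dich h1 h3
      obtain ⟨gs, h5, h6⟩ := complete h1 h2 h4
      exact ⟨gs, h5, j, y, h6⟩
  · rintro ⟨h1, gs, -, j, y, h2⟩
    exact sound h2 h1

end Pool.Agent.H62.CR
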