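import Pool.Agent.H62.CR.AlgoEnc
import Pool.Agent.H62.CR.Char

/-!
# Job CR-11: the algorithm is correct
-/

namespace Pool.Agent.H62.CR

open Pool.Agent.PPS

variable {n : ℕ}

/-- The entries are numbers of vertices of the graph and of `H`. -/
def Bd (n : ℕ) (S : List (ℕ × ℕ)) : Prop := ∀ p ∈ S, p.1 < n ∧ p.2 < 23

/-- The lists described by `S`. -/
def sem (n : ℕ) (S : List (ℕ × ℕ)) (v : Fin n) (x : Vx) : Prop :=
  ∃ i : Fin 23, vtx i = x ∧ (v.val, i.val) ∈ S

/-- The guess described by `gs`. -/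
noncomputable def gsem (n : ℕ) (gs : List (Fin n × Fin 23)) : List (Fin n × Vx) :=
  gs.map fun p => (p.1, vtx p.2)

theorem Bd.acS {S : List (ℕ × ℕ)} (h : Bd n S) (w : List Bool) : Bd n (acS w S) :=
  fun p hp => h p (List.mem_of_mem_filter hp)

theorem Bd.acI {S : List (ℕ × ℕ)} (h : Bd n S) (w : List Bool) : Bd n (acI w S) := by
  unfold CR.acI
  generalize S.length = k
  induction k with
  | zero => exact h
  | succ k ih =>
    rw [Function.iterate_succ_apply']
    exact ih.acS w

theorem sem_iff {S : List (ℕ × ℕ)} {v : Fin n} {i : Fin 23} :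
    sem n S v (vtx i) ↔ (v.val, i.val) ∈ S := by
  constructor
  · rintro ⟨j, h1, h2⟩
    rw [← vtx_bij.1 h1]; exact h2
  · intro h; exact ⟨i, rfl, h⟩

theorem mem_full (G : LG (Fin n)) {p : ℕ × ℕ} : p ∈ full (enc G) ↔ p.1 < n ∧ p.2 < 23 := by
  simp only [full, lead_enc, List.mem_flatMap, List.mem_range, List.mem_map]
  constructor
  · rintro ⟨v, hv, x, hx, rfl⟩; exact ⟨hv, hx⟩
  · rintro ⟨h1, h2⟩; exact ⟨p.1, h1, p.2, h2, rfl⟩

theorem sem_acS (G : LG (Fin n)) {S : List (ℕ × ℕ)} (hS : Bd n S) (v : Fin n) (x : Vx) :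
    sem n (acS (enc G) S) v x ↔
      sem n S v x ∧ ∀ u, G.adj v u → ∃ y, sem n S u y ∧ hadj x y = true := by
  obtain ⟨i, rfl⟩ := vtx_bij.2 x
  rw [sem_iff, sem_iff]
  simp only [acS, List.mem_filter, List.all_eq_true, List.mem_range, lead_enc, supB,
    Bool.or_eq_true, Bool.not_eq_true', List.any_eq_true, Bool.and_eq_true, decide_eq_true_eq]
  constructor
  · rintro ⟨h1, h2⟩
    refine ⟨h1, fun u hu => ?_⟩
    rcases h2 u.val u.isLt with h | ⟨q, hq, hq1, hq2⟩
    · exact absurd ((ab_enc G v u).2 hu) (by simp [h])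
    · refine ⟨vtx ⟨q.2, (hS q hq).2⟩, ?_, ?_⟩
      · rw [sem_iff, ← hq1]; exact hq
      · exact (mem_tab2 (i := i) (j := ⟨q.2, (hS q hq).2⟩)).1 hq2
  · rintro ⟨h1, h2⟩
    refine ⟨h1, fun u hu => ?_⟩
    by_cases h : G.adj v ⟨u, hu⟩
    · right
      obtain ⟨y, hy1, hy2⟩ := h2 _ h
      obtain ⟨j, rfl⟩ := vtx_bij.2 y
      exact ⟨(u, j.val), sem_iff.1 hy1, rfl, mem_tab2.2 hy2⟩
    · left
      have := (ab_enc G v ⟨u, hu⟩).not.2 h
      simpa using this

theorem Bd.iter {S : List (ℕ × ℕ)} (h : Bd n S) (w : List Bool) (k : ℕ) :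
    Bd n ((CR.acS w)^[k] S) := by
  induction k with
  | zero => exact h
  | succ k ih =>
    rw [Function.iterate_succ_apply']
    exact ih.acS w

theorem acS_fix (w : List Bool) (S : List (ℕ × ℕ)) : acS w (acI w S) = acI w S := by
  have key : ∀ k : ℕ, acS w ((acS w)^[k] S) = (acS w)^[k] S ∨
      ((acS w)^[k] S).length + k ≤ S.length := by
    intro k
    induction k with
    | zero => right; simp
    | succ k ih =>
      rw [Function.iterate_succ_apply']
      rcases ih with h | h
      · left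
        rw [h, h]
      · by_cases h2 : acS w ((acS w)^[k] S) = (acS w)^[k] S
        · left
          rw [h2, h2]
        · right
          have h3 : (acS w ((acS w)^[k] S)).length < ((acS w)^[k] S).length := by
            apply lt_of_le_of_ne (List.length_filter_le _ _)
            intro h4
            exact h2 (List.filter_sublist.eq_of_length h4)
          omega
  rcases key S.length with h | h
  · exact h
  · have h1 : (acS w)^[S.length] S = [] := by
      apply List.eq_nil_of_length_eq_zero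
      omega
    unfold acI
    rw [h1]
    rfl

theorem acI_sub (w : List Bool) (S : List (ℕ × ℕ)) : acI w S ⊆ S := by
  unfold acI
  generalize S.length = k
  induction k with
  | zero => exact fun _ h => h
  | succ k ih =>
    rw [Function.iterate_succ_apply']
    exact fun p hp => ih (List.mem_of_mem_filter hp)

theorem sem_mono {S T : List (ℕ × ℕ)} (h : S ⊆ T) {v : Fin n} {x : Vx} (hx : sem n S v x) :
    sem n T v x := by
  obtain ⟨i, h1, h2⟩ := hx
  exact ⟨i, h1, h h2⟩

/-- Job CR-11a. `acI` computes the largest arc-consistent lists. (1) Every closed `L` below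
`sem n S` is below `sem n (acS (enc G) S)` (`ab_enc`, `mem_tab2`, `vtx_bij`), so below
`sem n (acI (enc G) S)`. (2) `sem n (acI (enc G) S)` is closed: the length of the iterates decreases
until `acS (enc G) T = T` (`List.filter_eq_self`, `List.length_filter_lt_length_iff_exists` or
similar; if it is still not constant after `S.length` steps the list is empty), and
`acS (enc G) T = T` with `Bd n T` means that `sem n T` is closed. (3) It is below `sem n S`. -/
theorem sem_acI (G : LG (Fin n)) {S : List (ℕ × ℕ)} (hS : Bd n S) (v : Fin n) (x : Vx) :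
    sem n (acI (enc G) S) v x ↔ ac G (sem n S) v x := by
  constructor
  · intro h
    refine le_ac (L := sem n (acI (enc G) S)) ?_ (fun u y => sem_mono (acI_sub _ _)) h
    intro u v huv x hx
    rw [← acS_fix, sem_acS G (hS.acI (enc G))] at hx
    exact hx.2 v huv
  · rintro ⟨L, h1, h2, h3⟩
    have key : ∀ k : ℕ, ∀ u y, L u y → sem n ((acS (enc G))^[k] S) u y := by
      intro k
      induction k with
      | zero => exact h2
      | succ k ih =>
        intro u y hy
        rw [Function.iterate_succ_apply', sem_acS G (hS.iter (enc G) k)]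
        refine ⟨ih u y hy, fun u' hu' => ?_⟩
        obtain ⟨z, hz, hz'⟩ := h1 u u' hu' y hy
        exact ⟨z, ih u' z hz, hz'⟩
    exact key _ v x h3

/-- Job CR-11b. -/
theorem neB_iff (G : LG (Fin n)) {S : List (ℕ × ℕ)} (hS : Bd n S) :
    neB (enc G) S = true ↔ ∀ v, ∃ x, sem n S v x := by
  simp only [neB, List.all_eq_true, List.mem_range, lead_enc, List.any_eq_true,
    decide_eq_true_eq]
  constructor
  · intro h v
    obtain ⟨p, hp, hpv⟩ := h v.val v.isLt
    refine ⟨vtx ⟨p.2, (hS p hp).2⟩, ?_⟩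
    rw [sem_iff, ← hpv]
    exact hp
  · intro h v hv
    obtain ⟨x, hx⟩ := h ⟨v, hv⟩
    obtain ⟨i, rfl⟩ := vtx_bij.2 x
    exact ⟨(v, i.val), sem_iff.1 hx, rfl⟩

/-- Job CR-11c. By `sem_acI`, `neB_iff`, `lead_enc`, `mem_tab`, and `ac G L = ac G L'` if `L = L'`. -/
theorem bipB_iff (G : LG (Fin n)) :
    bipB (enc G) = true ↔ ∀ r v, ∃ x, ac G (bip r) v x := by
  have hB : ∀ r, Bd n (bipN (enc G) r) := fun r p hp =>
    (mem_full G).1 (List.mem_of_mem_filter hp)
  have hs : ∀ r : Fin n, sem n (bipN (enc G) r.val) = bip r := by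
    intro r
    funext v x
    obtain ⟨i, rfl⟩ := vtx_bij.2 x
    apply propext
    rw [sem_iff]
    simp only [bipN, List.mem_filter, mem_full, Bool.and_eq_true, Bool.or_eq_true,
      Bool.not_eq_true', decide_eq_true_eq, decide_eq_false_iff_not, ooTab, loTab, mem_tab, bip,
      Fin.isLt, true_and, and_self]
    rw [← Fin.ext_iff, imp_iff_not_or]
  simp only [bipB, List.all_eq_true, List.mem_range, lead_enc]
  constructor
  · intro h r v
    obtain ⟨x, hx⟩ := (neB_iff G ((hB r.val).acI (enc G))).1 (h r.val r.isLt) v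
    rw [sem_acI G (hB r.val), hs] at hx
    exact ⟨x, hx⟩
  · intro h r hr
    rw [neB_iff G ((hB r).acI (enc G))]
    intro v
    obtain ⟨x, hx⟩ := h ⟨r, hr⟩ v
    refine ⟨x, ?_⟩
    rw [sem_acI G (hB r)]
    have := hs ⟨r, hr⟩
    simp only at this
    rw [this]
    exact hx

theorem mem_gsem {gs : List (Fin n × Fin 23)} {p : Fin n × Vx} :
    p ∈ gsem n gs ↔ ∃ q ∈ gs, (q.1, vtx q.2) = p := by
  simp only [gsem, List.mem_map]

theorem gsdB_iff (gs : List (Fin n × Fin 23)) (v : Fin n) :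
    gsdB (gs.map fun p => (p.1.val, p.2.val)) v.val = true ↔ ∃ p ∈ gsem n gs, p.1 = v := by
  simp only [gsdB, List.any_eq_true, List.mem_map, decide_eq_true_eq]
  constructor
  · rintro ⟨_, ⟨q, hq, rfl⟩, h⟩
    exact ⟨_, mem_gsem.2 ⟨q, hq, rfl⟩, Fin.ext h⟩
  · rintro ⟨p, hp, rfl⟩
    obtain ⟨q, hq, rfl⟩ := mem_gsem.1 hp
    exact ⟨_, ⟨q, hq, rfl⟩, rfl⟩

theorem not_gsdB_iff (gs : List (Fin n × Fin 23)) (v : Fin n) :
    ¬ gsdB (gs.map fun p => (p.1.val, p.2.val)) v.val = true ↔ ∀ p ∈ gsem n gs, p.1 ≠ v := by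
  rw [gsdB_iff]
  push Not
  rfl

theorem mem_bapTab {i : Fin 23} : i.val ∈ bapTab ↔
    ∃ j, vtx i = .inr (.b j) ∨ vtx i = .inr (.ap j) := by
  rw [bapTab, mem_tab]
  rcases vtx i with x | x
  · simp
  · cases x <;> simp

theorem mem_lamTab {i : Fin 23} : i.val ∈ lamTab ↔ ∃ k y, vtx i = .inl (.lam k y) := by
  rw [lamTab, mem_tab]
  rcases vtx i with x | x
  · cases x <;> simp [isLam]
  · simp [isLam]

theorem mem_tauTab {j : Bool} {y : Fin 3} {i : Fin 23} : i.val ∈ tauTab j y ↔
    ∃ x s, vtx i = .inr (.tau x s) ∧ crd x s j = y := by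
  rw [tauTab, mem_tab]
  rcases vtx i with x | x
  · simp
  · cases x with
    | tau x s =>
      simp only [decide_eq_true_eq]
      constructor
      · exact fun h => ⟨x, s, rfl, h⟩
      · rintro ⟨x', s', h, h'⟩
        injection h with h
        injection h with h1 h2
        rw [h1, h2]
        exact h'
    | _ => simp

theorem Bd.iniN (G : LG (Fin n)) (gs : List (ℕ × ℕ)) : Bd n (iniN (enc G) gs) := fun _ hp =>
  (mem_full G).1 (List.mem_of_mem_filter hp)

theorem Bd.remN {S : List (ℕ × ℕ)} (h : Bd n S) (w : List Bool) (gs : List (ℕ × ℕ))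
    (T : List ℕ) : Bd n (remN w gs T S) := fun p hp => h p (List.mem_of_mem_filter hp)

theorem sem_iniN (G : LG (Fin n)) (gs : List (Fin n × Fin 23)) :
    sem n (iniN (enc G) (gs.map fun p => (p.1.val, p.2.val))) = ini (gsem n gs) := by
  funext v x
  obtain ⟨i, rfl⟩ := vtx_bij.2 x
  apply propext
  rw [sem_iff]
  simp only [iniN, List.mem_filter, mem_full, Bool.and_eq_true, Bool.or_eq_true,
    Bool.not_eq_true', decide_eq_true_eq, decide_eq_false_iff_not, List.all_eq_true,
    Fin.isLt, true_and, and_self, ini]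
  apply and_congr
  · constructor
    · intro h p hp hpv
      obtain ⟨q, hq, rfl⟩ := mem_gsem.1 hp
      rcases h _ (List.mem_map.2 ⟨q, hq, rfl⟩) with h1 | h1
      · exact absurd (congrArg Fin.val hpv) h1
      · exact congrArg vtx (Fin.ext h1)
    · intro h p hp
      obtain ⟨q, hq, rfl⟩ := List.mem_map.1 hp
      by_cases h1 : q.1 = v
      · right
        have := h _ (mem_gsem.2 ⟨q, hq, rfl⟩) h1
        exact congrArg Fin.val (vtx_bij.1 this)
      · left
        exact fun h2 => h1 (Fin.ext h2)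
  · rw [← not_gsdB_iff, mem_bapTab]
    constructor
    · intro h h1 j
      rcases h with h | h
      · exact absurd h h1
      · exact ⟨fun h2 => h ⟨j, Or.inl h2⟩, fun h2 => h ⟨j, Or.inr h2⟩⟩
    · intro h
      by_cases h1 : gsdB (gs.map fun p => (p.1.val, p.2.val)) v.val = true
      · exact Or.inl h1
      · right
        rintro ⟨j, h2 | h2⟩
        · exact (h h1 j).1 h2
        · exact (h h1 j).2 h2

theorem singB_iff {S : List (ℕ × ℕ)} (v : Fin n) :
    singB S v.val = true ↔ Sing (sem n S) v := by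
  simp only [singB, List.any_eq_true, List.all_eq_true, List.mem_range, Bool.and_eq_true,
    Bool.or_eq_true, Bool.not_eq_true', decide_eq_true_eq, decide_eq_false_iff_not, Sing]
  constructor
  · rintro ⟨x, hx, ⟨h1, h2⟩, h3⟩
    obtain ⟨k, y, hk⟩ := mem_lamTab (i := ⟨x, hx⟩).1 h1
    refine ⟨k, y, fun z => ?_⟩
    obtain ⟨i, rfl⟩ := vtx_bij.2 z
    rw [sem_iff, ← hk]
    constructor
    · intro h
      rcases h3 i.val i.isLt with h4 | h4
      · exact congrArg vtx (Fin.ext h4)
      · exact absurd h h4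
    · intro h
      rw [vtx_bij.1 h]
      exact h2
  · rintro ⟨k, y, h⟩
    obtain ⟨i, hi⟩ := vtx_bij.2 (.inl (.lam k y))
    refine ⟨i.val, i.isLt, ⟨mem_lamTab.2 ⟨k, y, hi⟩, ?_⟩, fun x' hx' => ?_⟩
    · rw [← sem_iff, h, hi]
    · by_cases h1 : x' = i.val
      · exact Or.inl h1
      · right
        intro h2
        have h3 : sem n S v (vtx ⟨x', hx'⟩) := sem_iff.2 h2
        rw [h, ← hi] at h3
        exact h1 (congrArg Fin.val (vtx_bij.1 h3))

theorem sem_remN (G : LG (Fin n)) (gs : List (Fin n × Fin 23)) (j : Bool) (y : Fin 3)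
    {S : List (ℕ × ℕ)} (_hS : Bd n S) :
    sem n (remN (enc G) (gs.map fun p => (p.1.val, p.2.val)) (tauTab j y) S) =
      rem G (gsem n gs) j y (sem n S) := by
  funext v x
  obtain ⟨i, rfl⟩ := vtx_bij.2 x
  apply propext
  rw [sem_iff]
  simp only [remN, List.mem_filter, Bool.or_eq_true, Bool.and_eq_true, Bool.not_eq_true',
    decide_eq_false_iff_not, List.any_eq_true, List.mem_range, lead_enc, rem, sem_iff]
  apply and_congr Iff.rfl
  rw [← not_gsdB_iff, mem_tauTab]
  constructor
  · intro h h1 x' s hx hy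
    rcases h with (h | h) | ⟨u, hu, h2, h3⟩
    · exact absurd h h1
    · exact absurd ⟨x', s, hx, hy⟩ h
    · exact ⟨⟨u, hu⟩, (ab_enc G v ⟨u, hu⟩).1 h2, (singB_iff (⟨u, hu⟩ : Fin n)).1 h3⟩
  · intro h
    by_cases h1 : gsdB (gs.map fun p => (p.1.val, p.2.val)) v.val = true
    · exact Or.inl (Or.inl h1)
    · by_cases h2 : ∃ x s, vtx i = .inr (.tau x s) ∧ crd x s j = y
      · right
        obtain ⟨x, s, h3, h4⟩ := h2
        obtain ⟨u, hu, hu'⟩ := h h1 x s h3 h4
        exact ⟨u.val, u.isLt, (ab_enc G v u).2 hu, (singB_iff u).2 hu'⟩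
      · exact Or.inl (Or.inr h2)

theorem covB_iff (G : LG (Fin n)) (gs : List (Fin n × Fin 23)) :
    covB (enc G) (gs.map fun p => (p.1.val, p.2.val)) = true ↔
      ∀ x x', R x x' = true → ∃ p ∈ gsem n gs, ∃ q ∈ gsem n gs,
        G.adj p.1 q.1 ∧ p.2 = .inl x ∧ q.2 = .inr x' := by
  simp only [covB, List.all_eq_true, List.any_eq_true, Bool.and_eq_true, decide_eq_true_eq]
  constructor
  · intro h x x' hx
    obtain ⟨i, hi⟩ := vtx_bij.2 (.inl x)
    obtain ⟨j, hj⟩ := vtx_bij.2 (.inr x')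
    obtain ⟨p, hp, q, hq, ⟨h1, h2⟩, h3⟩ := h (i.val, j.val) (mem_tab2.2 (by
      rw [hi, hj]
      simpa [hadj] using hx))
    obtain ⟨p', hp', rfl⟩ := List.mem_map.1 hp
    obtain ⟨q', hq', rfl⟩ := List.mem_map.1 hq
    refine ⟨_, mem_gsem.2 ⟨p', hp', rfl⟩, _, mem_gsem.2 ⟨q', hq', rfl⟩,
      (ab_enc G p'.1 q'.1).1 h1, ?_, ?_⟩
    · change vtx p'.2 = _
      rw [← hi]
      exact congrArg vtx (Fin.ext h2)
    · change vtx q'.2 = _
      rw [← hj]
      exact congrArg vtx (Fin.ext h3)
  · intro h e he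
    obtain ⟨i, j, hij, rfl⟩ := mem_tab2'.1 he
    rw [Bool.and_eq_true] at hij
    rcases hi : vtx i with x | x
    · rcases hj : vtx j with x' | x'
      · rw [hi, hj] at hij
        simp [hadj] at hij
      · rw [hi, hj] at hij
        obtain ⟨p, hp, q, hq, h1, h2, h3⟩ := h x x' hij.2
        obtain ⟨p', hp', rfl⟩ := mem_gsem.1 hp
        obtain ⟨q', hq', rfl⟩ := mem_gsem.1 hq
        refine ⟨_, List.mem_map.2 ⟨p', hp', rfl⟩, _, List.mem_map.2 ⟨q', hq', rfl⟩,
          ⟨(ab_enc G p'.1 q'.1).2 h1, ?_⟩, ?_⟩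
        · exact congrArg Fin.val (vtx_bij.1 (h2.trans hi.symm))
        · exact congrArg Fin.val (vtx_bij.1 (h3.trans hj.symm))
    · rw [hi] at hij
      simp at hij

/-- Job CR-11d. For `gs` with `Bd n gs`, say `gs = gs'.map fun p => (p.1.val, p.2.val)`, the steps of
`accB` compute the lists `ini`, `ac`, `rem`, `ac` of `Acc`: show `sem n (iniN (enc G) gs) = ini gs''`
with `gs'' = gsem n gs'` etc. (`funext`, `propext`). -/
theorem accB_iff (G : LG (Fin n)) (gs : List (Fin n × Fin 23)) (j : Bool) (y : Fin 3) :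
    accB (enc G) (gs.map fun p => (p.1.val, p.2.val)) (tauTab j y) = true ↔
      Acc G (gsem n gs) j y := by
  have h1 := Bd.iniN G (gs.map fun p => (p.1.val, p.2.val))
  have h2 := (h1.acI (enc G)).remN (enc G) (gs.map fun p => (p.1.val, p.2.val)) (tauTab j y)
  have e1 : ∀ {S : List (ℕ × ℕ)}, Bd n S → sem n (acI (enc G) S) = ac G (sem n S) :=
    fun hS => funext fun v => funext fun x => propext (sem_acI G hS v x)
  rw [accB, Bool.and_eq_true, covB_iff, neB_iff G (h2.acI (enc G)), e1 h2,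
    sem_remN G gs j y (h1.acI (enc G)), e1 h1, sem_iniN]
  rfl

/-- Job CR-11e. `tup l k` has exactly the lists of length `k` with elements in `l`. -/
theorem mem_tup {l : List (ℕ × ℕ)} {k : ℕ} {t : List (ℕ × ℕ)} :
    t ∈ tup l k ↔ t.length = k ∧ ∀ p ∈ t, p ∈ l := by
  induction k generalizing t with
  | zero =>
    simp only [tup, List.mem_singleton, List.length_eq_zero_iff]
    constructor
    · rintro rfl
      simp
    · exact fun h => h.1
  | succ k ih =>
    simp only [tup, List.mem_flatMap, List.mem_map]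
    constructor
    · rintro ⟨s, hs, i, hi, rfl⟩
      obtain ⟨h1, h2⟩ := ih.1 hs
      refine ⟨by simp [h1], ?_⟩
      intro p hp
      rcases List.mem_cons.1 hp with rfl | hp
      · exact hi
      · exact h2 p hp
    · rintro ⟨h1, h2⟩
      cases t with
      | nil => simp at h1
      | cons i s =>
        exact ⟨s, ih.2 ⟨by simpa using h1, fun p hp => h2 p (List.mem_cons_of_mem _ hp)⟩, i,
          h2 i List.mem_cons_self, rfl⟩

/-- Job CR-11f. By `wfB_iff`, `bipB_iff`, `accB_iff`, `mem_tup`, `char`: every list of length 300 of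
elements of `full (enc G)` is the image of a `gs : List (Fin n × Fin 23)`, and every
`gs : List (Fin n × Vx)` is `gsem n gs'` for some `gs'` of the same length (`vtx_bij`). -/
theorem decW_iff (G : LG (Fin n)) : decW (enc G) = true ↔ ∃ c, Comp G c := by
  rw [char, decW, Bool.and_eq_true, Bool.and_eq_true, bipB_iff, wfB_iff]
  have hw : ∃ (m : ℕ) (G' : LG (Fin m)), enc G = enc G' := ⟨n, G, rfl⟩
  simp only [hw, true_and]
  apply and_congr Iff.rfl
  simp only [List.any_eq_true, mem_tup]
  have hT : ∀ T, T ∈ tauTabs ↔ ∃ j y, T = tauTab j y := by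
    intro T
    constructor
    · intro h
      simp only [tauTabs, List.mem_cons, List.not_mem_nil, or_false] at h
      rcases h with h | h | h | h | h | h
      · exact ⟨_, _, h⟩
      · exact ⟨_, _, h⟩
      · exact ⟨_, _, h⟩
      · exact ⟨_, _, h⟩
      · exact ⟨_, _, h⟩
      · exact ⟨_, _, h⟩
    · rintro ⟨j, y, rfl⟩
      simp only [tauTabs, List.mem_cons, List.not_mem_nil, or_false]
      cases j <;> fin_cases y <;> simp
  constructor
  · rintro ⟨gs, ⟨h1, h2⟩, T, hT', h3⟩
    obtain ⟨j, y, rfl⟩ := (hT T).1 hT'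
    have h4 : ∃ gs' : List (Fin n × Fin 23), gs = gs'.map fun p => (p.1.val, p.2.val) := by
      refine ⟨gs.attach.map fun p => (⟨p.1.1, ((mem_full G).1 (h2 _ p.2)).1⟩,
        ⟨p.1.2, ((mem_full G).1 (h2 _ p.2)).2⟩), ?_⟩
      rw [List.map_map]
      exact (List.attach_map_subtype_val gs).symm
    obtain ⟨gs', rfl⟩ := h4
    exact ⟨gsem n gs', by simpa [gsem] using h1, j, y, (accB_iff G gs' j y).1 h3⟩
  · rintro ⟨gs, h1, j, y, h2⟩
    let e := Equiv.ofBijective vtx vtx_bij
    have h4 : gs = gsem n (gs.map fun p => (p.1, e.symm p.2)) := by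
      rw [gsem, List.map_map]
      have : (fun p : Fin n × Vx => p) =
          ((fun p : Fin n × Fin 23 => (p.1, vtx p.2)) ∘ fun p => (p.1, e.symm p.2)) := by
        funext p
        have he : vtx (e.symm p.2) = p.2 := e.apply_symm_apply p.2
        simp only [Function.comp, he]
      rw [← this]
      exact (List.map_id gs).symm
    rw [h4] at h2
    refine ⟨_, ⟨?_, ?_⟩, tauTab j y, (hT _).2 ⟨j, y, rfl⟩, (accB_iff G _ j y).2 h2⟩
    · simpa using h1
    · intro p hp
      obtain ⟨q, -, rfl⟩ := List.mem_map.1 hp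
      exact (mem_full G).2 ⟨q.1.isLt, q.2.isLt⟩

end Pool.Agent.H62.CR
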