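import Pool.Agent.H62.CR.Algo
import Pool.Agent.H87.HC.Kit

/-!
# Job CR-9: the algorithm runs in polynomial time

Model: `Pool/Agent/H87/HC/AlgoPT.lean` (same style of algorithm, with `PT.any2`, `PT.all2`,
`PT.filter2`, `PT.flatMap2`, `PT.map2`, `PT.mem2` from `Pool/Agent/H87/HC/Kit.lean`, and
`PT.lead'`, `PT.bitAt'`, `PT.range'`, `PT.iterate`, `PT.decideLe`, ...). Constant tables are
constants (`PT.const'`). Give one lemma for every definition of `Algo.lean` (`ab`, `wfB`, `full`,
`supB`, `acS`, `acI` as `PT.clean'`, `gsdB`, `iniN`, `singB`, `remN`, `covB`, `neB`, `accB`, `bipN`,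
`bipB`, `tup` as `PT.tuples'`, `decW`), tagged `fun_prop` where useful.
-/

namespace Pool.Agent.H62.CR

open Pool.Agent.PPS H87.HC Pool.Agent.H87.PMCSP

section

variable {m : Bool} {α β : Type} [Rep α] [Rep β]
  {w : α → List Bool} {S gs l : α → List (ℕ × ℕ)} {a b v u r : α → ℕ} {p : α → ℕ × ℕ}
  {T : α → List ℕ}

@[fun_prop]
theorem PT.ab' (hw : PT m w) (ha : PT m a) (hb : PT m b) :
    PT m (fun x => ab (w x) (a x) (b x)) := by
  unfold ab
  fun_prop

theorem PT.wfB' (hw : PT m w) : PT m (fun x => wfB (w x)) := by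
  unfold wfB
  refine PT.and' (PT.decideEq hw ?_) ?_
  · refine PT.append' (by fun_prop) (PT.cons' (by fun_prop) ?_)
    refine PT.flatMap2 (by fun_prop) ?_
    exact PT.map2 (f := fun (z : α × ℕ) b => ab (w z.1) z.2 b) (by fun_prop) (by fun_prop)
  · refine PT.all2 (by fun_prop) ?_
    exact PT.all2 (f := fun (z : α × ℕ) b => decide (ab (w z.1) z.2 b = ab (w z.1) b z.2))
      (by fun_prop) (by fun_prop)

@[fun_prop]
theorem PT.full' (hw : PT m w) : PT m (fun x => full (w x)) := by
  unfold full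
  refine PT.flatMap2 (by fun_prop) ?_
  exact PT.map2 (f := fun (z : α × ℕ) b => (z.2, b)) (PT.const' _) (by fun_prop)

@[fun_prop]
theorem PT.supB' (hw : PT m w) (hS : PT m S) (hp : PT m p) (hu : PT m u) :
    PT m (fun x => supB (w x) (S x) (p x) (u x)) := by
  unfold supB
  refine PT.or' (by fun_prop) ?_
  refine PT.any2 (by fun_prop) ?_
  refine PT.and' (by fun_prop) ?_
  exact PT.mem2 (x := fun z : α × (ℕ × ℕ) => ((p z.1).2, z.2.2)) (l := fun _ => hTab)
    (by fun_prop) (PT.const' _)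

@[fun_prop]
theorem PT.acS' (hw : PT m w) (hS : PT m S) : PT m (fun x => acS (w x) (S x)) := by
  unfold acS
  refine PT.filter2 (by fun_prop) ?_
  exact PT.all2 (f := fun (z : α × (ℕ × ℕ)) u => supB (w z.1) (S z.1) z.2 u) (by fun_prop)
    (by fun_prop)

theorem size_filter_le' (p : β → Bool) (l : List β) : size (l.filter p) ≤ size l := by
  induction l with
  | nil => exact le_rfl
  | cons b l ih =>
    rw [List.filter_cons]
    split
    · rw [size_cons, size_cons]
      omega
    · rw [size_cons]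
      omega

@[fun_prop]
theorem PT.acI' (hw : PT m w) (hS : PT m S) : PT m (fun x => acI (w x) (S x)) := by
  obtain ⟨p, hp⟩ := hS.exists_size_le
  unfold acI
  refine PT.iterate (s := fun z : α × List (ℕ × ℕ) => acS (w z.1) z.2) (by fun_prop) hS
    (by fun_prop) p ?_
  intro x k _
  refine le_trans ?_ (hp x)
  show size ((acS (w x))^[k] (S x)) ≤ _
  clear hp
  induction k with
  | zero => exact le_rfl
  | succ k ih =>
    rw [Function.iterate_succ_apply']
    exact (size_filter_le' _ _).trans (ih (by omega))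

@[fun_prop]
theorem PT.gsdB' (hg : PT m gs) (hv : PT m v) : PT m (fun x => gsdB (gs x) (v x)) := by
  unfold gsdB
  exact PT.any2 (by fun_prop) (by fun_prop)

@[fun_prop]
theorem PT.iniN' (hw : PT m w) (hg : PT m gs) : PT m (fun x => iniN (w x) (gs x)) := by
  unfold iniN
  refine PT.filter2 (by fun_prop) ?_
  refine PT.and' ?_ ?_
  · exact PT.all2 (f := fun (z : α × (ℕ × ℕ)) (q : ℕ × ℕ) => !decide (q.1 = z.2.1) || decide (q.2 = z.2.2))
      (by fun_prop) (by fun_prop)
  · refine PT.or' (by fun_prop) (PT.not' ?_)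
    exact PT.mem2 (x := fun z : α × (ℕ × ℕ) => z.2.2) (l := fun _ => bapTab) (by fun_prop)
      (PT.const' _)

@[fun_prop]
theorem PT.singB' (hS : PT m S) (hv : PT m v) : PT m (fun x => singB (S x) (v x)) := by
  unfold singB
  refine PT.any2 (PT.const' _) ?_
  refine PT.and' (PT.and' ?_ ?_) ?_
  · exact PT.mem2 (x := fun z : α × ℕ => z.2) (l := fun _ => lamTab) (by fun_prop) (PT.const' _)
  · exact PT.mem2 (x := fun z : α × ℕ => (v z.1, z.2)) (l := fun z : α × ℕ => S z.1)
      (by fun_prop) (by fun_prop)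
  · refine PT.all2 (f := fun (z : α × ℕ) x' => decide (x' = z.2) || !decide ((v z.1, x') ∈ S z.1))
      (PT.const' _) ?_
    refine PT.or' (by fun_prop) (PT.not' ?_)
    exact PT.mem2 (x := fun z : (α × ℕ) × ℕ => (v z.1.1, z.2)) (l := fun z : (α × ℕ) × ℕ => S z.1.1)
      (by fun_prop) (by fun_prop)

@[fun_prop]
theorem PT.remN' (hw : PT m w) (hg : PT m gs) (hT : PT m T) (hS : PT m S) :
    PT m (fun x => remN (w x) (gs x) (T x) (S x)) := by
  unfold remN
  refine PT.filter2 (by fun_prop) ?_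
  refine PT.or' (PT.or' (by fun_prop) (PT.not' ?_)) ?_
  · exact PT.mem2 (x := fun z : α × (ℕ × ℕ) => z.2.2) (l := fun z : α × (ℕ × ℕ) => T z.1)
      (by fun_prop) (by fun_prop)
  · exact PT.any2 (f := fun (z : α × (ℕ × ℕ)) u => ab (w z.1) z.2.1 u && singB (S z.1) u)
      (by fun_prop) (by fun_prop)

@[fun_prop]
theorem PT.covB' (hw : PT m w) (hg : PT m gs) : PT m (fun x => covB (w x) (gs x)) := by
  unfold covB
  refine PT.all2 (PT.const' _) ?_
  refine PT.any2 (f := fun (z : α × (ℕ × ℕ)) (p : ℕ × ℕ) => (gs z.1).any (fun q =>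
    ab (w z.1) p.1 q.1 && decide (p.2 = z.2.1) && decide (q.2 = z.2.2))) (by fun_prop) ?_
  exact PT.any2 (f := fun (z : (α × (ℕ × ℕ)) × (ℕ × ℕ)) (q : ℕ × ℕ) =>
    ab (w z.1.1) z.2.1 q.1 && decide (z.2.2 = z.1.2.1) && decide (q.2 = z.1.2.2)) (by fun_prop)
      (by fun_prop)

@[fun_prop]
theorem PT.neB' (hw : PT m w) (hS : PT m S) : PT m (fun x => neB (w x) (S x)) := by
  unfold neB
  refine PT.all2 (by fun_prop) ?_
  exact PT.any2 (f := fun (z : α × ℕ) (p : ℕ × ℕ) => decide (p.1 = z.2)) (by fun_prop) (by fun_prop)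

@[fun_prop]
theorem PT.accB' (hw : PT m w) (hg : PT m gs) (hT : PT m T) :
    PT m (fun x => accB (w x) (gs x) (T x)) := by
  unfold accB
  fun_prop

@[fun_prop]
theorem PT.bipN' (hw : PT m w) (hr : PT m r) : PT m (fun x => bipN (w x) (r x)) := by
  unfold bipN
  refine PT.filter2 (by fun_prop) ?_
  refine PT.and' ?_ (PT.or' (by fun_prop) ?_)
  · exact PT.mem2 (x := fun z : α × (ℕ × ℕ) => z.2.2) (l := fun _ => ooTab) (by fun_prop)
      (PT.const' _)
  · exact PT.mem2 (x := fun z : α × (ℕ × ℕ) => z.2.2) (l := fun _ => loTab) (by fun_prop)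
      (PT.const' _)

@[fun_prop]
theorem PT.bipB' (hw : PT m w) : PT m (fun x => bipB (w x)) := by
  unfold bipB
  exact PT.all2 (by fun_prop) (by fun_prop)

theorem PT.tup' (hl : PT m l) (k : ℕ) : PT m (fun x => tup (l x) k) := by
  induction k with
  | zero => exact PT.const' _
  | succ k ih =>
    simp only [tup]
    refine PT.flatMap2 ih ?_
    refine PT.map2 (f := fun (z : α × List (ℕ × ℕ)) i => i :: z.2) ?_ ?_
    · have h1 : PT m (fun z : α × List (ℕ × ℕ) => l z.1) := hl.comp (by fun_prop)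
      fun_prop
    · fun_prop

end

/-- Job CR-9. The algorithm runs in polynomial time. -/
theorem PT.decW' : PT true (fun w : List Bool => decW w) := by
  unfold decW
  refine PT.and' (PT.and' (PT.wfB' (by fun_prop)) (by fun_prop)) ?_
  refine PT.any2 (PT.tup' (by fun_prop) 300) ?_
  exact PT.any2 (f := fun (z : List Bool × List (ℕ × ℕ)) T => accB z.1 z.2 T) (PT.const' _)
    (by fun_prop)

end Pool.Agent.H62.CR
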