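import Pool.Agent.H62.CR.Cands

/-!
# Job CR-4: release of the colours `b`
-/

namespace Pool.Agent.H62.CR

variable {V : Type} [Fintype V] {G : LG V} {c : V → Vx} {M : Finset V}

/-- Job CR-4. Suppose not. Apply `greedy` to `ι = Bool × Option (Fin 3)` (8 elements),
`F (j, some y) = Ecand j y`, `F (j, none) = Acand`: sites `u i`. They are pairwise different: each
`u i` has a `lam`-neighbour `w` (`Normal.tau_sees`), and `Cmp w w`. Apply `release` with
`D v ↔ ∃ i, u i = v`, `ty (u i) = i.1`, `host (u i) = b i.1`, `des (u i) = a i.1`, `tot = false`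
(take the values from `Function.invFun u`, or any left inverse). The new colouring `c1` is a
homomorphism. It covers every edge `x y` of `H`: if `y` is not a `b j`, then some adjacent vertices
of `M` have the colours `x` and `y` (`h.cov`) under `c`, and they keep them. If `y = b j`, then
`x` is `e`, `a j` or `lam j z`. `x = e`: the site `u (j, none)` and its neighbour of colour `e`.
`x = a j`: the site `u (j, none)` and a neighbour of a colour `lam (!j) _` under `c`
(`Normal.tau_sees`), which has the colour `des = a j` under `c1`. `x = lam j z`: the site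
`u (j, some z)` and a neighbour of colour `lam j (crd _ _ j) = lam j z` (`Normal.tau_sees`), which
is kept. So `Comp G c1`. Finally `wt c1 < wt c`: the interior vertices of `c1` are interior for `c`,
and a neighbour of `u (false, none)` of a colour `lam true _` is interior for `c` but has colour
`a false` under `c1`. Contradiction to `hmin`. -/
theorem brel (h : Normal G c M) (hmin : ∀ c', Comp G c' → wt c ≤ wt c') :
    (∃ j y, Cov G c (Ecand G c M j y) 16) ∨ Cov G c (Acand G c M) 16 := by
  classical
  by_contra hcon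
  rw [not_or] at hcon
  obtain ⟨hE, hA⟩ := hcon
  let F : Bool × Option (Fin 3) → V → Prop := fun i =>
    match i.2 with
    | some y => Ecand G c M i.1 y
    | none => Acand G c M
  have hcard : 2 * Fintype.card (Bool × Option (Fin 3)) = 16 := by simp
  have hFc : ∀ i u, F i u → Cand G c M u := by
    rintro ⟨j, _ | y⟩ v hv
    · exact hv.1
    · exact hv.1
  have hFn : ∀ i, ¬ Cov G c (F i) (2 * Fintype.card (Bool × Option (Fin 3))) := by
    rw [hcard]
    rintro ⟨j, _ | y⟩ hv
    · exact hA hv
    · exact hE ⟨j, y, hv⟩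
  obtain ⟨u, hu, hind⟩ := greedy h F hFc hFn
  have hcand : ∀ i, Cand G c M (u i) := fun i => hFc i (u i) (hu i)
  -- a lam-neighbour of each type
  have hsee : ∀ i k, ∃ w y, G.adj (u i) w ∧ c w = .inl (.lam k y) := by
    intro i k
    obtain ⟨x, s, hx⟩ := (hcand i).tau
    obtain ⟨w, hw1, hw2⟩ := h.tau_sees (u i) (hcand i).out x s hx k
    exact ⟨w, _, hw1, hw2⟩
  have hinj : Function.Injective u := by
    intro i i' hii
    by_contra hne
    obtain ⟨w, y, hw1, hw2⟩ := hsee i false
    have hl : isLam (c w) = true := by rw [hw2]; rfl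
    exact hind i i' hne w w hw1 hl (hii ▸ hw1) hl (Cmp.refl w)
  have hinv : ∀ i, Function.invFun u (u i) = i := Function.leftInverse_invFun hinj
  have hs : Sites G c M (fun v => ∃ i, u i = v) (fun v => (Function.invFun u v).1)
      (fun v => .b (Function.invFun u v).1) (fun v => .a (Function.invFun u v).1) false := by
    refine ⟨?_, ?_, ?_, ?_⟩
    · rintro _ ⟨i, rfl⟩
      exact hcand i
    · rintro _ _ ⟨i, rfl⟩ ⟨i', rfl⟩ hne w w' h1 h2 h3 h4
      exact hind i i' (fun hii => hne (congrArg u hii)) w w' h1 h2 h3 h4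
    · intro v _
      exact Or.inl rfl
    · intro v _
      refine ⟨?_, fun k y => by simp, fun _ => rfl⟩
      simp [R]
  obtain ⟨c1, hom1, hint, hkeep, hsite, hecol, hlam, hT⟩ := release h hs
  have hkeep' : ∀ v ∈ M, (∀ j, c v ≠ .inr (.b j)) → c1 v = c v := fun v hv hj =>
    hkeep v hv hj (fun hf => absurd hf (by simp))
  have hsite' : ∀ i, c1 (u i) = .inr (.b i.1) := by
    intro i
    rw [hsite (u i) ⟨i, rfl⟩, hinv]
  have hlam' : ∀ i w y, G.adj (u i) w → c w = .inl (.lam i.1 y) → c1 w = c w := by
    intro i w y h1 h2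
    refine hlam (u i) ⟨i, rfl⟩ w y h1 ?_
    rw [hinv]
    exact h2
  have hT' : ∀ i w y, G.adj (u i) w → c w = .inl (.lam (!i.1) y) → c1 w = .inl (.a i.1) := by
    intro i w y h1 h2
    have := hT (u i) ⟨i, rfl⟩ w y h1 (by rw [hinv]; exact h2)
    rw [this, hinv]
  have hcomp : Comp G c1 := by
    refine ⟨hom1, fun x y hxy => ?_⟩
    by_cases hy : ∃ j, y = .b j
    · obtain ⟨j, rfl⟩ := hy
      cases x with
      | o => simp [R] at hxy
      | e =>
        obtain ⟨_, w, hw1, hw2⟩ := hu (j, none)
        refine ⟨w, u (j, none), G.symm _ _ hw1, ?_, hsite' (j, none)⟩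
        exact hecol (u (j, none)) ⟨_, rfl⟩ w hw1 hw2
      | a i =>
        have hij : i = j := by simpa [R] using hxy
        subst hij
        obtain ⟨w, y, hw1, hw2⟩ := hsee (i, none) (!i)
        exact ⟨w, u (i, none), G.symm _ _ hw1, hT' (i, none) w y hw1 hw2, hsite' (i, none)⟩
      | lam i z =>
        have hij : i = j := by simpa [R] using hxy
        subst hij
        obtain ⟨hc0, x, s, hx, hz⟩ := hu (i, some z)
        obtain ⟨w, hw1, hw2⟩ := h.tau_sees (u (i, some z)) hc0.out x s hx i
        change crd x s i = z at hz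
        rw [hz] at hw2
        refine ⟨w, u (i, some z), G.symm _ _ hw1, ?_, hsite' (i, some z)⟩
        rw [hlam' (i, some z) w z hw1 hw2, hw2]
    · obtain ⟨v, hv, w, hw, h1, h2, h3⟩ := h.cov x y hxy
      refine ⟨v, w, h1, ?_, ?_⟩
      · rw [hkeep' v hv (fun j => by rw [h2]; simp), h2]
      · rw [hkeep' w hw (fun j hj => hy ⟨j, by rw [h3] at hj; exact Sum.inr.inj hj⟩), h3]
  have hlt : wt c1 < wt c := by
    unfold wt
    apply Finset.card_lt_card
    rw [Finset.ssubset_iff_of_subset]
    · obtain ⟨w, y, hw1, hw2⟩ := hsee (false, none) true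
      refine ⟨w, ?_, ?_⟩
      · rw [Finset.mem_filter]
        exact ⟨Finset.mem_univ _, by rw [hw2]; rfl⟩
      · rw [Finset.mem_filter, not_and]
        intro _
        rw [hT' (false, none) w y hw1 hw2]
        simp [isInt]
    · intro v hv
      rw [Finset.mem_filter] at hv ⊢
      exact ⟨hv.1, hint v hv.2⟩
  exact absurd (hmin c1 hcomp) (not_le.mpr hlt)

end Pool.Agent.H62.CR
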