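import Pool.Agent.H62.CR.Release

/-!
# Two classes of candidates

`Ecand j y u`: `u` is a candidate whose colour has the type `j` coordinate `y`.
`Acand u`: `u` is a candidate with a neighbour of colour `e`.
-/

namespace Pool.Agent.H62.CR

variable {V : Type}

/-- `u` is a candidate whose colour has the type `j` coordinate `y`. -/
def Ecand (G : LG V) (c : V → Vx) (M : Finset V) (j : Bool) (y : Fin 3) (u : V) : Prop :=
  Cand G c M u ∧ ∃ x s, c u = .inr (.tau x s) ∧ crd x s j = y

/-- `u` is a candidate with a neighbour of colour `e`. -/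
def Acand (G : LG V) (c : V → Vx) (M : Finset V) (u : V) : Prop :=
  Cand G c M u ∧ ∃ w, G.adj u w ∧ c w = .inl .e

end Pool.Agent.H62.CR
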