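import Pool.Agent.H62.CR.AlgoPT
import Pool.Agent.H62.CR.AlgoLists
import Pool.Agent.PPS.Bridge

/-!
# Compaction to `H` is in polynomial time
-/

namespace Pool.Agent.H62.CR

open Pool.Agent.PPS

theorem decW_iff_mem (w : List Bool) : decW w = true ↔ w ∈ COMP H23 := by
  constructor
  · intro h
    have h1 : wfB w = true := by
      simp only [decW, Bool.and_eq_true] at h
      exact h.1.1
    obtain ⟨n, G, rfl⟩ := (wfB_iff w).1 h1
    exact ⟨n, G, rfl, (compacts_iff G).2 ((decW_iff G).1 h)⟩
  · rintro ⟨n, G, rfl, h⟩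
    exact (decW_iff G).2 ((compacts_iff G).1 h)

/-- Compaction to `H` is in polynomial time. -/
theorem comp_mem_P : COMP H23 ∈ P := by
  classical
  rw [mem_P_iff]
  refine PT.of_eq PT.decW' fun w => ?_
  rw [Bool.eq_iff_iff, decide_eq_true_iff]
  exact (decW_iff_mem w).symm

end Pool.Agent.H62.CR
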