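import Pool.Agent.H62.CR.Lists

/-!
# Job CR-6: completeness of the algorithm
-/

namespace Pool.Agent.H62.CR

variable {V : Type} [Fintype V] {G : LG V} {c : V → Vx} {M : Finset V}

lemma adj_two_lam : ∀ (x : Vx) (z z' : Fin 3), hadj x (.inl (.lam false z)) = true →
    hadj x (.inl (.lam true z')) = true → ∃ a s, x = .inr (.tau a s) := by
  decide

lemma adj_ap_tau : ∀ (x : Vx) (k : Bool) (a : Fin 3) (s : Bool), hadj x (.inr (.ap k)) = true →
    hadj x (.inr (.tau a s)) = true → ∃ z, x = .inl (.lam k z) := by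
  decide

lemma adj_ap_b : ∀ (x : Vx) (k : Bool), hadj x (.inr (.ap k)) = true →
    hadj x (.inr (.b k)) = true → ∃ z, x = .inl (.lam k z) := by
  decide

lemma adj_lam_tau {k : Bool} {z a : Fin 3} {s : Bool}
    (h : hadj (.inl (.lam k z)) (.inr (.tau a s)) = true) : crd a s k = z := by
  simpa only [hadj, R, decide_eq_true_eq] using h

/-- The class of a vertex is determined by the lists. -/
def Cls (c : V → Vx) (L : V → Vx → Prop) (v : V) : Prop :=
  (∀ k z, c v = .inl (.lam k z) → ∀ x, L v x → ∃ z', x = .inl (.lam k z')) ∧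
    ∀ a s, c v = .inr (.tau a s) → ∀ x, L v x → ∃ a' s', x = .inr (.tau a' s')

/-- The list of `v` contains nothing but `c v`. -/
def Known (c : V → Vx) (L : V → Vx → Prop) (v : V) : Prop := ∀ x, L v x → x = c v

omit [Fintype V] in
lemma cls_of_cl {L : V → Vx → Prop} (hL : Closed G L) (hM : ∀ v ∈ M, Known c L v) {v : V}
    (hv : Cl G c M v) : Cls c L v := by
  induction hv with
  | base v hv _ =>
    refine ⟨fun k z hc x hx => ⟨z, ?_⟩, fun a s hc x hx => ⟨a, s, ?_⟩⟩
    · rw [hM v hv x hx, hc]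
    · rw [hM v hv x hx, hc]
  | tau v w w' a s z z' hc h1 _ h3 h4 _ h6 ih1 ih2 =>
    refine ⟨fun k z hc' => ?_, fun a' s' _ x hx => ?_⟩
    · rw [hc] at hc'; cases hc'
    · obtain ⟨y1, h7, h8⟩ := hL v w h1 x hx
      obtain ⟨y2, h9, h10⟩ := hL v w' h4 x hx
      obtain ⟨z1, rfl⟩ := ih1.1 _ _ h3 _ h7
      obtain ⟨z2, rfl⟩ := ih2.1 _ _ h6 _ h9
      exact adj_two_lam x z1 z2 h8 h10
  | lamt v m w k z a s hc h1 h2 h3 h4 _ h6 ih =>
    refine ⟨fun k' z' hc' x hx => ?_, fun a' s' hc' => ?_⟩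
    · rw [hc] at hc'; cases hc'
      obtain ⟨y1, h7, h8⟩ := hL v m h1 x hx
      obtain ⟨y2, h9, h10⟩ := hL v w h4 x hx
      rw [hM m h2 y1 h7, h3] at h8
      obtain ⟨a1, s1, rfl⟩ := ih.2 _ _ h6 _ h9
      exact adj_ap_tau x k a1 s1 h8 h10
    · rw [hc] at hc'; cases hc'
  | lamb v m m' k z hc h1 h2 h3 h4 h5 h6 =>
    refine ⟨fun k' z' hc' x hx => ?_, fun a' s' hc' => ?_⟩
    · rw [hc] at hc'; cases hc'
      obtain ⟨y1, h7, h8⟩ := hL v m h1 x hx
      obtain ⟨y2, h9, h10⟩ := hL v m' h4 x hx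
      rw [hM m h2 y1 h7, h3] at h8
      rw [hM m' h5 y2 h9, h6] at h10
      exact adj_ap_b x k h8 h10
    · rw [hc] at hc'; cases hc'

omit [Fintype V] in
lemma known_of_lk {L : V → Vx → Prop} (hL : Closed G L)
    (hcls : ∀ v, isInt (c v) = true → Cls c L v) {v v' : V} (h : Lk G c v v')
    (hv : Known c L v) : Known c L v' := by
  obtain ⟨k, z, h1, h2, u, a, s, h3, h4, h5⟩ := h
  intro x hx
  obtain ⟨y1, h6, h7⟩ := hL v' u (G.symm _ _ h5) x hx
  obtain ⟨a', s', rfl⟩ := (hcls u (by rw [h3]; rfl)).2 _ _ h3 _ h6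
  obtain ⟨z', rfl⟩ := (hcls v' (by rw [h2]; rfl)).1 _ _ h2 _ hx
  obtain ⟨y2, h8, h9⟩ := hL u v h4 _ h6
  rw [hv y2 h8, h1] at h9
  have e1 := adj_lam_tau (hadj_symm _ _ h9)
  have e2 := adj_lam_tau h7
  rw [h2, ← e1, ← e2]

omit [Fintype V] in
lemma known_of_cmp {L : V → Vx → Prop} (hL : Closed G L)
    (hcls : ∀ v, isInt (c v) = true → Cls c L v) {v v' : V} (h : Cmp G c v v')
    (hv : Known c L v) : Known c L v' := by
  induction h with
  | refl => exact hv
  | tail _ h2 ih => exact known_of_lk hL hcls h2 ih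

omit [Fintype V] in
lemma known_of_pinned (h : Normal G c M) {L : V → Vx → Prop} (hL : Closed G L)
    (hM : ∀ v ∈ M, Known c L v) (hcls : ∀ v, isInt (c v) = true → Cls c L v) {v : V}
    (hv : Pinned G c M v) (hl : isLam (c v) = true) : Known c L v := by
  obtain ⟨v', h1, h2⟩ := hv
  have h3 : c v' = c v := Cmp.eq h1
  refine known_of_cmp hL hcls (Cmp.symm h1) ?_
  rcases h2 with h2 | ⟨u, h2, h4, a, s, h5⟩
  · exact hM v' h2
  · intro x hx
    rcases hcv : c v' with y | y
    · cases y with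
      | lam k z =>
        obtain ⟨z', rfl⟩ := (hcls v' (by rw [hcv]; rfl)).1 _ _ hcv _ hx
        obtain ⟨y1, h6, h7⟩ := hL v' u (G.symm _ _ h4) _ hx
        rw [hM u h2 y1 h6, h5] at h7
        have e1 := adj_lam_tau h7
        have e2 := tau_lam h.hom h5 h4 hcv
        rw [e2, e1]
      | o => rw [← h3, hcv] at hl; cases hl
      | e => rw [← h3, hcv] at hl; cases hl
      | a k => rw [← h3, hcv] at hl; cases hl
    · rw [← h3, hcv] at hl; cases hl

omit [Fintype V] in
lemma sing_of_known {L : V → Vx → Prop} {w : V} (h1 : L w (c w)) (h2 : Known c L w)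
    (hl : isLam (c w) = true) : Sing L w := by
  rcases hcv : c w with y | y
  · cases y with
    | lam k z =>
      refine ⟨k, z, fun x => ⟨fun hx => ?_, fun hx => ?_⟩⟩
      · rw [h2 x hx, hcv]
      · rw [hx, ← hcv]; exact h1
    | o => rw [hcv] at hl; cases hl
    | e => rw [hcv] at hl; cases hl
    | a k => rw [hcv] at hl; cases hl
  · rw [hcv] at hl; cases hl

/-- Job CR-6. Let `K` be as in `Cov`, `S = M ∪ K` (at most 300 vertices, and `M` is not empty by
`h.cov`), `gs` the list of the pairs `(v, c v)`, `v ∈ S` (`S.toList.map`), filled up to the length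
300 with copies of one of them; so `p ∈ gs ↔ p.1 ∈ S ∧ p.2 = c p.1`. The first part of `Acc` is
`h.cov`. Let `L1 = ac G (ini gs)`.
1. `L1 v (c v)` for all `v` (`hom_ac`; if `v ∉ S`, then `c v` is not a `b` or `ap` by `Normal.b`
and `Normal.ap`). For `v ∈ S`: `L1 v x → x = c v` (`ac_le`).
2. Class lemma: if `Cl G c M v` and `L1 v x`, then: if `c v = lam k _` then `x = lam k _`, if
`c v = tau _ _` then `x = tau _ _`. Induction over `Cl`, using that `L1` is closed (`ac_closed`):
`base`: by 1. `tau`: `x` is adjacent to a colour `lam false _` and to a colour `lam true _`, so it is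
a `tau` (by `decide`, or by cases). `lamt`: `x` is adjacent to `ap k` (by 1) and to a colour `tau`;
the common neighbours are the `lam k _`. `lamb`: `x` is adjacent to `ap k` and `b k`; the common
neighbours are the `lam k _`. By `h.cl` this holds for all interior `v`.
3. Say that `v` is known if `L1 v x → x = c v` for all `x`. If `Lk v v'` and `v` is known, then `v'`
is known: `c v = c v' = lam k z`, common neighbour `u` of colour `tau`. Every element of `L1 u` is
a `tau` (by 2) adjacent to `lam k z`, so it has the type `k` coordinate `z`. Every element of `L1 v'`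
is a `lam k z'` (by 2) adjacent to an element of `L1 u`, so `z' = z`. So known is invariant under
`Cmp`.
4. Pinned vertices `v` of a colour `lam` are known: `Cmp v v'` with `v' ∈ M` (known by 1), or `v'`
adjacent to `u ∈ M` with `c u = tau x s`. In the second case `c v' = lam k z` (`Cmp.eq`),
`z = crd x s k` by the homomorphism, and every element of `L1 v'` is a `lam k z'` (by 2) adjacent to
`tau x s` (by 1), so `z' = z`: `v'` is known.
5. `rem G gs j y L1 v (c v)` for all `v`: let `v ∉ S`, `c v = tau x s`, `crd x s j = y`. If `v` is a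
candidate, then `Ecand j y v`, and by `Cov` it has a `lam`-neighbour `w` with `Cmp κ w`, `κ ∈ K`;
`κ` is known by 1, so `w` is known. If `v` is not a candidate, then it has a pinned `lam`-neighbour
`w` (as `v ∉ M`), which is known by 4. In both cases `Sing L1 w` by 1 and `isLam (c w)`.
6. `fin G gs j y v (c v)` by `hom_ac`. -/
theorem complete (h : Normal G c M) (hM : M.card ≤ 260) {j : Bool} {y : Fin 3}
    (hc : Cov G c (Ecand G c M j y) 40) :
    ∃ gs : List (V × Vx), gs.length = 300 ∧ Acc G gs j y := by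
  classical
  obtain ⟨K, hK, hcov⟩ := hc
  obtain ⟨u0, hu0, -⟩ := h.cov .o .o rfl
  have hS : (M ∪ K).card ≤ 300 := (Finset.card_union_le _ _).trans (by omega)
  have hgs : ∃ gs : List (V × Vx), gs.length = 300 ∧ ∀ p, p ∈ gs ↔ p.1 ∈ M ∪ K ∧ p.2 = c p.1 := by
    refine ⟨(M ∪ K).toList.map (fun v => (v, c v)) ++
      List.replicate (300 - (M ∪ K).card) (u0, c u0), ?_, ?_⟩
    · rw [List.length_append, List.length_map, Finset.length_toList, List.length_replicate]
      omega
    · rintro ⟨v, x⟩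
      rw [List.mem_append, List.mem_map]
      constructor
      · rintro (⟨w, h1, h2⟩ | h1)
        · cases h2
          exact ⟨Finset.mem_toList.1 h1, rfl⟩
        · have h2 := List.eq_of_mem_replicate h1
          cases h2
          exact ⟨Finset.mem_union_left _ hu0, rfl⟩
      · rintro ⟨h1, h2⟩
        refine Or.inl ⟨v, Finset.mem_toList.2 h1, ?_⟩
        rw [show x = c v from h2]
  obtain ⟨gs, hlen, hgs⟩ := hgs
  have hout : ∀ v, (∀ p ∈ gs, p.1 ≠ v) → v ∉ M ∪ K := fun v h1 h2 =>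
    h1 (v, c v) ((hgs _).2 ⟨h2, rfl⟩) rfl
  have A1 : ∀ v, ac G (ini gs) v (c v) := by
    refine hom_ac h.hom fun v => ⟨fun p hp hpv => ?_, fun hne i => ?_⟩
    · rw [((hgs p).1 hp).2, hpv]
    · have h1 : v ∉ M := fun h2 => hout v hne (Finset.mem_union_left _ h2)
      exact ⟨h.b v h1 i, h.ap v h1 i⟩
  have A2 : ∀ v ∈ M ∪ K, Known c (ac G (ini gs)) v := by
    intro v hv x hx
    exact ((ac_le G _ hx).1 (v, c v) ((hgs _).2 ⟨hv, rfl⟩) rfl).symm
  have hL : Closed G (ac G (ini gs)) := ac_closed G _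
  have hM' : ∀ v ∈ M, Known c (ac G (ini gs)) v := fun v hv => A2 v (Finset.mem_union_left _ hv)
  have hcls : ∀ v, isInt (c v) = true → Cls c (ac G (ini gs)) v :=
    fun v hv => cls_of_cl hL hM' (h.cl v hv)
  refine ⟨gs, hlen, ?_, fun v => ⟨c v, ?_⟩⟩
  · intro x x' hx
    obtain ⟨u, hu, v, hv, h1, h2, h3⟩ := h.cov x x' hx
    exact ⟨(u, c u), (hgs _).2 ⟨Finset.mem_union_left _ hu, rfl⟩, (v, c v),
      (hgs _).2 ⟨Finset.mem_union_left _ hv, rfl⟩, h1, h2, h3⟩
  · refine hom_ac h.hom (fun v => ⟨A1 v, fun hne a s hcv hcrd => ?_⟩) v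
    have hvS := hout v hne
    have hvM : v ∉ M := fun h2 => hvS (Finset.mem_union_left _ h2)
    by_cases hcand : Cand G c M v
    · obtain ⟨w, h1, h2, κ, h3, h4⟩ := hcov v ⟨hcand, a, s, hcv, hcrd⟩
      exact ⟨w, h1, sing_of_known (A1 w)
        (known_of_cmp hL hcls h4 (A2 κ (Finset.mem_union_right _ h3))) h2⟩
    · have h5 : ∃ w, G.adj v w ∧ isLam (c w) = true ∧ Pinned G c M w := by
        by_contra hno
        exact hcand ⟨hvM, ⟨a, s, hcv⟩, fun w h1 h2 h3 => hno ⟨w, h1, h2, h3⟩⟩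
      obtain ⟨w, h1, h2, h3⟩ := h5
      exact ⟨w, h1, sing_of_known (A1 w) (known_of_pinned h hL hM' hcls h3 h2) h2⟩

end Pool.Agent.H62.CR
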