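import Pool.Agent.H62.CR.Normal

/-!
# Job CR-2: components of `lam`-vertices, the greedy choice of independent sites

`Lk v v'`: `v` and `v'` have the same colour `lam k y` and a common neighbour of a colour `tau`.
`Cmp` is its reflexive transitive closure. A vertex is pinned if it is in the component of a vertex
`v'` which is in `M` or has a neighbour in `M` of a colour `tau`. A candidate is a vertex outside
`M` of a colour `tau` none of whose `lam`-neighbours is pinned.
-/

namespace Pool.Agent.H62.CR

variable {V : Type}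

/-- `v` and `v'` have the same colour `lam k y` and a common neighbour of a colour `tau`. -/
def Lk (G : LG V) (c : V → Vx) (v v' : V) : Prop :=
  ∃ k y, c v = .inl (.lam k y) ∧ c v' = .inl (.lam k y) ∧
    ∃ u x s, c u = .inr (.tau x s) ∧ G.adj u v ∧ G.adj u v'

/-- `v` and `v'` are in the same component. -/
def Cmp (G : LG V) (c : V → Vx) : V → V → Prop := Relation.ReflTransGen (Lk G c)

/-- `v` is in the component of a vertex of `M` or of a neighbour of a `tau`-vertex of `M`. -/
def Pinned (G : LG V) (c : V → Vx) (M : Finset V) (v : V) : Prop :=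
  ∃ v', Cmp G c v v' ∧ (v' ∈ M ∨ ∃ u ∈ M, G.adj u v' ∧ ∃ x s, c u = .inr (.tau x s))

/-- `u` is a vertex outside `M` of a colour `tau` without pinned `lam`-neighbours. -/
structure Cand (G : LG V) (c : V → Vx) (M : Finset V) (u : V) : Prop where
  out : u ∉ M
  tau : ∃ x s, c u = .inr (.tau x s)
  free : ∀ w, G.adj u w → isLam (c w) = true → ¬ Pinned G c M w

/-- The components of at most `m` vertices meet the neighbourhood of every vertex in `F`. -/
def Cov (G : LG V) (c : V → Vx) (F : V → Prop) (m : ℕ) : Prop :=
  ∃ K : Finset V, K.card ≤ m ∧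
    ∀ u, F u → ∃ w, G.adj u w ∧ isLam (c w) = true ∧ ∃ κ ∈ K, Cmp G c κ w

variable {G : LG V} {c : V → Vx} {M : Finset V}

theorem Lk.symm {v v' : V} (h : Lk G c v v') : Lk G c v' v := by
  obtain ⟨k, y, h1, h2, u, x, s, h3, h4, h5⟩ := h
  exact ⟨k, y, h2, h1, u, x, s, h3, h5, h4⟩

theorem Cmp.symm {v v' : V} (h : Cmp G c v v') : Cmp G c v' v := by
  induction h with
  | refl => exact Relation.ReflTransGen.refl
  | tail _ h2 ih => exact Relation.ReflTransGen.head (Lk.symm h2) ih

theorem Cmp.trans {v v' v'' : V} (h : Cmp G c v v') (h' : Cmp G c v' v'') : Cmp G c v v'' :=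
  Relation.ReflTransGen.trans h h'

theorem Cmp.refl (v : V) : Cmp G c v v := Relation.ReflTransGen.refl

/-- Vertices in the same component have the same colour. -/
theorem Cmp.eq {v v' : V} (h : Cmp G c v v') : c v' = c v := by
  induction h with
  | refl => rfl
  | tail _ h2 ih =>
    obtain ⟨k, y, h3, h4, _⟩ := h2
    rw [h4, ← h3, ih]

theorem Pinned.cmp {v v' : V} (h : Pinned G c M v) (h' : Cmp G c v v') : Pinned G c M v' := by
  obtain ⟨w, h1, h2⟩ := h
  exact ⟨w, h'.symm.trans h1, h2⟩

theorem tau_lam (hom : IsHom G HG c) {u w : V} {x : Fin 3} {s : Bool}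
    (hu : c u = .inr (.tau x s)) (h1 : G.adj u w) {k : Bool} {y : Fin 3}
    (h3 : c w = .inl (.lam k y)) : y = crd x s k := by
  have := hom u w h1
  change hadj (c u) (c w) = true at this
  rw [hu, h3] at this
  simp only [hadj, R, decide_eq_true_eq] at this
  exact this.symm

/-- All `lam k`-neighbours of a vertex `u` of colour `tau x s` have the colour
`lam k (crd x s k)` (homomorphism), so any two are linked. -/
theorem cmp_of_tau (hom : IsHom G HG c) {u w w' : V} {x : Fin 3} {s : Bool}
    (hu : c u = .inr (.tau x s)) (h1 : G.adj u w) (h2 : G.adj u w') {k : Bool} {y y' : Fin 3}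
    (h3 : c w = .inl (.lam k y)) (h4 : c w' = .inl (.lam k y')) : Cmp G c w w' := by
  have e1 := tau_lam hom hu h1 h3
  have e2 := tau_lam hom hu h2 h4
  subst e1
  subst e2
  exact Relation.ReflTransGen.single ⟨k, _, h3, h4, u, x, s, hu, h1, h2⟩

/-- Job CR-2. Greedy choice. Choose the sites one after the other (induction over a `Finset ι`, or
over the number of chosen sites). If `u i` is chosen for `i ∈ s`, let `K` consist of one
`lam false`-neighbour and one `lam true`-neighbour of every chosen `u i` (they exist by
`Normal.tau_sees`); it has at most `2 * card ι` elements. As `¬ Cov (F i') (2 * card ι)`, there is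
a vertex `u'` with `F i' u'` none of whose `lam`-neighbours is in the component of a vertex of `K`.
By `cmp_of_tau` every `lam`-neighbour of a chosen `u i` is in the component of one of the two
chosen neighbours, so `u'` is independent of all `u i`. -/
theorem greedy (h : Normal G c M) {ι : Type} [Fintype ι] (F : ι → V → Prop)
    (h1 : ∀ i u, F i u → Cand G c M u) (h2 : ∀ i, ¬ Cov G c (F i) (2 * Fintype.card ι)) :
    ∃ u : ι → V, (∀ i, F i (u i)) ∧ ∀ i i', i ≠ i' → ∀ w w', G.adj (u i) w →
      isLam (c w) = true → G.adj (u i') w' → isLam (c w') = true → ¬ Cmp G c w w' := by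
  classical
  rcases isEmpty_or_nonempty ι with hι | ⟨⟨j0⟩⟩
  · exact ⟨fun i => isEmptyElim i, fun i => isEmptyElim i, fun i => isEmptyElim i⟩
  obtain ⟨v0⟩ : Nonempty V := by
    by_contra hne
    refine h2 j0 ⟨∅, by simp, fun u _ => ?_⟩
    exact absurd ⟨u⟩ hne
  have key : ∀ s : Finset ι, ∃ u : ι → V, (∀ i ∈ s, F i (u i)) ∧
      ∀ i ∈ s, ∀ i' ∈ s, i ≠ i' → ∀ w w', G.adj (u i) w →
        isLam (c w) = true → G.adj (u i') w' → isLam (c w') = true → ¬ Cmp G c w w' := by
    intro s
    induction s using Finset.induction_on with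
    | empty => exact ⟨fun _ => v0, by simp, by simp⟩
    | insert i0 s hi0 ih =>
      obtain ⟨u, hu1, hu2⟩ := ih
      have hn : ∀ (i : ι) (k : Bool), ∃ w, i ∈ s →
          G.adj (u i) w ∧ ∃ y, c w = .inl (.lam k y) := by
        intro i k
        by_cases hi : i ∈ s
        · have hc := h1 i (u i) (hu1 i hi)
          obtain ⟨x, t, hx⟩ := hc.tau
          obtain ⟨w, hw1, hw2⟩ := h.tau_sees (u i) hc.out x t hx k
          exact ⟨w, fun _ => ⟨hw1, _, hw2⟩⟩
        · exact ⟨v0, fun h' => absurd h' hi⟩
      choose n hn using hn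
      let K : Finset V := (s ×ˢ (Finset.univ : Finset Bool)).image (fun p => n p.1 p.2)
      have hK : K.card ≤ 2 * Fintype.card ι := by
        refine Finset.card_image_le.trans ?_
        rw [Finset.card_product, Finset.card_univ, Fintype.card_bool, mul_comm]
        exact Nat.mul_le_mul_left 2 (Finset.card_le_univ s)
      have hnc : ∃ u', F i0 u' ∧ ∀ w, G.adj u' w → isLam (c w) = true → ∀ κ ∈ K,
          ¬ Cmp G c κ w := by
        by_contra hcon
        push Not at hcon
        refine h2 i0 ⟨K, hK, fun u' hu' => ?_⟩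
        obtain ⟨w, hw1, hw2, κ, hκ, hw3⟩ := hcon u' hu'
        exact ⟨w, hw1, hw2, κ, hκ, hw3⟩
      obtain ⟨u', hu'1, hu'2⟩ := hnc
      have key2 : ∀ i ∈ s, ∀ w w', G.adj (u i) w → isLam (c w) = true → G.adj u' w' →
          isLam (c w') = true → ¬ Cmp G c w w' := by
        intro i hi w w' hw hlw hw' hlw' hcmp
        have hc := h1 i (u i) (hu1 i hi)
        obtain ⟨x, t, hx⟩ := hc.tau
        rcases hcw : c w with (z | z)
        · cases z with
          | lam k y =>
            obtain ⟨hn1, y', hn2⟩ := hn i k hi
            have h3 : Cmp G c (n i k) w := cmp_of_tau h.hom hx hn1 hw hn2 hcw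
            refine hu'2 w' hw' hlw' (n i k) ?_ (h3.trans hcmp)
            exact Finset.mem_image.mpr ⟨(i, k), by simp [hi], rfl⟩
          | o => rw [hcw] at hlw; simp [isLam] at hlw
          | e => rw [hcw] at hlw; simp [isLam] at hlw
          | a _ => rw [hcw] at hlw; simp [isLam] at hlw
        · rw [hcw] at hlw; simp [isLam] at hlw
      have hne : ∀ i ∈ s, i ≠ i0 := fun i hi h' => hi0 (h' ▸ hi)
      refine ⟨Function.update u i0 u', ?_, ?_⟩
      · intro i hi
        rcases Finset.mem_insert.mp hi with rfl | hi
        · rw [Function.update_self]; exact hu'1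
        · rw [Function.update_of_ne (hne i hi)]; exact hu1 i hi
      · intro i hi i' hi' hii w w'
        rcases Finset.mem_insert.mp hi with rfl | hi2
        · rcases Finset.mem_insert.mp hi' with rfl | hi'
          · exact absurd rfl hii
          · rw [Function.update_self, Function.update_of_ne (hne i' hi')]
            intro hw hlw hw' hlw' hcmp
            exact key2 i' hi' w' w hw' hlw' hw hlw hcmp.symm
        · rcases Finset.mem_insert.mp hi' with rfl | hi'
          · rw [Function.update_self, Function.update_of_ne (hne i hi2)]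
            exact key2 i hi2 w w'
          · rw [Function.update_of_ne (hne i hi2), Function.update_of_ne (hne i' hi')]
            exact hu2 i hi2 i' hi' hii w w'
  obtain ⟨u, hu1, hu2⟩ := key Finset.univ
  exact ⟨u, fun i => hu1 i (Finset.mem_univ i), fun i i' hii =>
    hu2 i (Finset.mem_univ i) i' (Finset.mem_univ i') hii⟩

end Pool.Agent.H62.CR
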