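import Mathlib
import Pool.Agent.H64.Cook.Defs

/-!
# Compaction and retraction of graphs: definitions
-/

namespace Pool.Agent.H62.CR

/-- A finite undirected graph (on a given vertex type), loops allowed, no multiple edges. -/
structure LG (V : Type) where
  /-- adjacency -/
  adj : V → V → Prop
  /-- adjacency is symmetric -/
  symm : ∀ u v, adj u v → adj v u

/-- `f` is a homomorphism from `G` to `H`. -/
def IsHom {V W : Type} (G : LG V) (H : LG W) (f : V → W) : Prop :=
  ∀ u v, G.adj u v → H.adj (f u) (f v)

/-- `G` compacts to `H`: there is a homomorphism from `G` to `H` which is surjective on the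
vertices and such that every edge `h h'` of `H` with `h ≠ h'` is the image of an edge of `G`. -/
def Compacts {V W : Type} (G : LG V) (H : LG W) : Prop :=
  ∃ f : V → W, IsHom G H f ∧ Function.Surjective f ∧
    ∀ h h', H.adj h h' → h ≠ h' → ∃ u v, G.adj u v ∧ f u = h ∧ f v = h'

/-- The vertices `0, …, k - 1` of `G` induce the graph `H` (the vertex `i` of `H` being the vertex
`i` of `G`). -/
def Contains {n k : ℕ} (G : LG (Fin n)) (H : LG (Fin k)) : Prop :=
  ∃ h : k ≤ n, ∀ i j : Fin k, G.adj (Fin.castLE h i) (Fin.castLE h j) ↔ H.adj i j

/-- `G` retracts to `H` (where `H` is the subgraph of `G` induced by the vertices `0, …, k - 1`):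
there is a homomorphism from `G` to `H` that fixes every vertex of `H`. -/
def Retracts {n k : ℕ} (G : LG (Fin n)) (H : LG (Fin k)) : Prop :=
  ∃ h : k ≤ n, ∃ f : Fin n → Fin k, IsHom G H f ∧ ∀ i : Fin k, f (Fin.castLE h i) = i

open Classical in
/-- The word that encodes a graph on the vertices `0, …, n - 1`: `n` ones, a zero, and the `n * n`
entries of the adjacency matrix, row after row. -/
noncomputable def enc {n : ℕ} (G : LG (Fin n)) : List Bool :=
  List.replicate n true ++ false ::
    List.ofFn fun k : Fin (n * n) => decide (G.adj k.divNat k.modNat)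

/-- The problem COMP-`H`: the words that encode a graph which compacts to `H`. -/
def COMP {k : ℕ} (H : LG (Fin k)) : Set (List Bool) :=
  {x | ∃ (n : ℕ) (G : LG (Fin n)), x = enc G ∧ Compacts G H}

/-- The problem RET-`H`: the words that encode a graph whose first `k` vertices induce `H` and
which retracts to `H`. -/
def RET {k : ℕ} (H : LG (Fin k)) : Set (List Bool) :=
  {x | ∃ (n : ℕ) (G : LG (Fin n)), x = enc G ∧ Contains G H ∧ Retracts G H}

end Pool.Agent.H62.CR
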