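import Pool.Agent.H62.CR.Cands

/-!
# Job CR-5: total release
-/

namespace Pool.Agent.H62.CR

variable {V : Type} [Fintype V] {G : LG V} {c : V → Vx} {M : Finset V}

/-- Job CR-5. Suppose not. Apply `greedy` to `ι = Bool × Bool × Fin 3` (12 elements),
`F (p, j, y) u ↔ Ecand j y u ∧ ¬ Acand u`: sites `u i`, pairwise different as in job CR-4. Apply
`release` with `tot = true`, `ty (u (p, j, y)) = j`, `host (u (p, j, y)) = ap j` if `p` and `b j`
otherwise, `des (u (p, j, y))` equal to: if `y = 0`, then `o` if `p` and `e` otherwise; if `y ≠ 0`,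
then `a (!j)` if `p` and `a j` otherwise. (As `¬ Acand (u i)` and `u i` is a candidate, it has no
neighbour of colour `e`.) The new colouring `c1` covers every edge `x y` of `H`: if `y` is not a `b j`
or `ap j`, by two vertices of `M`. If `y = b j`: `x = e` by the site `(false, j, 0)` and a neighbour
of a colour `lam (!j) _` under `c`; `x = a j` by `(false, j, 1)` and such a neighbour; `x = lam j z` by
`(false, j, z)` and a neighbour of colour `lam j z`. If `y = ap j`: `x = o` by `(true, j, 0)`,
`x = a (!j)` by `(true, j, 1)`, `x = lam j z` by `(true, j, z)`. And `wt c1 < wt c` as in job CR-4.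
Contradiction to `hmin`. -/
theorem totrel (h : Normal G c M) (hmin : ∀ c', Comp G c' → wt c ≤ wt c') :
    ∃ j y, Cov G c (fun u => Ecand G c M j y u ∧ ¬ Acand G c M u) 24 := by
  classical
  by_contra hcon
  push Not at hcon
  obtain ⟨u, hF, hind⟩ := greedy (ι := Bool × Bool × Fin 3) h
    (fun i u => Ecand G c M i.2.1 i.2.2 u ∧ ¬ Acand G c M u)
    (fun i v hv => hv.1.1) (fun i => by simpa using hcon i.2.1 i.2.2)
  have hcand : ∀ i, Cand G c M (u i) := fun i => (hF i).1.1
  have hsees : ∀ i k, ∃ (w : V) (y : Fin 3), G.adj (u i) w ∧ c w = .inl (.lam k y) := by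
    intro i k
    obtain ⟨x, s, hx⟩ := (hcand i).tau
    obtain ⟨w, h1, h2⟩ := h.tau_sees (u i) (hcand i).out x s hx k
    exact ⟨w, _, h1, h2⟩
  have hinj : Function.Injective u := by
    intro i i' hii
    by_contra hne
    obtain ⟨w, y, h1, h2⟩ := hsees i false
    have h3 : isLam (c w) = true := by rw [h2]; rfl
    exact hind i i' hne w w h1 h3 (by rw [← hii]; exact h1) h3 (Cmp.refl w)
  obtain ⟨inv, hinv⟩ : ∃ inv : V → Bool × Bool × Fin 3, ∀ i, inv (u i) = i :=
    ⟨Function.invFun u, Function.leftInverse_invFun hinj⟩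
  let ty : V → Bool := fun v => (inv v).2.1
  let host : V → S1 := fun v => if (inv v).1 then .ap (inv v).2.1 else .b (inv v).2.1
  let des : V → S0 := fun v =>
    if (inv v).2.2 = 0 then (if (inv v).1 then .o else .e)
    else (if (inv v).1 then .a (!(inv v).2.1) else .a (inv v).2.1)
  have hty : ∀ i, ty (u i) = i.2.1 := fun i => by simp only [ty, hinv]
  have hhost : ∀ i, host (u i) = if i.1 then .ap i.2.1 else .b i.2.1 :=
    fun i => by simp only [host, hinv]
  have hdes : ∀ i, des (u i) = if i.2.2 = 0 then (if i.1 then .o else .e)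
    else (if i.1 then .a (!i.2.1) else .a i.2.1) := fun i => by simp only [des, hinv]
  have hs : Sites G c M (fun v => ∃ i, u i = v) ty host des true := by
    refine ⟨?_, ?_, ?_, ?_⟩
    · rintro v ⟨i, rfl⟩; exact hcand i
    · rintro v v' ⟨i, rfl⟩ ⟨i', rfl⟩ hne
      exact hind i i' (fun h => hne (by rw [h]))
    · rintro v ⟨i, rfl⟩
      rw [hhost, hty]
      rcases hi : i.1 with _ | _
      · left; simp
      · right
        refine ⟨rfl, by simp, fun w hw he => ?_⟩
        exact (hF i).2 ⟨hcand i, w, hw, he⟩
    · rintro v ⟨i, rfl⟩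
      rw [hhost, hdes]
      obtain ⟨p, j, y⟩ := i
      simp only
      refine ⟨?_, ?_, fun h => by simp at h⟩
      · cases p <;> cases j <;> by_cases hy : y = 0 <;> simp [hy, R]
      · intro k z
        cases p <;> cases j <;> by_cases hy : y = 0 <;> simp [hy]
  obtain ⟨c1, p1, p2, p3, p4, p5, p6, p7⟩ := release h hs
  have p4' : ∀ i, c1 (u i) = .inr (host (u i)) := fun i => p4 _ ⟨i, rfl⟩
  have hD : ∀ i, ∃ w, G.adj (u i) w ∧ c w = .inl (.lam (!i.2.1) (Classical.choose
      (hsees i (!i.2.1)).choose_spec)) ∧ c1 w = .inl (des (u i)) := by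
    intro i
    obtain ⟨h1, h2⟩ := Classical.choose_spec (hsees i (!i.2.1)).choose_spec
    refine ⟨_, h1, h2, ?_⟩
    apply p7 _ ⟨i, rfl⟩ _ _ h1
    rw [hty]; exact h2
  have hK : ∀ i, ∃ w, G.adj (u i) w ∧ c1 w = .inl (.lam i.2.1 i.2.2) := by
    intro i
    obtain ⟨x, s, hx, hy⟩ := (hF i).1.2
    obtain ⟨w, h1, h2⟩ := h.tau_sees (u i) (hcand i).out x s hx i.2.1
    rw [hy] at h2
    refine ⟨w, h1, ?_⟩
    rw [p6 _ ⟨i, rfl⟩ w i.2.2 h1 (by rw [hty]; exact h2), h2]
  have hcomp : Comp G c1 := by
    refine ⟨p1, ?_⟩
    -- covering by the `T`-vertices and by kept neighbours of sites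
    have cD : ∀ i, ∃ a b, G.adj a b ∧ c1 a = .inl (des (u i)) ∧ c1 b = .inr (host (u i)) := by
      intro i
      obtain ⟨w, h1, _, h3⟩ := hD i
      exact ⟨w, u i, G.symm _ _ h1, h3, p4' i⟩
    have cK : ∀ i : Bool × Bool × Fin 3, ∃ a b, G.adj a b ∧ c1 a = .inl (.lam i.2.1 i.2.2) ∧
        c1 b = .inr (host (u i)) := by
      intro i
      obtain ⟨w, h1, h3⟩ := hK i
      exact ⟨w, u i, G.symm _ _ h1, h3, p4' i⟩
    have hM : ∀ x y, R x y = true → (∀ j, y ≠ .b j) → (∀ j, y ≠ .ap j) →
        ∃ a b, G.adj a b ∧ c1 a = .inl x ∧ c1 b = .inr y := by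
      intro x y hxy hb hap
      obtain ⟨a, ha, b, hbM, h1, h2, h3⟩ := h.cov x y hxy
      refine ⟨a, b, h1, ?_, ?_⟩
      · rw [p3 a ha (fun j h => by rw [h2] at h; cases h)
          (fun _ j h => by rw [h2] at h; cases h), h2]
      · rw [p3 b hbM (fun j h => by rw [h3] at h; exact hb j (Sum.inr.inj h))
          (fun _ j h => by rw [h3] at h; exact hap j (Sum.inr.inj h)), h3]
    intro x y hxy
    cases y with
    | o => exact hM x _ hxy (fun j h => by cases h) (fun j h => by cases h)
    | al j => exact hM x _ hxy (fun j h => by cases h) (fun j h => by cases h)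
    | tau z s => exact hM x _ hxy (fun j h => by cases h) (fun j h => by cases h)
    | b j =>
      cases x with
      | o => simp [R] at hxy
      | e =>
        have := cD (false, j, 0)
        rw [hdes, hhost] at this
        simpa using this
      | a i =>
        have hij : i = j := by simpa [R] using hxy
        subst hij
        have := cD (false, i, 1)
        rw [hdes, hhost] at this
        simpa using this
      | lam i z =>
        have hij : i = j := by simpa [R] using hxy
        subst hij
        have := cK (false, i, z)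
        rw [hhost] at this
        simpa using this
    | ap j =>
      cases x with
      | e => simp [R] at hxy
      | o =>
        have := cD (true, j, 0)
        rw [hdes, hhost] at this
        simpa using this
      | a i =>
        have hij : i = !j := by
          have : (i != j) = true := hxy
          revert this
          cases i <;> cases j <;> decide
        subst hij
        have := cD (true, j, 1)
        rw [hdes, hhost] at this
        simpa using this
      | lam i z =>
        have hij : i = j := by simpa [R] using hxy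
        subst hij
        have := cK (true, i, z)
        rw [hhost] at this
        simpa using this
  have hwt : wt c1 < wt c := by
    unfold wt
    apply Finset.card_lt_card
    rw [Finset.ssubset_iff_of_subset]
    · obtain ⟨w, _, h2, h3⟩ := hD (false, false, 0)
      refine ⟨w, ?_, ?_⟩
      · rw [Finset.mem_filter]
        refine ⟨Finset.mem_univ _, ?_⟩
        rw [h2]; rfl
      · rw [Finset.mem_filter, h3, hdes]
        simp [isInt]
    · intro v hv
      rw [Finset.mem_filter] at hv ⊢
      exact ⟨hv.1, p2 v hv.2⟩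
  exact absurd (hmin c1 hcomp) (not_le.2 hwt)

end Pool.Agent.H62.CR
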