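import Pool.Agent.H62.CR.BRel
import Pool.Agent.H62.CR.TotRel

/-!
# The dichotomy
-/

namespace Pool.Agent.H62.CR

variable {V : Type} [Fintype V] {G : LG V} {c : V → Vx} {M : Finset V}

omit [Fintype V] in
theorem Cov.mono {F F' : V → Prop} {m m' : ℕ} (h : Cov G c F m) (hF : ∀ u, F' u → F u)
    (hm : m ≤ m') : Cov G c F' m' := by
  obtain ⟨K, h1, h2⟩ := h
  exact ⟨K, h1.trans hm, fun u hu => h2 u (hF u hu)⟩

/-- The dichotomy: for some `j` and `y` the candidates whose colour has the type `j` coordinate `y`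
are covered by at most 40 components. -/
theorem dich (h : Normal G c M) (hmin : ∀ c', Comp G c' → wt c ≤ wt c') :
    ∃ j y, Cov G c (Ecand G c M j y) 40 := by
  classical
  rcases brel h hmin with ⟨j, y, h1⟩ | h1
  · exact ⟨j, y, h1.mono (fun _ h => h) (by norm_num)⟩
  · obtain ⟨j, y, h2⟩ := totrel h hmin
    obtain ⟨K1, h3, h4⟩ := h1
    obtain ⟨K2, h5, h6⟩ := h2
    refine ⟨j, y, K1 ∪ K2, (Finset.card_union_le _ _).trans (by omega), fun u hu => ?_⟩
    by_cases ha : Acand G c M u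
    · obtain ⟨w, h7, h8, κ, h9, h10⟩ := h4 u ha
      exact ⟨w, h7, h8, κ, Finset.mem_union_left _ h9, h10⟩
    · obtain ⟨w, h7, h8, κ, h9, h10⟩ := h6 u ⟨hu, ha⟩
      exact ⟨w, h7, h8, κ, Finset.mem_union_right _ h9, h10⟩

end Pool.Agent.H62.CR
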