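import Pool.Agent.H62.CR.Defs

/-!
# The graph `H`

A bipartite graph on 23 vertices. The vertices of side 0: `o`, `e`, `a j`, `lam j c`; the vertices
of side 1: `o`, `al j`, `ap j`, `b j`, `tau x s`, where `j : Bool` is a type and `c x : Fin 3` are
colours. The vertex `tau x s` stands for the pair of the colours `x` (of type `false`) and
`x + 1 + s` (of type `true`), that is, for a pair of different colours.
-/

namespace Pool.Agent.H62.CR

/-- Side 0 of `H`. -/
inductive S0
  | o
  | e
  | a (j : Bool)
  | lam (j : Bool) (c : Fin 3)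
  deriving DecidableEq, Fintype

/-- Side 1 of `H`. -/
inductive S1
  | o
  | al (j : Bool)
  | ap (j : Bool)
  | b (j : Bool)
  | tau (x : Fin 3) (s : Bool)
  deriving DecidableEq, Fintype

/-- The colour of type `j` of the pair `tau x s`. -/
def crd (x : Fin 3) (s j : Bool) : Fin 3 :=
  if j then (if s then x + 2 else x + 1) else x

/-- Adjacency between the two sides of `H`. -/
def R : S0 → S1 → Bool
  | .o, .o => true
  | .o, .al _ => true
  | .o, .ap _ => true
  | .o, .b _ => false
  | .o, .tau _ _ => false
  | .e, .o => true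
  | .e, .al _ => true
  | .e, .ap _ => false
  | .e, .b _ => true
  | .e, .tau _ _ => true
  | .a _, .o => true
  | .a _, .al _ => true
  | .a i, .ap j => i != j
  | .a i, .b j => i == j
  | .a _, .tau _ _ => false
  | .lam _ _, .o => false
  | .lam i _, .al j => i == j
  | .lam i _, .ap j => i == j
  | .lam i _, .b j => i == j
  | .lam i c, .tau x s => decide (crd x s i = c)

/-- The vertices of `H`. -/
abbrev Vx := S0 ⊕ S1

/-- Adjacency in `H`. -/
def hadj : Vx → Vx → Bool
  | .inl x, .inr y => R x y
  | .inr y, .inl x => R x y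
  | _, _ => false

/-- The graph `H`. -/
def HG : LG Vx where
  adj u v := hadj u v = true
  symm := by
    rintro (x | x) (y | y) h <;> exact h

/-- The vertices of `H` as numbers. -/
def vtx : Fin 23 → Vx :=
  ![.inl .o, .inl .e, .inl (.a false), .inl (.a true),
    .inl (.lam false 0), .inl (.lam false 1), .inl (.lam false 2),
    .inl (.lam true 0), .inl (.lam true 1), .inl (.lam true 2),
    .inr .o, .inr (.al false), .inr (.al true), .inr (.ap false), .inr (.ap true),
    .inr (.b false), .inr (.b true),
    .inr (.tau 0 false), .inr (.tau 0 true), .inr (.tau 1 false), .inr (.tau 1 true),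
    .inr (.tau 2 false), .inr (.tau 2 true)]

theorem vtx_bij : Function.Bijective vtx := by
  rw [Fintype.bijective_iff_injective_and_card]
  constructor
  · intro i j h
    revert i j
    decide
  · decide

/-- The graph `H` on the vertices `0, …, 22`. -/
def H23 : LG (Fin 23) where
  adj i j := hadj (vtx i) (vtx j) = true
  symm := fun _ _ h => HG.symm _ _ h

/-- `H` is bipartite. -/
theorem H23_bipartite : ∃ col : Fin 23 → Bool, ∀ i j, H23.adj i j → col i ≠ col j := by
  refine ⟨fun i => (vtx i).isLeft, ?_⟩
  have key : ∀ u v : Vx, hadj u v = true → u.isLeft ≠ v.isLeft := by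
    rintro (x | x) (y | y) h <;> simp_all [hadj]
  intro i j h
  exact key _ _ h

/-- `c` is a homomorphism from `G` to `H` such that every edge of `H` is the image of an edge. -/
def Comp {V : Type} (G : LG V) (c : V → Vx) : Prop :=
  IsHom G HG c ∧ ∀ x y, R x y = true → ∃ u v, G.adj u v ∧ c u = .inl x ∧ c v = .inr y

theorem exists_R0 (x : S0) : ∃ y, R x y = true := by
  revert x; decide

theorem exists_R1 (y : S1) : ∃ x, R x y = true := by
  revert y; decide

/-- Compactions to `H23` are the maps `c` with `Comp G c`. -/
theorem compacts_iff {V : Type} (G : LG V) : Compacts G H23 ↔ ∃ c, Comp G c := by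
  constructor
  · rintro ⟨f, h1, -, h3⟩
    refine ⟨fun v => vtx (f v), fun u v h => h1 u v h, fun x y hxy => ?_⟩
    obtain ⟨i, hi⟩ := vtx_bij.2 (.inl x)
    obtain ⟨j, hj⟩ := vtx_bij.2 (.inr y)
    obtain ⟨u, v, huv, rfl, rfl⟩ := h3 i j (by
      change hadj (vtx i) (vtx j) = true
      rw [hi, hj]; exact hxy) (by
      rintro rfl
      rw [hi] at hj
      cases hj)
    exact ⟨u, v, huv, hi, hj⟩
  · rintro ⟨c, h1, h2⟩
    let e := Equiv.ofBijective vtx vtx_bij
    have he : ∀ z, vtx (e.symm z) = z := fun z => e.apply_symm_apply z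
    refine ⟨fun v => e.symm (c v), ?_, ?_, ?_⟩
    · intro u v h
      change hadj (vtx _) (vtx _) = true
      rw [he, he]
      exact h1 u v h
    · intro i
      have key : ∀ z : Vx, ∃ v, c v = z := by
        rintro (x | y)
        · obtain ⟨y, hy⟩ := exists_R0 x
          obtain ⟨u, v, -, hu, -⟩ := h2 x y hy
          exact ⟨u, hu⟩
        · obtain ⟨x, hx⟩ := exists_R1 y
          obtain ⟨u, v, -, -, hv⟩ := h2 x y hx
          exact ⟨v, hv⟩
      obtain ⟨v, hv⟩ := key (vtx i)
      refine ⟨v, ?_⟩
      change e.symm (c v) = i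
      rw [hv]
      exact e.symm_apply_apply i
    · intro i j hij hne
      change hadj (vtx i) (vtx j) = true at hij
      have hs : ∀ k, e.symm (vtx k) = k := fun k => e.symm_apply_apply k
      rcases hi : vtx i with x | y <;> rcases hj : vtx j with x' | y'
      · rw [hi, hj] at hij; simp [hadj] at hij
      · rw [hi, hj] at hij
        obtain ⟨u, v, huv, hu, hv⟩ := h2 x y' hij
        refine ⟨u, v, huv, ?_, ?_⟩
        · show e.symm (c u) = i
          rw [hu, ← hi, hs]
        · show e.symm (c v) = j
          rw [hv, ← hj, hs]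
      · rw [hi, hj] at hij
        obtain ⟨u, v, huv, hu, hv⟩ := h2 x' y hij
        refine ⟨v, u, G.symm _ _ huv, ?_, ?_⟩
        · show e.symm (c v) = i
          rw [hv, ← hi, hs]
        · show e.symm (c u) = j
          rw [hu, ← hj, hs]
      · rw [hi, hj] at hij; simp [hadj] at hij

/-! ### Facts about `H` -/

/-- The interior vertices of `H`: those which are not adjacent to `o`. -/
def isInt : Vx → Bool
  | .inl (.lam _ _) => true
  | .inr (.b _) => true
  | .inr (.tau _ _) => true
  | _ => false

/-- The vertices `lam j c` of `H`. -/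
def isLam : Vx → Bool
  | .inl (.lam _ _) => true
  | _ => false

/-- The vertices `tau x s` of `H`. -/
def isTau : Vx → Bool
  | .inr (.tau _ _) => true
  | _ => false

theorem crd_ne (x : Fin 3) (s : Bool) : crd x s false ≠ crd x s true := by
  revert x s; decide

/-- A pair of different colours. -/
def mk (x y : Fin 3) : S1 := .tau x (decide (y = x + 2))

theorem mk_crd {x y : Fin 3} (h : x ≠ y) : mk x y = .tau x (decide (y = x + 2)) ∧
    crd x (decide (y = x + 2)) false = x ∧ crd x (decide (y = x + 2)) true = y := by
  revert x y; decide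

theorem crd_inj {x x' : Fin 3} {s s' : Bool} (h0 : crd x s false = crd x' s' false)
    (h1 : crd x s true = crd x' s' true) : x = x' ∧ s = s' := by
  revert x x' s s'; decide

end Pool.Agent.H62.CR
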