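import Pool.Agent.H62.CR.Dich

/-!
# Lists and arc-consistency: definitions and basic facts
-/

namespace Pool.Agent.H62.CR

variable {V : Type}

/-- The lists `L` are arc-consistent. -/
def Closed (G : LG V) (L : V → Vx → Prop) : Prop :=
  ∀ u v, G.adj u v → ∀ x, L u x → ∃ y, L v y ∧ hadj x y = true

/-- The largest arc-consistent lists below `L0`. -/
def ac (G : LG V) (L0 : V → Vx → Prop) (v : V) (x : Vx) : Prop :=
  ∃ L : V → Vx → Prop, Closed G L ∧ (∀ u y, L u y → L0 u y) ∧ L v x

/-- The initial lists given by the guessed colours `gs`: guessed vertices have their guessed colour,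
the other vertices do not have the colours `b` and `ap`. -/
def ini (gs : List (V × Vx)) (v : V) (x : Vx) : Prop :=
  (∀ p ∈ gs, p.1 = v → p.2 = x) ∧
    ((∀ p ∈ gs, p.1 ≠ v) → ∀ j, x ≠ .inr (.b j) ∧ x ≠ .inr (.ap j))

/-- The list of `v` has exactly one element, and this is a colour `lam`. -/
def Sing (L : V → Vx → Prop) (v : V) : Prop := ∃ k y, ∀ x, L v x ↔ x = .inl (.lam k y)

/-- Remove from the lists `L` of the vertices `v` which are not guessed the elements `tau` with the
type `j` coordinate `y`, unless some neighbour of `v` has a list with exactly one element `lam`. -/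
def rem (G : LG V) (gs : List (V × Vx)) (j : Bool) (y : Fin 3) (L : V → Vx → Prop) (v : V)
    (x : Vx) : Prop :=
  L v x ∧ ((∀ p ∈ gs, p.1 ≠ v) → ∀ x' s, x = .inr (.tau x' s) → crd x' s j = y →
    ∃ w, G.adj v w ∧ Sing L w)

/-- The final lists. -/
def fin (G : LG V) (gs : List (V × Vx)) (j : Bool) (y : Fin 3) : V → Vx → Prop :=
  ac G (rem G gs j y (ac G (ini gs)))

/-- The guessed colours `gs` are accepted with `j` and `y`. -/
def Acc (G : LG V) (gs : List (V × Vx)) (j : Bool) (y : Fin 3) : Prop :=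
  (∀ x x', R x x' = true → ∃ p ∈ gs, ∃ q ∈ gs, G.adj p.1 q.1 ∧ p.2 = .inl x ∧ q.2 = .inr x') ∧
    ∀ v, ∃ x, fin G gs j y v x

/-- The lists with `inl o` and `inr o`, at the root `r` only `inl o`. -/
def bip (r : V) (v : V) (x : Vx) : Prop :=
  (x = .inl .o ∨ x = .inr .o) ∧ (v = r → x = .inl .o)

theorem ac_closed (G : LG V) (L0 : V → Vx → Prop) : Closed G (ac G L0) := by
  intro u v huv x hx
  obtain ⟨L, h1, h2, h3⟩ := hx
  obtain ⟨y, h4, h5⟩ := h1 u v huv x h3
  exact ⟨y, ⟨L, h1, h2, h4⟩, h5⟩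

theorem ac_le (G : LG V) (L0 : V → Vx → Prop) {v : V} {x : Vx} (h : ac G L0 v x) : L0 v x := by
  obtain ⟨L, _, h2, h3⟩ := h
  exact h2 v x h3

theorem le_ac {G : LG V} {L L0 : V → Vx → Prop} (h1 : Closed G L)
    (h2 : ∀ u y, L u y → L0 u y) {v : V} {x : Vx} (h : L v x) : ac G L0 v x :=
  ⟨L, h1, h2, h⟩

/-- A homomorphism which respects the lists survives. -/
theorem hom_ac {G : LG V} {c : V → Vx} (hom : IsHom G HG c) {L0 : V → Vx → Prop}
    (h : ∀ v, L0 v (c v)) (v : V) : ac G L0 v (c v) := by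
  refine le_ac (L := fun v x => x = c v) ?_ ?_ rfl
  · rintro u v huv x rfl
    exact ⟨c v, rfl, hom u v huv⟩
  · rintro u y rfl
    exact h u

end Pool.Agent.H62.CR
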