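import Pool.Agent.H62.CR.AlgoEnc
import Pool.Agent.H79.Thr.Member
import Pool.Agent.H87.HC.Kit

/-!
# Job CR-14 (general form): retraction and compaction to any fixed graph are in `NP`
-/

namespace Pool.Agent.H62.CR

open Pool.Agent.PPS Pool.Agent.H64.Cook Pool.Agent.H79.Thr

open Classical in
/-- The edges of `H` by numbers (both directions, loops once). -/
noncomputable def hList {k : ℕ} (H : LG (Fin k)) : List (ℕ × ℕ) :=
  (List.finRange k).flatMap fun i => ((List.finRange k).filter fun j => decide (H.adj i j)).map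
    fun j => (i.val, j.val)

/-- `y` is the word `mword f` of a homomorphism `f` from the graph encoded by `x` to `H`
(`mcol y k u` is the image of `u`, see `Pool/Agent/H79/Thr/Member.lean`). -/
noncomputable def homB {k : ℕ} (H : LG (Fin k)) (z : List Bool × List Bool) : Bool :=
  (List.range (lead z.1)).all fun u => decide (mcol z.2 k u < k) &&
    (List.range (lead z.1)).all fun v =>
      !ab z.1 u v || decide ((mcol z.2 k u, mcol z.2 k v) ∈ hList H)

/-- The verifier for retraction: `x` encodes a graph (`wfB`) with at least `k` vertices, the first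
`k` vertices induce `H`, and `y` is the word of a homomorphism which fixes them. -/
noncomputable def retB {k : ℕ} (H : LG (Fin k)) (z : List Bool × List Bool) : Bool :=
  wfB z.1 && decide (k ≤ lead z.1) &&
    ((List.range k).all fun i => (List.range k).all fun j =>
      decide (ab z.1 i j = decide ((i, j) ∈ hList H))) &&
    ((List.range k).all fun i => decide (mcol z.2 k i = i)) && homB H z

/-- The verifier for compaction. -/
noncomputable def compB {k : ℕ} (H : LG (Fin k)) (z : List Bool × List Bool) : Bool :=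
  wfB z.1 && ((List.range k).all fun i => (List.range (lead z.1)).any fun u =>
      decide (mcol z.2 k u = i)) &&
    ((hList H).all fun e => decide (e.1 = e.2) || (List.range (lead z.1)).any fun u =>
      (List.range (lead z.1)).any fun v => ab z.1 u v && decide (mcol z.2 k u = e.1) &&
        decide (mcol z.2 k v = e.2)) && homB H z

section

variable {m : Bool} {α : Type} [Rep α]

@[fun_prop]
private theorem npGen_ab {w : α → List Bool} {i j : α → ℕ} (hw : PT m w) (hi : PT m i)
    (hj : PT m j) : PT m (fun a => ab (w a) (i a) (j a)) := by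
  unfold ab
  fun_prop

private theorem npGen_wfB {w : α → List Bool} (hw : PT m w) : PT m (fun a => wfB (w a)) := by
  unfold wfB
  have h1 : PT m (fun a => List.replicate (lead (w a)) true ++
      (false :: (List.range (lead (w a))).flatMap (fun i =>
        (List.range (lead (w a))).map (fun j => ab (w a) i j)))) := by
    have h2 : PT m (fun a => (List.range (lead (w a))).flatMap (fun i =>
        (List.range (lead (w a))).map (fun j => ab (w a) i j))) := by
      refine H87.HC.PT.flatMap2 (by fun_prop) ?_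
      refine H87.HC.PT.map2 (f := fun (z : α × ℕ) j => ab (w z.1) z.2 j) ?_ ?_
      · have hw1 : PT m (fun z : α × ℕ => w z.1) := hw.comp (by fun_prop)
        fun_prop
      · have hw2 : PT m (fun z : (α × ℕ) × ℕ => w z.1.1) := hw.comp (by fun_prop)
        fun_prop
    fun_prop
  refine PT.and' (PT.decideEq hw h1) ?_
  refine H87.HC.PT.all2 (by fun_prop) ?_
  refine H87.HC.PT.all2 (f := fun (z : α × ℕ) j => decide (ab (w z.1) z.2 j = ab (w z.1) j z.2))
    ?_ ?_
  · have hw1 : PT m (fun z : α × ℕ => w z.1) := hw.comp (by fun_prop)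
    fun_prop
  · have hw2 : PT m (fun z : (α × ℕ) × ℕ => w z.1.1) := hw.comp (by fun_prop)
    exact PT.decideEq (by fun_prop) (by fun_prop)

end

private theorem npGen_homB {k : ℕ} (H : LG (Fin k)) : PT true (homB H) := by
  unfold homB
  refine H87.HC.PT.all2 (by fun_prop) ?_
  refine PT.and' (PT.decideLt (by fun_prop) (by fun_prop)) ?_
  refine H87.HC.PT.all2 (f := fun (z : (List Bool × List Bool) × ℕ) v =>
    !ab z.1.1 z.2 v || decide ((mcol z.1.2 k z.2, mcol z.1.2 k v) ∈ hList H)) (by fun_prop) ?_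
  refine PT.or' (by fun_prop) ?_
  exact H87.HC.PT.mem2 (by fun_prop) (by fun_prop)

private theorem npGen_retB {k : ℕ} (H : LG (Fin k)) : PT true (retB H) := by
  unfold retB
  refine PT.and' (PT.and' (PT.and' (PT.and' ?_ ?_) ?_) ?_) (npGen_homB H)
  · exact npGen_wfB (by fun_prop)
  · exact PT.decideLe (by fun_prop) (by fun_prop)
  · refine H87.HC.PT.all2 (by fun_prop) ?_
    refine H87.HC.PT.all2 (f := fun (z : (List Bool × List Bool) × ℕ) j =>
      decide (ab z.1.1 z.2 j = decide ((z.2, j) ∈ hList H))) (by fun_prop) ?_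
    refine PT.decideEq (by fun_prop) ?_
    exact H87.HC.PT.mem2 (by fun_prop) (by fun_prop)
  · refine H87.HC.PT.all2 (by fun_prop) ?_
    exact PT.decideEq (by fun_prop) (by fun_prop)

private theorem npGen_compB {k : ℕ} (H : LG (Fin k)) : PT true (compB H) := by
  unfold compB
  refine PT.and' (PT.and' (PT.and' ?_ ?_) ?_) (npGen_homB H)
  · exact npGen_wfB (by fun_prop)
  · refine H87.HC.PT.all2 (by fun_prop) ?_
    refine H87.HC.PT.any2 (f := fun (z : (List Bool × List Bool) × ℕ) u =>
      decide (mcol z.1.2 k u = z.2)) (by fun_prop) ?_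
    exact PT.decideEq (by fun_prop) (by fun_prop)
  · refine H87.HC.PT.all2 (by fun_prop) ?_
    refine PT.or' (PT.decideEq (by fun_prop) (by fun_prop)) ?_
    refine H87.HC.PT.any2 (f := fun (z : (List Bool × List Bool) × (ℕ × ℕ)) u =>
      (List.range (lead z.1.1)).any fun v => ab z.1.1 u v && decide (mcol z.1.2 k u = z.2.1) &&
        decide (mcol z.1.2 k v = z.2.2)) (by fun_prop) ?_
    refine H87.HC.PT.any2 (f := fun (z : ((List Bool × List Bool) × (ℕ × ℕ)) × ℕ) v =>
      ab z.1.1.1 z.2 v && decide (mcol z.1.1.2 k z.2 = z.1.2.1) &&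
        decide (mcol z.1.1.2 k v = z.1.2.2)) (by fun_prop) ?_
    exact PT.and' (PT.and' (by fun_prop) (PT.decideEq (by fun_prop) (by fun_prop)))
      (PT.decideEq (by fun_prop) (by fun_prop))

private theorem npGen_len {n : ℕ} (G : LG (Fin n)) : (enc G).length = n + 1 + n * n := by
  classical
  unfold enc
  rw [List.length_append, List.length_replicate, List.length_cons, List.length_ofFn]
  omega

theorem mem_hList {k : ℕ} {H : LG (Fin k)} {i j : Fin k} :
    ((i : ℕ), (j : ℕ)) ∈ hList H ↔ H.adj i j := by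
  classical
  simp only [hList, List.mem_flatMap, List.mem_map, List.mem_filter, List.mem_finRange, true_and,
    decide_eq_true_eq, Prod.mk.injEq]
  constructor
  · rintro ⟨i', j', h1, h2, h3⟩
    rw [← Fin.ext h2, ← Fin.ext h3]
    exact h1
  · intro h
    exact ⟨i, j, h, rfl, rfl⟩

private theorem npGen_mem {k : ℕ} {H : LG (Fin k)} {e : ℕ × ℕ} (he : e ∈ hList H) :
    ∃ i j : Fin k, H.adj i j ∧ e = ((i : ℕ), (j : ℕ)) := by
  classical
  simp only [hList, List.mem_flatMap, List.mem_map, List.mem_filter, List.mem_finRange, true_and,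
    decide_eq_true_eq] at he
  obtain ⟨i, j, h1, h2⟩ := he
  exact ⟨i, j, h1, h2.symm⟩

private theorem npGen_word {n k : ℕ} (G : LG (Fin n)) (f : Fin n → Fin k) :
    (mword f).length <
      (Polynomial.C k * Polynomial.X + 1 : Polynomial ℕ).eval (enc G).length := by
  rw [npGen_len]
  unfold mword
  rw [mflat_length]
  simp only [Polynomial.eval_add, Polynomial.eval_mul, Polynomial.eval_C, Polynomial.eval_X,
    Polynomial.eval_one]
  have h : k * n ≤ k * (n + 1 + n * n) := Nat.mul_le_mul_left k (by omega)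
  rw [Nat.mul_comm n k]
  omega

private theorem npGen_homB_of {n k : ℕ} {G : LG (Fin n)} {H : LG (Fin k)} {f : Fin n → Fin k}
    (hf : IsHom G H f) : homB H (enc G, mword f) = true := by
  simp only [homB, Bool.and_eq_true, List.all_eq_true, List.mem_range, decide_eq_true_eq,
    lead_enc, Bool.or_eq_true, Bool.not_eq_true']
  intro u hu
  have h1 : mcol (mword f) k u = f ⟨u, hu⟩ := mcol_mword f ⟨u, hu⟩
  refine ⟨?_, fun v hv => ?_⟩
  · rw [h1]
    exact (f _).2
  · have h2 : mcol (mword f) k v = f ⟨v, hv⟩ := mcol_mword f ⟨v, hv⟩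
    by_cases h : G.adj ⟨u, hu⟩ ⟨v, hv⟩
    · right
      rw [h1, h2]
      exact mem_hList.2 (hf _ _ h)
    · left
      have h3 := (ab_enc G ⟨u, hu⟩ ⟨v, hv⟩).not.2 h
      simpa using h3

private theorem npGen_of_homB {n k : ℕ} {G : LG (Fin n)} {H : LG (Fin k)} {y : List Bool}
    (h : homB H (enc G, y) = true) :
    ∃ f : Fin n → Fin k, IsHom G H f ∧ ∀ u, (f u : ℕ) = mcol y k u := by
  simp only [homB, Bool.and_eq_true, List.all_eq_true, List.mem_range, decide_eq_true_eq,
    lead_enc, Bool.or_eq_true, Bool.not_eq_true'] at h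
  refine ⟨fun u => ⟨mcol y k u, (h u u.2).1⟩, fun u v huv => ?_, fun _ => rfl⟩
  rcases (h u u.2).2 v v.2 with h6 | h6
  · rw [(ab_enc G u v).2 huv] at h6
    exact absurd h6 (by simp)
  · exact (mem_hList (i := ⟨mcol y k u, (h u u.2).1⟩) (j := ⟨mcol y k v, (h v v.2).1⟩)).1 h6

/-- Job CR-14a. -/
theorem ret_mem_NP' {k : ℕ} (H : LG (Fin k)) : RET H ∈ NP := by
  refine mem_NP_of (c := retB H) (npGen_retB H) (Polynomial.C k * Polynomial.X + 1) ?_ ?_
  · rintro x ⟨n, G, rfl, ⟨hn, hC⟩, ⟨_, f, hf, hfix⟩⟩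
    refine ⟨mword f, npGen_word G f, ?_⟩
    simp only [retB, Bool.and_eq_true, List.all_eq_true, List.mem_range, decide_eq_true_eq,
      lead_enc]
    refine ⟨⟨⟨⟨(wfB_iff _).2 ⟨n, G, rfl⟩, hn⟩, ?_⟩, ?_⟩, npGen_homB_of hf⟩
    · intro i hi j hj
      rw [Bool.eq_iff_iff, decide_eq_true_eq]
      have h1 := ab_enc G (Fin.castLE hn ⟨i, hi⟩) (Fin.castLE hn ⟨j, hj⟩)
      have h2 := hC ⟨i, hi⟩ ⟨j, hj⟩
      exact h1.trans (h2.trans (mem_hList (i := ⟨i, hi⟩) (j := ⟨j, hj⟩)).symm)
    · intro i hi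
      have h1 := mcol_mword f (Fin.castLE hn ⟨i, hi⟩)
      rw [hfix ⟨i, hi⟩] at h1
      exact h1
  · intro x y h
    simp only [retB, Bool.and_eq_true, List.all_eq_true, List.mem_range, decide_eq_true_eq] at h
    obtain ⟨⟨⟨⟨h1, h2⟩, h3⟩, h4⟩, h5⟩ := h
    obtain ⟨n, G, rfl⟩ := (wfB_iff x).1 h1
    rw [lead_enc] at h2
    obtain ⟨f, hf, hfy⟩ := npGen_of_homB h5
    refine ⟨n, G, rfl, ⟨h2, fun i j => ?_⟩, h2, f, hf, fun i => ?_⟩
    · have h6 := h3 i i.2 j j.2
      have h7 := ab_enc G (Fin.castLE h2 i) (Fin.castLE h2 j)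
      have h8 : ab (enc G) i j = true ↔ ((i : ℕ), (j : ℕ)) ∈ hList H := by
        rw [h6, decide_eq_true_eq]
      exact h7.symm.trans (h8.trans mem_hList)
    · apply Fin.ext
      rw [hfy]
      exact h4 i i.2

/-- Job CR-14b. -/
theorem comp_mem_NP' {k : ℕ} (H : LG (Fin k)) : COMP H ∈ NP := by
  refine mem_NP_of (c := compB H) (npGen_compB H) (Polynomial.C k * Polynomial.X + 1) ?_ ?_
  · rintro x ⟨n, G, rfl, f, hf, hsurj, hedge⟩
    refine ⟨mword f, npGen_word G f, ?_⟩
    simp only [compB, Bool.and_eq_true, List.all_eq_true, List.any_eq_true, List.mem_range,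
      decide_eq_true_eq, lead_enc, Bool.or_eq_true]
    refine ⟨⟨⟨(wfB_iff _).2 ⟨n, G, rfl⟩, ?_⟩, ?_⟩, npGen_homB_of hf⟩
    · intro i hi
      obtain ⟨u, hu⟩ := hsurj ⟨i, hi⟩
      refine ⟨u, u.2, ?_⟩
      rw [mcol_mword f u, hu]
    · intro e he
      obtain ⟨i, j, hij, rfl⟩ := npGen_mem he
      by_cases h : i = j
      · left
        rw [h]
      · right
        obtain ⟨u, v, huv, hu, hv⟩ := hedge i j hij h
        refine ⟨u, u.2, v, v.2, ⟨(ab_enc G u v).2 huv, ?_⟩, ?_⟩
        · rw [mcol_mword f u, hu]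
        · rw [mcol_mword f v, hv]
  · intro x y h
    simp only [compB, Bool.and_eq_true, List.all_eq_true, List.any_eq_true, List.mem_range,
      decide_eq_true_eq, Bool.or_eq_true] at h
    obtain ⟨⟨⟨h1, h2⟩, h3⟩, h5⟩ := h
    obtain ⟨n, G, rfl⟩ := (wfB_iff x).1 h1
    rw [lead_enc] at h2 h3
    obtain ⟨f, hf, hfy⟩ := npGen_of_homB h5
    refine ⟨n, G, rfl, f, hf, fun i => ?_, fun i j hij hne => ?_⟩
    · obtain ⟨u, hu, hu'⟩ := h2 i i.2
      refine ⟨⟨u, hu⟩, Fin.ext ?_⟩
      rw [hfy]
      exact hu'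
    · rcases h3 _ (mem_hList.2 hij) with h6 | ⟨u, hu, v, hv, ⟨h7, h8⟩, h9⟩
      · exact absurd (Fin.ext h6) hne
      · refine ⟨⟨u, hu⟩, ⟨v, hv⟩, (ab_enc G ⟨u, hu⟩ ⟨v, hv⟩).1 h7, Fin.ext ?_, Fin.ext ?_⟩
        · rw [hfy]
          exact h8
        · rw [hfy]
          exact h9

end Pool.Agent.H62.CR
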