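import Pool.Agent.H62.CR.OSim
import Pool.Agent.H87.HC.Kit

/-!
# Job CR-16: the simulation of an oracle machine runs in polynomial time
-/

namespace Pool.Agent.H62.CR

open Pool.Agent.PPS Pool.Agent.H87.PMCSP H87.HC

namespace OSim

section

variable {m : Bool} {α : Type} [Rep α]

@[fun_prop]
theorem PT.act' {a : α → ℕ × ℕ} {t : α → TP} (ha : PT m a) (ht : PT m t) :
    PT m (fun x => act (a x) (t x)) := by
  have h1 : PT m (fun x => if decide ((a x).2 = 0) then
      (((t x).1.tail, (t x).1.headD 0 :: (a x).1 :: (t x).2.tail) : TP)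
      else if decide ((a x).2 = 1) then ((t x).1, (a x).1 :: (t x).2.tail)
      else ((a x).1 :: (t x).1, (t x).2.tail)) := by
    refine PT.ite (by fun_prop) (by fun_prop) (PT.ite (by fun_prop) (by fun_prop) (by fun_prop))
  refine h1.of_eq fun x => ?_
  unfold act
  by_cases h2 : (a x).2 = 0
  · simp [h2]
  · by_cases h3 : (a x).2 = 1
    · simp [h3]
    · simp [h2, h3]

theorem tw_cons (a : ℕ) (l : List ℕ) : tw (a :: l) = if a = 0 then [] else a :: tw l := rfl

theorem size_tw_le (l : List ℕ) : size (tw l) ≤ size l := by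
  induction l with
  | nil => exact le_rfl
  | cons a l ih =>
    rw [tw_cons]
    split
    · rw [size_nil, size_cons]
      omega
    · rw [size_cons, size_cons]
      omega

@[fun_prop]
theorem PT.tw' {l : α → List ℕ} (hl : PT m l) : PT m (fun x => tw (l x)) := by
  obtain ⟨p, hp⟩ := hl.exists_size_le
  have hs : PT m (fun z : α × (ℕ × List ℕ) => if decide (z.2.1 = 0) then ([] : List ℕ)
      else z.2.1 :: z.2.2) := PT.ite (by fun_prop) (by fun_prop) (by fun_prop)
  have h : ∀ l : List ℕ, l.foldr (fun b y => if decide (b = 0) then ([] : List ℕ) else b :: y) [] =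
      tw l := by
    intro l
    unfold tw
    congr 1
    funext a t
    by_cases h0 : a = 0 <;> simp [h0]
  have h1 := PT.foldr (m := m) (s := fun z : α × (ℕ × List ℕ) =>
    if decide (z.2.1 = 0) then ([] : List ℕ) else z.2.1 :: z.2.2) (ini := fun _ => ([] : List ℕ))
    hl (by fun_prop) hs p (by
      intro a k
      rw [h]
      exact (size_tw_le _).trans ((size_drop_le _ _).trans (hp a)))
  refine h1.of_eq fun x => ?_
  exact (h (l x)).symm

end

variable (M : OTM) {dA : List Bool → Bool}

theorem PT.ans' (hA : PT true dA) : PT true (fun t : TP => ans M dA t) := by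
  unfold ans
  refine PT.and' ?_ ?_
  · refine PT.all2 (by fun_prop) ?_
    fun_prop
  · refine hA.comp' ?_
    exact PT.map2 (f := fun (_ : TP) a => decide (a = bc M true)) (by fun_prop) (by fun_prop)

/-- the tapes after an ordinary step -/
theorem PT.tapes' {T : SS → (ℕ × List ℕ) × (ℕ × List (ℕ × ℕ))} (hT : PT true T) :
    PT true (fun s : SS => (List.range (Nat.card M.K)).map fun i =>
      act ((T s).2.2.getD i (0, 1)) (s.2.getD i ([], []))) := by
  refine PT.map2 (l := fun _ : SS => List.range (Nat.card M.K)) (f := fun (s : SS) (i : ℕ) =>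
    act ((T s).2.2.getD i (0, 1)) (s.2.getD i ([], []))) (PT.const' _) ?_
  have h1 : PT true (fun z : SS × ℕ => (T z.1).2.2) := (PT.snd' (PT.snd' hT)).comp' PT.fst
  have h2 : PT true (fun z : SS × ℕ => z.1.2) := PT.snd' PT.fst
  exact PT.act' (PT.getD' PT.snd h1 (PT.const' _)) (PT.getD' PT.snd h2 (PT.const' _))

/-- an ordinary step -/
theorem PT.ord' {T : SS → (ℕ × List ℕ) × (ℕ × List (ℕ × ℕ))} (hT : PT true T) :
    PT true (fun s : SS => (((T s).2.1, (List.range (Nat.card M.K)).map fun i =>
      act ((T s).2.2.getD i (0, 1)) (s.2.getD i ([], []))) : SS)) :=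
  PT.prodMk (PT.fst' (PT.snd' hT)) (PT.tapes' M hT)

/-- a query step -/
theorem PT.qry' (hA : PT true dA) {T : SS → ℕ × (ℕ × ℕ)} (hT : PT true T) (n : ℕ) :
    PT true (fun s : SS => (((if ans M dA (s.2.getD n ([], [])) then (T s).2.1 else (T s).2.2), s.2)
      : SS)) := by
  refine PT.prodMk (PT.ite ?_ (PT.fst' (PT.snd' hT)) (PT.snd' (PT.snd' hT))) PT.snd
  exact (PT.ans' M hA).comp' (PT.getD' (PT.const' _) PT.snd (PT.const' _))

/-- Job CR-16a. `stepS` is in `PT` (for `tw` use `PT.foldr`; its values are not larger than the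
list; the tables are constants). -/
theorem PT.stepS' (hA : PT true dA) : PT true (fun s : SS => stepS M dA s) := by
  have hat : PT true (fun s : SS => (atbl M).filter (fun e => decide (e.1 = s.1))) :=
    PT.filter2 (f := fun (s : SS) (e : ℕ × (ℕ × ℕ)) => decide (e.1 = s.1)) (PT.const' _)
      (by fun_prop)
  have hrd : PT true (fun s : SS => s.2.map fun t => t.2.headD 0) :=
    PT.map2 (f := fun (_ : SS) (t : TP) => t.2.headD 0) (by fun_prop) (by fun_prop)
  have ht : PT true (fun s : SS => (tbl M).filter (fun e =>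
      decide (e.1 = (s.1, s.2.map fun t => t.2.headD 0)))) := by
    refine PT.filter2 (f := fun (s : SS) (e : (ℕ × List ℕ) × (ℕ × List (ℕ × ℕ))) =>
      decide (e.1 = (s.1, s.2.map fun t => t.2.headD 0))) (PT.const' _) ?_
    have h1 : PT true (fun z : SS × ((ℕ × List ℕ) × (ℕ × List (ℕ × ℕ))) =>
        z.1.2.map fun t => t.2.headD 0) := hrd.comp' (by fun_prop)
    exact PT.decideEq (by fun_prop) (PT.prodMk (by fun_prop) h1)
  have c1 : PT true (fun s : SS => decide ((atbl M).filter (fun e => decide (e.1 = s.1)) = [])) := by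
    refine (PT.decideEq hat (PT.const' [])).of_eq fun s => ?_
    rw [decide_eq_decide]
  have c2 : PT true (fun s : SS => decide ((tbl M).filter (fun e =>
      decide (e.1 = (s.1, s.2.map fun t => t.2.headD 0))) = [])) := by
    refine (PT.decideEq ht (PT.const' [])).of_eq fun s => ?_
    rw [decide_eq_decide]
  exact PT.ite c1 (PT.ite c2 PT.id' (PT.ord' M (PT.headD' ht (PT.const' _))))
    (PT.qry' M hA (PT.headD' hat (PT.const' _)) _)

/-- Job CR-16b. `iniS` is in `PT`. -/
theorem PT.iniS' : PT true (fun x : List Bool => iniS M x) := by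
  unfold iniS
  refine PT.prodMk (PT.const' _) ?_
  refine PT.map2 (l := fun _ : List Bool => List.range (Nat.card M.K))
    (f := fun (x : List Bool) (i : ℕ) => (([], if decide (i = (eK M M.io).val) then
      x.map fun b => if b then bc M true else bc M false else []) : TP)) (PT.const' _) ?_
  refine PT.prodMk (PT.const' _) (PT.ite (by fun_prop) ?_ (by fun_prop))
  exact PT.map2 (f := fun (_ : List Bool × ℕ) (b : Bool) => if b then bc M true else bc M false)
    (by fun_prop) (PT.ite (by fun_prop) (by fun_prop) (by fun_prop))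

/-- entries and lengths of a tape are bounded -/
def TInv (N : ℕ) (t : TP) : Prop :=
  (∀ c ∈ t.1, c ≤ Nat.card M.Γ) ∧ (∀ c ∈ t.2, c ≤ Nat.card M.Γ) ∧ t.1.length ≤ N ∧ t.2.length ≤ N

/-- the invariant -/
def Inv (N : ℕ) (s : SS) : Prop :=
  s.1 ≤ Nat.card M.Q ∧ s.2.length ≤ Nat.card M.K ∧ ∀ t ∈ s.2, TInv M N t

theorem cc_le (g : Option M.Γ) : cc M g ≤ Nat.card M.Γ := by
  cases g with
  | none => exact Nat.zero_le _
  | some g => exact (eG M g).isLt

theorem tbl_le {e : (ℕ × List ℕ) × (ℕ × List (ℕ × ℕ))} (he : e ∈ tbl M) :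
    e.2.1 ≤ Nat.card M.Q ∧ ∀ a ∈ e.2.2, a.1 ≤ Nat.card M.Γ := by
  unfold tbl at he
  rw [List.mem_flatMap] at he
  obtain ⟨d, -, hd⟩ := he
  cases hδ : M.δ d.1 d.2 with
  | none =>
    rw [hδ] at hd
    exact absurd hd (List.not_mem_nil)
  | some r =>
    rw [hδ] at hd
    simp only [List.mem_singleton] at hd
    rw [hd]
    refine ⟨(eQ M r.1).isLt.le, fun a ha => ?_⟩
    simp only [lst, List.mem_ofFn] at ha
    obtain ⟨i, rfl⟩ := ha
    exact cc_le M _

theorem atbl_le {e : ℕ × (ℕ × ℕ)} (he : e ∈ atbl M) :
    e.2.1 ≤ Nat.card M.Q ∧ e.2.2 ≤ Nat.card M.Q := by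
  unfold atbl at he
  rw [List.mem_flatMap] at he
  obtain ⟨d, -, hd⟩ := he
  cases hδ : M.ask d with
  | none =>
    rw [hδ] at hd
    exact absurd hd (List.not_mem_nil)
  | some r =>
    rw [hδ] at hd
    simp only [List.mem_singleton] at hd
    rw [hd]
    exact ⟨(eQ M r.1).isLt.le, (eQ M r.2).isLt.le⟩

theorem headD_mem {β : Type} (l : List β) (d : β) : l.headD d = d ∨ l.headD d ∈ l := by
  cases l with
  | nil => exact Or.inl rfl
  | cons a l => exact Or.inr (List.mem_cons_self ..)

theorem getD_mem {β : Type} (l : List β) (i : ℕ) (d : β) : l.getD i d = d ∨ l.getD i d ∈ l := by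
  rw [List.getD_eq_getElem?_getD]
  cases h : l[i]? with
  | none => exact Or.inl rfl
  | some a => exact Or.inr (List.mem_of_getElem? h)

theorem TInv.mono {N N' : ℕ} (h : N ≤ N') {t : TP} (ht : TInv M N t) : TInv M N' t :=
  ⟨ht.1, ht.2.1, ht.2.2.1.trans h, ht.2.2.2.trans h⟩

theorem TInv.nil (N : ℕ) : TInv M N ([], []) :=
  ⟨fun _ h => absurd h (List.not_mem_nil), fun _ h => absurd h (List.not_mem_nil),
    Nat.zero_le _, Nat.zero_le _⟩

theorem TInv.act {N : ℕ} {t : TP} (ht : TInv M N t) {a : ℕ × ℕ} (ha : a.1 ≤ Nat.card M.Γ) :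
    TInv M (N + 2) (OSim.act a t) := by
  obtain ⟨h1, h2, h3, h4⟩ := ht
  have h5 : ∀ c ∈ t.1.tail, c ≤ Nat.card M.Γ := fun c hc => h1 c (List.mem_of_mem_tail hc)
  have h6 : ∀ c ∈ t.2.tail, c ≤ Nat.card M.Γ := fun c hc => h2 c (List.mem_of_mem_tail hc)
  have h7 : t.1.headD 0 ≤ Nat.card M.Γ := by
    rcases headD_mem t.1 0 with h | h
    · rw [h]
      exact Nat.zero_le _
    · exact h1 _ h
  have h8 : t.1.tail.length ≤ N := by
    rw [List.length_tail]
    omega
  have h9 : t.2.tail.length ≤ N := by
    rw [List.length_tail]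
    omega
  unfold OSim.act
  split
  · refine ⟨h5, ?_, by show t.1.tail.length ≤ _; omega, ?_⟩
    · intro c hc
      simp only [List.mem_cons] at hc
      rcases hc with rfl | rfl | hc
      · exact h7
      · exact ha
      · exact h6 c hc
    · show (t.1.headD 0 :: a.1 :: t.2.tail).length ≤ _
      rw [List.length_cons, List.length_cons]
      omega
  · split
    · refine ⟨h1, ?_, by show t.1.length ≤ _; omega, ?_⟩
      · intro c hc
        simp only [List.mem_cons] at hc
        rcases hc with rfl | hc
        · exact ha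
        · exact h6 c hc
      · show (a.1 :: t.2.tail).length ≤ _
        rw [List.length_cons]
        omega
    · refine ⟨?_, h6, ?_, by show t.2.tail.length ≤ _; omega⟩
      · intro c hc
        simp only [List.mem_cons] at hc
        rcases hc with rfl | hc
        · exact ha
        · exact h1 c hc
      · show (a.1 :: t.1).length ≤ _
        rw [List.length_cons]
        omega

theorem Inv.step (dA : List Bool → Bool) {N : ℕ} {s : SS} (hs : Inv M N s) :
    Inv M (N + 2) (stepS M dA s) := by
  obtain ⟨h1, h2, h3⟩ := hs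
  unfold stepS
  split
  · split
    · exact ⟨h1, h2, fun t ht => (h3 t ht).mono M (by omega)⟩
    · have hd : ∀ e : (ℕ × List ℕ) × (ℕ × List (ℕ × ℕ)), e = (((tbl M).filter (fun e =>
          decide (e.1 = (s.1, s.2.map fun t => t.2.headD 0)))).headD ((0, []), (0, []))) →
          e.2.1 ≤ Nat.card M.Q ∧ ∀ a ∈ e.2.2, a.1 ≤ Nat.card M.Γ := by
        intro e he
        rcases headD_mem ((tbl M).filter (fun e =>
          decide (e.1 = (s.1, s.2.map fun t => t.2.headD 0)))) ((0, []), (0, [])) with h | h
        · rw [he, h]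
          exact ⟨Nat.zero_le _, fun a ha => absurd ha (List.not_mem_nil)⟩
        · rw [he]
          exact tbl_le M (List.mem_of_mem_filter h)
      have hd' := hd _ rfl
      refine ⟨hd'.1, ?_, ?_⟩
      · show ((List.range (Nat.card M.K)).map _).length ≤ _
        rw [List.length_map, List.length_range]
      · intro t ht
        rw [List.mem_map] at ht
        obtain ⟨i, -, rfl⟩ := ht
        refine TInv.act M ?_ ?_
        · rcases getD_mem s.2 i ([], []) with h | h
          · rw [h]
            exact TInv.nil M _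
          · exact h3 _ h
        · rcases getD_mem (((tbl M).filter (fun e =>
            decide (e.1 = (s.1, s.2.map fun t => t.2.headD 0)))).headD
              ((0, []), (0, []))).2.2 i (0, 1) with h | h
          · rw [h]
            exact Nat.zero_le _
          · exact hd'.2 _ h
  · have hd : ∀ e : ℕ × (ℕ × ℕ), e = (((atbl M).filter (fun e => decide (e.1 = s.1))).headD
        (0, (0, 0))) → e.2.1 ≤ Nat.card M.Q ∧ e.2.2 ≤ Nat.card M.Q := by
      intro e he
      rcases headD_mem ((atbl M).filter (fun e => decide (e.1 = s.1))) (0, (0, 0)) with h | h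
      · rw [he, h]
        exact ⟨Nat.zero_le _, Nat.zero_le _⟩
      · rw [he]
        exact atbl_le M (List.mem_of_mem_filter h)
    have hd' := hd _ rfl
    refine ⟨?_, h2, fun t ht => (h3 t ht).mono M (by omega)⟩
    show (if _ then _ else _) ≤ _
    split
    · exact hd'.1
    · exact hd'.2

theorem Inv.ini (x : List Bool) : Inv M x.length (iniS M x) := by
  refine ⟨(eQ M M.start).isLt.le, ?_, ?_⟩
  · show ((List.range (Nat.card M.K)).map _).length ≤ _
    rw [List.length_map, List.length_range]
  · intro t ht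
    simp only [iniS, List.mem_map] at ht
    obtain ⟨i, -, rfl⟩ := ht
    refine ⟨fun _ h => absurd h (List.not_mem_nil), ?_, Nat.zero_le _, ?_⟩
    · intro c hc
      dsimp only at hc
      split at hc
      · rw [List.mem_map] at hc
        obtain ⟨b, -, rfl⟩ := hc
        split
        · exact cc_le M _
        · exact cc_le M _
      · exact absurd hc (List.not_mem_nil)
    · dsimp only
      split
      · rw [List.length_map]
      · exact Nat.zero_le _

theorem Inv.iter (dA : List Bool → Bool) (x : List Bool) (k : ℕ) :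
    Inv M (x.length + 2 * k) ((stepS M dA)^[k] (iniS M x)) := by
  induction k with
  | zero => exact Inv.ini M x
  | succ k ih =>
    rw [Function.iterate_succ_apply']
    exact Inv.step M dA ih

theorem size_entries {l : List ℕ} {g N : ℕ} (h : ∀ c ∈ l, c ≤ g) (hl : l.length ≤ N) :
    size l ≤ N * (2 * g + 2) + 1 := by
  have h1 : ∀ c ∈ l, size c ≤ 2 * g + 1 := by
    intro c hc
    rw [size_nat]
    have := h c hc
    omega
  refine (size_list_le h1).trans ?_
  have h2 : l.length * (2 * g + 1 + 1) ≤ N * (2 * g + 2) := Nat.mul_le_mul_right (2 * g + 2) hl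
  omega

/-- Job CR-16c. The size of the coded configuration after `k` steps is at most a polynomial in `k`
and the size of the input. Show that the following invariant holds after `k` steps: the number of
the state is at most `Nat.card M.Q` (every state number in the tables is), the list of tapes has at
most `Nat.card M.K` elements, every entry of a tape is at most `Nat.card M.Γ`, and the lengths of
the two parts of every tape are at most `|x| + 2 * k` (`act` makes a part longer by at most two).
(`size_list_le`, `size_nat`, `size_pair`.) -/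
theorem size_iter (dA : List Bool → Bool) : ∃ q : Polynomial ℕ, ∀ (x : List Bool) (k : ℕ),
    size ((stepS M dA)^[k] (iniS M x)) ≤ q.eval (size x + k) := by
  refine ⟨Polynomial.C (2 * Nat.card M.Q + 1) + (Polynomial.C (Nat.card M.K) *
    (2 * ((2 * Polynomial.X) * Polynomial.C (2 * Nat.card M.Γ + 2) + 1) + 2) + 1) + 1,
    fun x k => ?_⟩
  obtain ⟨h1, h2, h3⟩ := Inv.iter M dA x k
  set s := (stepS M dA)^[k] (iniS M x) with hs
  simp only [Polynomial.eval_add, Polynomial.eval_C, Polynomial.eval_mul, Polynomial.eval_X,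
    Polynomial.eval_one, Polynomial.eval_ofNat]
  have hx : x.length + 2 * k ≤ 2 * (size x + k) := by
    have := (size_bits x).1
    omega
  have h4 : size s = size s.1 + size s.2 + 1 := size_pair _ _
  have h5 : size s.1 ≤ 2 * Nat.card M.Q + 1 := by
    rw [size_nat]
    omega
  have h6 : ∀ t ∈ s.2, size t ≤ 2 * ((2 * (size x + k)) * (2 * Nat.card M.Γ + 2) + 1) + 1 := by
    intro t ht
    obtain ⟨g1, g2, g3, g4⟩ := h3 t ht
    have e1 : size t = size t.1 + size t.2 + 1 := size_pair _ _
    have e2 := size_entries g1 (g3.trans hx)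
    have e3 := size_entries g2 (g4.trans hx)
    omega
  have h7 := size_list_le h6
  have h8 : s.2.length * (2 * ((2 * (size x + k)) * (2 * Nat.card M.Γ + 2) + 1) + 1 + 1) ≤
      Nat.card M.K * (2 * ((2 * (size x + k)) * (2 * Nat.card M.Γ + 2) + 1) + 2) :=
    Nat.mul_le_mul_right _ h2
  omega

/-- Job CR-16d. From 16a-c by `PT.iterate`; the number of steps `p.eval x.length` is computable
(`PT` of a polynomial: induction over `p`, or see `PT.eval` or a similar lemma in `Pool/Agent`). -/
theorem PT.run' (hA : PT true dA) (p : Polynomial ℕ) :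
    PT true (fun x : List Bool => (stepS M dA)^[p.eval x.length] (iniS M x)) := by
  obtain ⟨q, hq⟩ := size_iter M dA
  have hstep : PT true (fun z : List Bool × SS => stepS M dA z.2) :=
    (PT.stepS' M hA).comp' (by fun_prop)
  refine PT.iterate (s := fun z : List Bool × SS => stepS M dA z.2)
    (n := fun x : List Bool => p.eval x.length) (PT.polyEval (by fun_prop) p) (PT.iniS' M) hstep
    (q.comp (Polynomial.X + p)) ?_
  intro x k hk
  refine (hq x k).trans ?_
  rw [Polynomial.eval_comp, Polynomial.eval_add, Polynomial.eval_X]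
  refine polyMono q ?_
  have h1 : x.length ≤ size x := by
    have := (size_bits x).1
    omega
  have h2 := polyMono p h1
  omega

end OSim

end Pool.Agent.H62.CR
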