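import Pool.Agent.H62.CR.OSimRel
import Pool.Agent.H62.CR.OSimPT
import Pool.Agent.PPS.Bridge

/-!
# `P` is closed under polynomial-time Turing reductions
-/

namespace Pool.Agent.H62.CR

open Pool.Agent.PPS

/-- `P` is closed under polynomial-time Turing reductions. -/
theorem tred_mem_P {L A : Set (List Bool)} (h : TRed L A) (hA : A ∈ P) : L ∈ P := by
  classical
  rw [mem_P_iff] at hA ⊢
  obtain ⟨M, p, h1, h2⟩ := h
  have h3 := OSim.PT.run' M hA p
  have h4 : PT true (fun x : List Bool => decide
      (((OSim.stepS M fun w => decide (w ∈ A))^[p.eval x.length] (OSim.iniS M x)).1 ∈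
        OSim.accS M)) :=
    H87.HC.PT.mem2 (l := fun _ => OSim.accS M) (PT.fst' h3) (PT.const' _)
  refine PT.of_eq h4 fun x => ?_
  have h5 := OSim.crel_conf M A x (p.eval x.length)
  rw [h5.1, decide_eq_decide, OSim.mem_accS]
  obtain ⟨n, h6, h7⟩ := h1 x
  have h8 : M.confO A x (p.eval x.length) = M.confO A x n := by
    have key : ∀ a b, M.HaltedO A x a → a ≤ b → M.confO A x b = M.confO A x a := by
      intro a b ha hab
      induction b, hab using Nat.le_induction with
      | base => rfl
      | succ b _ ih =>
        have : M.confO A x (b + 1) = (M.stepO A (M.confO A x b)).getD (M.confO A x b) := by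
          unfold OTM.confO
          rw [Function.iterate_succ_apply']
        rw [this, ih]
        unfold OTM.HaltedO at ha
        rw [ha]
        rfl
    rcases le_total n (p.eval x.length) with h | h
    · exact key _ _ h6 h
    · exact (key _ _ (h2 x) h).symm
  rw [h8]
  exact h7.symm

end Pool.Agent.H62.CR
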