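import Pool.Agent.H62.CR.RetGad
import Pool.Agent.H79.Thr.Conv
import Pool.Agent.H79.Thr.Col3
import Pool.Agent.PPS.Bridge

/-!
# The reduction is computable in polynomial time
-/

namespace Pool.Agent.H62.CR

open Pool.Agent.PPS Pool.Agent.H64.Cook Pool.Agent.H79.Thr

section

variable {α β : Type} [Rep α] [Rep β] [DecidableEq α] {m : Bool}

omit [DecidableEq α] in
theorem PT.Wv' {p : β → α} (hp : PT m p) : PT m (fun x => Wv (p x)) := by
  unfold Wv
  fun_prop

omit [DecidableEq α] in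
theorem PT.Xv' (κ t : ℕ) {e : β → α × α} (he : PT m e) : PT m (fun x => Xv κ t (e x)) := by
  unfold Xv
  fun_prop

omit [DecidableEq α] in
theorem PT.gad' (d : α) (t l1 l2 l3 : ℕ) {e : β → α × α} (he : PT m e) :
    PT m (fun x => gad d (e x) t l1 l2 l3) := by
  unfold gad
  have h1 : PT m (fun x => Wv (e x).1) := PT.Wv' (PT.fst' he)
  have h2 : PT m (fun x => Wv (e x).2) := PT.Wv' (PT.snd' he)
  have h3 : ∀ κ, PT m (fun x => Xv κ t (e x)) := fun κ => PT.Xv' κ t he
  repeat' first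
    | exact PT.const' _
    | refine PT.cons' (PT.prodMk ?_ ?_) ?_
    | exact h1
    | exact h2
    | exact h3 _

omit [DecidableEq α] in
/-- `RE d` is in `PT`. -/
theorem PT.RE' (d : α) {E : β → List (α × α)} (hE : PT m E) : PT m (fun x => RE d (E x)) := by
  unfold RE
  refine PT.append' (PT.const' _) ?_
  refine H64.Cook.PT.flatMap' (m := m) (l := E)
    (f := fun z : β × (α × α) => gad d z.2 0 6 7 5 ++ gad d z.2 1 4 8 6 ++ gad d z.2 2 5 9 4) hE ?_
  exact PT.append' (PT.append' (PT.gad' d 0 6 7 5 PT.snd) (PT.gad' d 1 4 8 6 PT.snd))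
    (PT.gad' d 2 5 9 4 PT.snd)

omit [DecidableEq α] in
/-- `VL d` is in `PT`. -/
theorem PT.VL' (d : α) {E : β → List (α × α)} (hE : PT m E) : PT m (fun x => VL d (E x)) := by
  unfold VL
  refine PT.append' (PT.const' _) ?_
  exact H64.Cook.PT.flatMap' (m := m) (l := fun x => RE d (E x))
    (f := fun z : β × (F α × F α) => [z.2.1, z.2.2]) (PT.RE' d hE) (by fun_prop)

/-- `matW` is in `PT`. -/
theorem PT.matW' {L : β → List (F α)} {R : β → List (F α × F α)} (hL : PT m L) (hR : PT m R) :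
    PT m (fun x => matW (L x) (R x)) := by
  have hv1 : PT m (fun z : β × F α => L z.1) := hL.comp' PT.fst
  have h2 : PT m (fun z : (β × F α) × F α => R z.1.1) := hR.comp' (PT.fst.comp' PT.fst)
  have hmem1 : PT m (fun z : (β × F α) × F α => decide ((z.1.2, z.2) ∈ R z.1.1)) := by
    have h3 := H64.Cook.PT.mem' (m := m) (l := fun z : (β × F α) × F α => R z.1.1)
      (f := fun z : (β × F α) × F α => (z.1.2, z.2)) h2 (by fun_prop)
    exact h3.of_eq (fun z => decide_eq_decide.2 Iff.rfl)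
  have hmem2 : PT m (fun z : (β × F α) × F α => decide ((z.2, z.1.2) ∈ R z.1.1)) := by
    have h3 := H64.Cook.PT.mem' (m := m) (l := fun z : (β × F α) × F α => R z.1.1)
      (f := fun z : (β × F α) × F α => (z.2, z.1.2)) h2 (by fun_prop)
    exact h3.of_eq (fun z => decide_eq_decide.2 Iff.rfl)
  unfold matW
  refine PT.append' (PT.replicate' (PT.length' hL) (PT.const' _)) (PT.cons' (PT.const' _) ?_)
  refine H64.Cook.PT.flatMap' (m := m) (l := fun a => L a)
    (f := fun z : β × F α => (L z.1).map fun v =>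
      (decide ((z.2, v) ∈ R z.1) || decide ((v, z.2) ∈ R z.1))) hL ?_
  refine PT.map' (m := m) (l := fun z : β × F α => L z.1)
    (f := fun z : (β × F α) × F α =>
      (decide ((z.1.2, z.2) ∈ R z.1.1) || decide ((z.2, z.1.2) ∈ R z.1.1))) hv1 ?_
  exact PT.or' hmem1 hmem2

end

/-- Retraction to `H` is NP-hard. -/
theorem ret_hard {L : Set (List Bool)} (hL : L ∈ NP) :
    ∃ φ ∈ FP, ∀ x, x ∈ L ↔ φ x ∈ RET H23 := by
  classical
  obtain ⟨ψ, h1, h2⟩ := hard3 hL
  refine ⟨fun x => matW (VL (n3 0 0 0 z3) (ψ x)) (RE (n3 0 0 0 z3) (ψ x)), ?_, fun x => ?_⟩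
  · rw [mem_FP_iff]
    exact PT.matW' (PT.VL' _ h1) (PT.RE' _ h1)
  · rw [ret_iff]
    exact (h2 x).2

end Pool.Agent.H62.CR
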