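import Pool.Agent.H62.CR.CompP
import Pool.Agent.H62.CR.RetPT
import Pool.Agent.H62.CR.NPGen
import Pool.Agent.H62.CR.OMain

/-!
# Compaction and retraction are not polynomially equivalent, unless `P = NP`
-/

namespace Pool.Agent.H62.CR

open Pool.Agent.PPS Pool.Agent.H64.Cook

/-- Compaction to `H23` is in `P`, retraction to `H23` is `NP`-complete. -/
theorem main1 : ∃ (k : ℕ) (H : LG (Fin k)),
    (∃ col : Fin k → Bool, ∀ i j, H.adj i j → col i ≠ col j) ∧ COMP H ∈ P ∧ RET H ∈ NP ∧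
      ∀ L ∈ NP, ∃ φ ∈ FP, ∀ x, x ∈ L ↔ φ x ∈ RET H :=
  ⟨23, H23, H23_bipartite, comp_mem_P, ret_mem_NP' H23, fun _ hL => ret_hard hL⟩

/-- The question for all graphs `H` is equivalent to `P = NP`. -/
theorem main2 : (∀ (k : ℕ) (H : LG (Fin k)), PolyEquiv (RET H) (COMP H)) ↔ P = NP := by
  classical
  constructor
  · intro h
    have h1 : RET H23 ∈ P := tred_mem_P (h 23 H23).1 comp_mem_P
    refine Set.Subset.antisymm P_subset_NP ?_
    intro L hL
    obtain ⟨φ, hφ, hx⟩ := ret_hard hL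
    rw [mem_FP_iff] at hφ
    rw [mem_P_iff] at h1 ⊢
    refine PT.of_eq (h1.comp' hφ) fun x => ?_
    rw [decide_eq_decide]
    exact hx x
  · intro h k H
    have h1 : RET H ∈ P := by rw [h]; exact ret_mem_NP' H
    have h2 : COMP H ∈ P := by rw [h]; exact comp_mem_NP' H
    exact ⟨tred_of_mem_P h1 _, tred_of_mem_P h2 _⟩

end Pool.Agent.H62.CR
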