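import Pool.Agent.H62.CR.Graph

/-!
# Job CR-1: normal form of a compaction

Everywhere: `G` is a graph (loops allowed) on `V`, `c : V → Vx` a colouring with the vertices of
`H`, `M` a finite set of vertices (the witnesses).

Statement: if `G` compacts to `H`, there is a compaction `c` with the least possible number `wt c`
of interior vertices (colours `lam`, `b`, `tau`) and a set `M` of at most 260 vertices such that
(1) the edges inside `M` cover all edges of `H`, (2) outside `M` no vertex has a colour `ap j`,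
(3) every interior vertex is forced (`Cl`).

Proof. Take a compaction `c` with `wt c` minimal (`Nat.find`, or `exists_min_image` over the values
of `wt`). `M`: for every pair `(x, y) : S0 × S1` with `R x y = true` choose `u v` with
`G.adj u v`, `c u = inl x`, `c v = inr y`; `M` is the union of the sets `{u, v}` over all pairs
(`Finset.univ.biUnion`, at most `2 * 130` elements). Let `c'` be `c` with the colour `ap j` replaced
by `al j` outside `M`: every neighbour of `ap j` in `H` is a neighbour of `al j`
(`∀ x j, R x (.ap j) = true → R x (.al j) = true`, by `decide`), neighbours of a vertex of side 1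
are of side 0, so `c'` is a homomorphism, it agrees with `c` on `M`, and it has the same interior
vertices, so `wt c' = wt c`. It remains to show (3) for `c'` (all colours below are in `c'`).
Suppose some interior vertex is not in `Cl`. Define `c''` by
* `c'' v = c' v` if `v` is not interior or `Cl v`;
* if `v` is interior and not `Cl v`: colour `b j` becomes `al j`; colour `tau x s` becomes `al true`
  if `v` has a neighbour `w` with `Cl w` and colour `lam true _`, and `al false` otherwise; colour
  `lam k y` becomes `inl o` if `v` has a neighbour in `M` of colour `ap _`, and `inl e` otherwise.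
All vertices of `M` keep their colour (an interior vertex of `M` is in `Cl`), so `c''` covers all
edges of `H`, and `wt c'' < wt c'`: contradiction, once we know that `c''` is a homomorphism. Let
`v w` be adjacent, `c' v = inl x`, `c' w = inr y`, `R x y`. Cases:
* `x = o, e, a _`: `c'' v = c' v`, and `c'' w` is `y` or `al _`, which is adjacent to `x`.
* `x = lam k z`, `v` keeps its colour (`Cl v`): `y = al k` or `ap k`: unchanged. `y = b k`: `b k` or
  `al k`. `y = tau`: kept, or changed to `al j`; here `j = k`: if `k = true` this is the definition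
  (`v` is a `Cl` neighbour of `w` of colour `lam true`); if `k = false`, then `w` has no `Cl`
  neighbour of colour `lam true` since otherwise `Cl w` by the rule `tau`.
* `x = lam k z`, not `Cl v`, `v` has a neighbour `m ∈ M` of colour `ap j`; then `j = k` by
  `c'` being a homomorphism; `c'' v = o`. `y = al k` or `ap k`: adjacent to `o`. `y = b k`: if
  `w ∈ M`, then `Cl v` by `lamb`, contradiction; so `w ∉ M` and not `Cl w` (a vertex of colour `b`
  is in `Cl` only by `base`), so `c'' w = al k`. `y = tau`: if `Cl w` then `Cl v` by `lamt`; so `w`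
  is changed to `al _`. All adjacent to `o`.
* `x = lam k z`, not `Cl v`, no neighbour in `M` of colour `ap _`: `c'' v = e`. `y = ap k`: then
  `w ∈ M` (outside `M` there is no colour `ap`), contradiction. `y = al, b, tau`: kept or changed to
  `al _`; all adjacent to `e`.
-/

namespace Pool.Agent.H62.CR

variable {V : Type}

/-- The forced interior vertices. -/
inductive Cl (G : LG V) (c : V → Vx) (M : Finset V) : V → Prop
  | base (v : V) : v ∈ M → isInt (c v) = true → Cl G c M v
  | tau (v w w' : V) (x : Fin 3) (s : Bool) (y y' : Fin 3) : c v = .inr (.tau x s) →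
      G.adj v w → Cl G c M w → c w = .inl (.lam false y) →
      G.adj v w' → Cl G c M w' → c w' = .inl (.lam true y') → Cl G c M v
  | lamt (v m w : V) (k : Bool) (y x : Fin 3) (s : Bool) : c v = .inl (.lam k y) →
      G.adj v m → m ∈ M → c m = .inr (.ap k) →
      G.adj v w → Cl G c M w → c w = .inr (.tau x s) → Cl G c M v
  | lamb (v m m' : V) (k : Bool) (y : Fin 3) : c v = .inl (.lam k y) →
      G.adj v m → m ∈ M → c m = .inr (.ap k) →
      G.adj v m' → m' ∈ M → c m' = .inr (.b k) → Cl G c M v

open Classical in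
/-- The number of interior vertices. -/
noncomputable def wt [Fintype V] (c : V → Vx) : ℕ :=
  (Finset.univ.filter fun v => isInt (c v) = true).card

/-- `c` is a compaction in normal form with witness set `M`. -/
structure Normal (G : LG V) (c : V → Vx) (M : Finset V) : Prop where
  hom : IsHom G HG c
  cov : ∀ x y, R x y = true → ∃ u ∈ M, ∃ v ∈ M, G.adj u v ∧ c u = .inl x ∧ c v = .inr y
  ap : ∀ v, v ∉ M → ∀ j, c v ≠ .inr (.ap j)
  cl : ∀ v, isInt (c v) = true → Cl G c M v

/-- Replace `ap j` by `al j`. -/
def dn : Vx → Vx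
  | .inr (.ap j) => .inr (.al j)
  | z => z

theorem hadj_dn (u v : Vx) (h : hadj u v = true) : hadj u (dn v) = true ∧ hadj (dn u) v = true ∧
    hadj (dn u) (dn v) = true := by
  rcases u with u | u <;> rcases v with v | v
  · exact absurd h (by simp [hadj])
  · cases v <;> first
      | exact ⟨h, h, h⟩
      | (cases u <;> simp_all [hadj, dn, R])
  · cases u <;> first
      | exact ⟨h, h, h⟩
      | (cases v <;> simp_all [hadj, dn, R])
  · exact absurd h (by simp [hadj])

theorem isInt_dn (z : Vx) : isInt (dn z) = isInt z := by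
  rcases z with z | z <;> cases z <;> rfl

theorem dn_ne (z : Vx) (j : Bool) : dn z ≠ .inr (.ap j) := by
  rcases z with z | z <;> cases z <;> simp [dn]

theorem hadj_sides {u v : Vx} (h : hadj u v = true) :
    (∃ x y, u = .inl x ∧ v = .inr y) ∨ (∃ x y, u = .inr y ∧ v = .inl x) := by
  rcases u with u | u <;> rcases v with v | v
  · exact absurd h (by simp [hadj])
  · exact Or.inl ⟨u, v, rfl, rfl⟩
  · exact Or.inr ⟨v, u, rfl, rfl⟩
  · exact absurd h (by simp [hadj])

theorem exists_witnesses (G : LG V) (c : V → Vx) (h : Comp G c) :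
    ∃ M : Finset V, M.card ≤ 260 ∧
      ∀ x y, R x y = true → ∃ u ∈ M, ∃ v ∈ M, G.adj u v ∧ c u = .inl x ∧ c v = .inr y := by
  classical
  have h2 : ∀ p : S0 × S1, ∃ N : Finset V, N.card ≤ 2 ∧ (R p.1 p.2 = true →
      ∃ u ∈ N, ∃ v ∈ N, G.adj u v ∧ c u = .inl p.1 ∧ c v = .inr p.2) := by
    intro p
    by_cases hp : R p.1 p.2 = true
    · obtain ⟨u, v, h3, h4, h5⟩ := h.2 _ _ hp
      exact ⟨{u, v}, Finset.card_le_two, fun _ => ⟨u, by simp, v, by simp, h3, h4, h5⟩⟩
    · exact ⟨∅, by simp, fun h => absurd h hp⟩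
  choose N hN1 hN2 using h2
  refine ⟨Finset.univ.biUnion N, ?_, fun x y hxy => ?_⟩
  · have h3 := Finset.card_biUnion_le_card_mul (Finset.univ : Finset (S0 × S1)) N 2
      fun p _ => hN1 p
    have h4 : (Finset.univ : Finset (S0 × S1)).card = 130 := by
      rw [Finset.card_univ, Fintype.card_prod]
      have h5 : Fintype.card S0 = 10 := by decide
      have h6 : Fintype.card S1 = 13 := by decide
      rw [h5, h6]
    rw [h4] at h3
    exact h3
  · obtain ⟨u, hu, v, hv, h3⟩ := hN2 (x, y) hxy
    exact ⟨u, Finset.mem_biUnion.2 ⟨(x, y), Finset.mem_univ _, hu⟩, v,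
      Finset.mem_biUnion.2 ⟨(x, y), Finset.mem_univ _, hv⟩, h3⟩

section improve

variable (G : LG V) (c : V → Vx) (M : Finset V)

open Classical in
/-- The new colour of an interior vertex which is not forced. -/
noncomputable def gg (v : V) : Vx :=
  match c v with
  | .inr (.b j) => .inr (.al j)
  | .inr (.tau _ _) =>
    if ∃ w y, G.adj v w ∧ Cl G c M w ∧ c w = .inl (.lam true y) then .inr (.al true)
    else .inr (.al false)
  | .inl (.lam _ _) =>
    if ∃ m ∈ M, G.adj v m ∧ ∃ j, c m = .inr (.ap j) then .inl .o else .inl .e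
  | z => z

open Classical in
/-- The improved colouring. -/
noncomputable def cc (v : V) : Vx := if isInt (c v) = true ∧ ¬ Cl G c M v then gg G c M v else c v

variable {G c M}

theorem cc_kept {v : V} (h : ¬ (isInt (c v) = true ∧ ¬ Cl G c M v)) : cc G c M v = c v := if_neg h

theorem cc_changed {v : V} (h : isInt (c v) = true ∧ ¬ Cl G c M v) : cc G c M v = gg G c M v :=
  if_pos h

theorem gg_b {v : V} {j : Bool} (h : c v = .inr (.b j)) : gg G c M v = .inr (.al j) := by
  unfold gg
  rw [h]

theorem gg_tau_true {v : V} {x : Fin 3} {s : Bool} (h : c v = .inr (.tau x s))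
    (h2 : ∃ w y, G.adj v w ∧ Cl G c M w ∧ c w = .inl (.lam true y)) :
    gg G c M v = .inr (.al true) := by
  unfold gg
  rw [h]
  exact if_pos h2

theorem gg_tau_false {v : V} {x : Fin 3} {s : Bool} (h : c v = .inr (.tau x s))
    (h2 : ¬ ∃ w y, G.adj v w ∧ Cl G c M w ∧ c w = .inl (.lam true y)) :
    gg G c M v = .inr (.al false) := by
  unfold gg
  rw [h]
  exact if_neg h2

theorem gg_lam_o {v : V} {k : Bool} {y : Fin 3} (h : c v = .inl (.lam k y))
    (h2 : ∃ m ∈ M, G.adj v m ∧ ∃ j, c m = .inr (.ap j)) : gg G c M v = .inl .o := by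
  unfold gg
  rw [h]
  exact if_pos h2

theorem gg_lam_e {v : V} {k : Bool} {y : Fin 3} (h : c v = .inl (.lam k y))
    (h2 : ¬ ∃ m ∈ M, G.adj v m ∧ ∃ j, c m = .inr (.ap j)) : gg G c M v = .inl .e := by
  unfold gg
  rw [h]
  exact if_neg h2

theorem isInt_gg {v : V} (h : isInt (c v) = true) : isInt (gg G c M v) = false := by
  rcases h1 : c v with x | y
  · cases x with
    | o => rw [h1] at h; exact absurd h (by simp [isInt])
    | e => rw [h1] at h; exact absurd h (by simp [isInt])
    | a j => rw [h1] at h; exact absurd h (by simp [isInt])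
    | lam k y =>
      by_cases h2 : ∃ m ∈ M, G.adj v m ∧ ∃ j, c m = .inr (.ap j)
      · rw [gg_lam_o h1 h2]; rfl
      · rw [gg_lam_e h1 h2]; rfl
  · cases y with
    | o => rw [h1] at h; exact absurd h (by simp [isInt])
    | al j => rw [h1] at h; exact absurd h (by simp [isInt])
    | ap j => rw [h1] at h; exact absurd h (by simp [isInt])
    | b j => rw [gg_b h1]; rfl
    | tau x s =>
      by_cases h2 : ∃ w y, G.adj v w ∧ Cl G c M w ∧ c w = .inl (.lam true y)
      · rw [gg_tau_true h1 h2]; rfl
      · rw [gg_tau_false h1 h2]; rfl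

theorem isInt_cc {v : V} (h : isInt (cc G c M v) = true) : isInt (c v) = true ∧ Cl G c M v := by
  by_cases h1 : isInt (c v) = true ∧ ¬ Cl G c M v
  · rw [cc_changed h1, isInt_gg h1.1] at h
    exact absurd h (by simp)
  · rw [cc_kept h1] at h
    exact ⟨h, by
      by_contra h2
      exact h1 ⟨h, h2⟩⟩

/-- A vertex of side 1 is kept or gets a colour `al j`. -/
theorem cc_inr {w : V} {y : S1} (h : c w = .inr y) : cc G c M w = .inr y ∨
    ∃ j, cc G c M w = .inr (.al j) := by
  by_cases h1 : isInt (c w) = true ∧ ¬ Cl G c M w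
  · right
    rw [cc_changed h1]
    cases y with
    | o => rw [h] at h1; exact absurd h1.1 (by simp [isInt])
    | al j => rw [h] at h1; exact absurd h1.1 (by simp [isInt])
    | ap j => rw [h] at h1; exact absurd h1.1 (by simp [isInt])
    | b j => exact ⟨j, gg_b h⟩
    | tau x s =>
      by_cases h2 : ∃ w' y, G.adj w w' ∧ Cl G c M w' ∧ c w' = .inl (.lam true y)
      · exact ⟨true, gg_tau_true h h2⟩
      · exact ⟨false, gg_tau_false h h2⟩
  · left
    rw [cc_kept h1, h]

theorem cl_b {w : V} {j : Bool} (h : c w = .inr (.b j)) (hcl : Cl G c M w) : w ∈ M := by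
  cases hcl with
  | base _ h2 _ => exact h2
  | tau _ w w' x s y y' h2 => rw [h] at h2; cases h2
  | lamt _ m w k y x s h2 => rw [h] at h2; cases h2
  | lamb _ m m' k y h2 => rw [h] at h2; cases h2

theorem R_lam {k : Bool} {z : Fin 3} {y : S1} (h : R (.lam k z) y = true) :
    y = .al k ∨ y = .ap k ∨ y = .b k ∨ ∃ x s, y = .tau x s ∧ crd x s k = z := by
  cases y with
  | o => exact absurd h (by simp [R])
  | al j => left; simp only [R, beq_iff_eq] at h; rw [h]
  | ap j => right; left; simp only [R, beq_iff_eq] at h; rw [h]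
  | b j => right; right; left; simp only [R, beq_iff_eq] at h; rw [h]
  | tau x s => right; right; right; simp only [R, decide_eq_true_eq] at h; exact ⟨x, s, rfl, h⟩

theorem hadj_cc (hc : IsHom G HG c) (hap : ∀ v, v ∉ M → ∀ j, c v ≠ .inr (.ap j)) {v w : V}
    (hvw : G.adj v w) {x : S0} {y : S1} (hx : c v = .inl x) (hy : c w = .inr y) :
    hadj (cc G c M v) (cc G c M w) = true := by
  have hR : R x y = true := by
    have := hc v w hvw
    rw [hx, hy] at this
    exact this
  cases x with
  | o =>
    rw [cc_kept (v := v) (by rw [hx]; simp [isInt]), hx]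
    rcases cc_inr (G := G) (M := M) hy with h | ⟨j, h⟩ <;> rw [h]
    · exact hR
    · rfl
  | e =>
    rw [cc_kept (v := v) (by rw [hx]; simp [isInt]), hx]
    rcases cc_inr (G := G) (M := M) hy with h | ⟨j, h⟩ <;> rw [h]
    · exact hR
    · rfl
  | a i =>
    rw [cc_kept (v := v) (by rw [hx]; simp [isInt]), hx]
    rcases cc_inr (G := G) (M := M) hy with h | ⟨j, h⟩ <;> rw [h]
    · exact hR
    · rfl
  | lam k z =>
    by_cases hv : Cl G c M v
    · rw [cc_kept (v := v) (fun h => h.2 hv), hx]
      by_cases hw : isInt (c w) = true ∧ ¬ Cl G c M w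
      · rw [cc_changed hw]
        rcases R_lam hR with rfl | rfl | rfl | ⟨x', s', rfl, _⟩
        · rw [hy] at hw; exact absurd hw.1 (by simp [isInt])
        · rw [hy] at hw; exact absurd hw.1 (by simp [isInt])
        · rw [gg_b hy]
          simp [hadj, R]
        · by_cases h2 : ∃ w' y, G.adj w w' ∧ Cl G c M w' ∧ c w' = .inl (.lam true y)
          · rw [gg_tau_true hy h2]
            obtain ⟨w', y', h3, h4, h5⟩ := h2
            cases k with
            | true => rfl
            | false =>
              exact absurd (Cl.tau w v w' x' s' z y' hy (G.symm _ _ hvw) hv hx h3 h4 h5) hw.2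
          · rw [gg_tau_false hy h2]
            cases k with
            | true => exact absurd ⟨v, z, G.symm _ _ hvw, hv, hx⟩ h2
            | false => rfl
      · rw [cc_kept hw, hy]
        exact hR
    · have hvi : isInt (c v) = true := by rw [hx]; rfl
      rw [cc_changed (v := v) ⟨hvi, hv⟩]
      by_cases h1 : ∃ m ∈ M, G.adj v m ∧ ∃ j, c m = .inr (.ap j)
      · rw [gg_lam_o hx h1]
        obtain ⟨m, hm, hvm, j, hj⟩ := h1
        have hkj : c m = .inr (.ap k) := by
          have := hc v m hvm
          rw [hx, hj] at this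
          have h2 : R (.lam k z) (.ap j) = true := this
          simp only [R, beq_iff_eq] at h2
          rw [hj, h2]
        by_cases hw : isInt (c w) = true ∧ ¬ Cl G c M w
        · rcases cc_inr (G := G) (M := M) hy with h | ⟨j, h⟩
          · have h3 : isInt (cc G c M w) = true := by rw [h, ← hy]; exact hw.1
            exact absurd (isInt_cc h3).2 hw.2
          · rw [h]; rfl
        · rw [cc_kept hw, hy]
          rcases R_lam hR with rfl | rfl | rfl | ⟨x', s', rfl, _⟩
          · rfl
          · rfl
          · have hwc : Cl G c M w := by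
              by_contra h3
              exact hw ⟨by rw [hy]; rfl, h3⟩
            exact absurd (Cl.lamb v m w k z hx hvm hm hkj hvw (cl_b hy hwc) hy) hv
          · have hwc : Cl G c M w := by
              by_contra h3
              exact hw ⟨by rw [hy]; rfl, h3⟩
            exact absurd (Cl.lamt v m w k z x' s' hx hvm hm hkj hvw hwc hy) hv
      · rw [gg_lam_e hx h1]
        rcases cc_inr (G := G) (M := M) hy with h | ⟨j, h⟩ <;> rw [h]
        · rcases R_lam hR with rfl | rfl | rfl | ⟨x', s', rfl, _⟩
          · rfl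
          · exfalso
            apply h1
            refine ⟨w, ?_, hvw, k, hy⟩
            by_contra h3
            exact hap w h3 k hy
          · rfl
          · rfl
        · rfl

theorem isHom_cc (hc : IsHom G HG c) (hap : ∀ v, v ∉ M → ∀ j, c v ≠ .inr (.ap j)) :
    IsHom G HG (cc G c M) := by
  intro v w hvw
  rcases hadj_sides (hc v w hvw) with ⟨x, y, hx, hy⟩ | ⟨x, y, hy, hx⟩
  · exact hadj_cc hc hap hvw hx hy
  · exact HG.symm _ _ (hadj_cc hc hap (G.symm _ _ hvw) hx hy)

theorem cc_mem {v : V} (hv : v ∈ M) : cc G c M v = c v :=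
  cc_kept fun h => h.2 (Cl.base v hv h.1)

theorem wt_cc_lt [Fintype V] {v : V} (h1 : isInt (c v) = true) (h2 : ¬ Cl G c M v) :
    wt (cc G c M) < wt c := by
  classical
  unfold wt
  apply Finset.card_lt_card
  rw [Finset.ssubset_iff_of_subset]
  · refine ⟨v, Finset.mem_filter.2 ⟨Finset.mem_univ _, h1⟩, fun h => ?_⟩
    exact h2 (isInt_cc (Finset.mem_filter.1 h).2).2
  · intro w hw
    exact Finset.mem_filter.2 ⟨Finset.mem_univ _, (isInt_cc (Finset.mem_filter.1 hw).2).1⟩

end improve

/-- Job CR-1. -/
theorem exists_normal [Fintype V] (G : LG V) (h : ∃ c, Comp G c) :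
    ∃ (c : V → Vx) (M : Finset V), Normal G c M ∧ M.card ≤ 260 ∧
      ∀ c', Comp G c' → wt c ≤ wt c' := by
  classical
  have h0 : ∃ n, ∃ c, Comp G c ∧ wt c = n := by
    obtain ⟨c, hc⟩ := h
    exact ⟨wt c, c, hc, rfl⟩
  obtain ⟨c₀, hc₀, hn⟩ := Nat.find_spec h0
  have hmin : ∀ c', Comp G c' → wt c₀ ≤ wt c' := fun c' hc' => by
    rw [hn]
    exact Nat.find_min' h0 ⟨c', hc', rfl⟩
  obtain ⟨M, hM, hcov⟩ := exists_witnesses G c₀ hc₀
  set c : V → Vx := fun v => if v ∈ M then c₀ v else dn (c₀ v) with hcdef
  have hcM : ∀ v ∈ M, c v = c₀ v := fun v hv => if_pos hv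
  have hcN : ∀ v, v ∉ M → c v = dn (c₀ v) := fun v hv => if_neg hv
  have hInt : ∀ v, isInt (c v) = isInt (c₀ v) := by
    intro v
    by_cases hv : v ∈ M
    · rw [hcM v hv]
    · rw [hcN v hv, isInt_dn]
  have hwt : wt c = wt c₀ := by
    unfold wt
    simp only [hInt]
  have hhom : IsHom G HG c := by
    intro u v huv
    obtain ⟨h1, h2, h3⟩ := hadj_dn _ _ (hc₀.1 u v huv)
    by_cases hu : u ∈ M <;> by_cases hv : v ∈ M
    · rw [hcM u hu, hcM v hv]; exact hc₀.1 u v huv
    · rw [hcM u hu, hcN v hv]; exact h1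
    · rw [hcN u hu, hcM v hv]; exact h2
    · rw [hcN u hu, hcN v hv]; exact h3
  have hcov' : ∀ x y, R x y = true →
      ∃ u ∈ M, ∃ v ∈ M, G.adj u v ∧ c u = .inl x ∧ c v = .inr y := by
    intro x y hxy
    obtain ⟨u, hu, v, hv, h1, h2, h3⟩ := hcov x y hxy
    exact ⟨u, hu, v, hv, h1, by rw [hcM u hu, h2], by rw [hcM v hv, h3]⟩
  have hap : ∀ v, v ∉ M → ∀ j, c v ≠ .inr (.ap j) := by
    intro v hv j
    rw [hcN v hv]
    exact dn_ne _ _
  refine ⟨c, M, ⟨hhom, hcov', hap, fun v hv => ?_⟩, hM, fun c' hc' => hwt ▸ hmin c' hc'⟩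
  by_contra hcl
  have h1 := wt_cc_lt hv hcl
  have h2 : Comp G (cc G c M) := by
    refine ⟨isHom_cc hhom hap, fun x y hxy => ?_⟩
    obtain ⟨u, hu, w, hw, h3, h4, h5⟩ := hcov' x y hxy
    exact ⟨u, w, h3, by rw [cc_mem hu, h4], by rw [cc_mem hw, h5]⟩
  have h3 := hmin _ h2
  rw [← hwt] at h3
  omega

/-! ### Consequences -/

theorem hadj_symm (u v : Vx) (h : hadj u v = true) : hadj v u = true := HG.symm u v h

namespace Normal

variable {G : LG V} {c : V → Vx} {M : Finset V}

theorem comp (h : Normal G c M) : Comp G c :=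
  ⟨h.hom, fun x y hxy => by
    obtain ⟨u, _, v, _, h1, h2, h3⟩ := h.cov x y hxy
    exact ⟨u, v, h1, h2, h3⟩⟩

theorem b (h : Normal G c M) (v : V) (hv : v ∉ M) (j : Bool) : c v ≠ .inr (.b j) := by
  intro hb
  have h1 := h.cl v (by rw [hb]; rfl)
  cases h1 with
  | base _ h2 _ => exact hv h2
  | tau _ w w' x s y y' h2 => rw [hb] at h2; cases h2
  | lamt _ m w k y x s h2 => rw [hb] at h2; cases h2
  | lamb _ m m' k y h2 => rw [hb] at h2; cases h2

/-- A vertex of colour `lam k y` outside `M` has a neighbour in `M` of colour `ap k`. -/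
theorem lam_ap (h : Normal G c M) (v : V) (hv : v ∉ M) (k : Bool) (y : Fin 3)
    (hc : c v = .inl (.lam k y)) : ∃ m ∈ M, G.adj v m ∧ c m = .inr (.ap k) := by
  have h1 := h.cl v (by rw [hc]; rfl)
  cases h1 with
  | base _ h2 _ => exact absurd h2 hv
  | tau _ w w' x s y y' h2 => rw [hc] at h2; cases h2
  | lamt _ m w k' y x s h2 h3 h4 h5 =>
    rw [hc] at h2; cases h2
    exact ⟨m, h4, h3, h5⟩
  | lamb _ m m' k' y h2 h3 h4 h5 =>
    rw [hc] at h2; cases h2
    exact ⟨m, h4, h3, h5⟩

/-- A vertex of colour `tau` outside `M` has neighbours of colours `lam false` and `lam true`. -/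
theorem tau_sees (h : Normal G c M) (v : V) (hv : v ∉ M) (x : Fin 3) (s : Bool)
    (hc : c v = .inr (.tau x s)) (k : Bool) : ∃ w, G.adj v w ∧ c w = .inl (.lam k (crd x s k)) := by
  have h1 := h.cl v (by rw [hc]; rfl)
  have key : ∀ w k y, G.adj v w → c w = .inl (.lam k y) → c w = .inl (.lam k (crd x s k)) := by
    intro w k y hw hcw
    have := h.hom v w hw
    rw [hc, hcw] at this
    change hadj (.inr (.tau x s)) (.inl (.lam k y)) = true at this
    simp only [hadj, R, decide_eq_true_eq] at this
    rw [hcw, this]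
  cases h1 with
  | base _ h2 _ => exact absurd h2 hv
  | tau _ w w' x' s' y y' h2 h3 h4 h5 h6 h7 h8 =>
    cases k
    · exact ⟨w, h3, key w _ _ h3 h5⟩
    · exact ⟨w', h6, key w' _ _ h6 h8⟩
  | lamt _ m w k y x s h2 => rw [hc] at h2; cases h2
  | lamb _ m m' k y h2 => rw [hc] at h2; cases h2

end Normal

end Pool.Agent.H62.CR
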