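import Pool.Agent.H62.CR.OTM

/-!
# Simulation of an oracle machine on coded configurations: definitions

A coded configuration is the number of the state together with the list of the coded tapes; a coded
tape is a pair `(l, r)` of lists of codes of cells: `l` are the cells to the left of the head (read
towards the left), `r` are the cells from the head on (read towards the right), both followed by
blanks. The code of a blank is `0`.
-/

namespace Pool.Agent.H62.CR

open Pool.Agent.PPS

namespace OSim

variable (M : OTM)

/-- Number of a state. -/
noncomputable def eQ : M.Q ≃ Fin (Nat.card M.Q) := Finite.equivFin M.Q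

/-- Number of a tape. -/
noncomputable def eK : M.K ≃ Fin (Nat.card M.K) := Finite.equivFin M.K

/-- Number of a symbol. -/
noncomputable def eG : M.Γ ≃ Fin (Nat.card M.Γ) := Finite.equivFin M.Γ

/-- Code of a cell. -/
noncomputable def cc : Option M.Γ → ℕ
  | none => 0
  | some g => (eG M g).val + 1

/-- Code of a move. -/
def mc : Move → ℕ
  | .left => 0
  | .stay => 1
  | .right => 2

/-- The list of the values of a function on the tapes. -/
noncomputable def lst {β : Type} (f : M.K → β) : List β :=
  List.ofFn fun i : Fin (Nat.card M.K) => f ((eK M).symm i)

/-- A coded tape. -/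
abbrev TP := List ℕ × List ℕ

/-- A coded configuration. -/
abbrev SS := ℕ × List TP

/-- Write `a.1` and move by `a.2`. -/
def act (a : ℕ × ℕ) (t : TP) : TP :=
  if a.2 = 0 then (t.1.tail, t.1.headD 0 :: a.1 :: t.2.tail)
  else if a.2 = 1 then (t.1, a.1 :: t.2.tail)
  else (a.1 :: t.1, t.2.tail)

open Classical in
/-- The coded transition table. -/
noncomputable def tbl : List ((ℕ × List ℕ) × (ℕ × List (ℕ × ℕ))) :=
  letI : Fintype M.K := Fintype.ofFinite _
  letI : Fintype M.Γ := Fintype.ofFinite _
  letI : Fintype M.Q := Fintype.ofFinite _
  (Finset.univ : Finset (M.Q × (M.K → Option M.Γ))).toList.flatMap fun e =>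
    match M.δ e.1 e.2 with
    | none => []
    | some r => [(((eQ M e.1).val, lst M fun k => cc M (e.2 k)),
        ((eQ M r.1).val, lst M fun k => (cc M (r.2 k).1, mc (r.2 k).2)))]

open Classical in
/-- The coded table of the query states. -/
noncomputable def atbl : List (ℕ × (ℕ × ℕ)) :=
  letI : Fintype M.Q := Fintype.ofFinite _
  (Finset.univ : Finset M.Q).toList.flatMap fun q =>
    match M.ask q with
    | none => []
    | some r => [((eQ M q).val, ((eQ M r.1).val, (eQ M r.2).val))]

/-- The codes up to the first blank. -/
def tw (l : List ℕ) : List ℕ := l.foldr (fun a t => if a = 0 then [] else a :: t) []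

/-- The code of a bit. -/
noncomputable def bc (b : Bool) : ℕ := cc M (some (M.bit b))

/-- The answer of the oracle (with characteristic function `dA`) to the coded query tape `t`. -/
noncomputable def ans (dA : List Bool → Bool) (t : TP) : Bool :=
  ((tw t.2).all fun a => decide (a = bc M false) || decide (a = bc M true)) &&
    dA ((tw t.2).map fun a => decide (a = bc M true))

/-- One step on coded configurations; a halted configuration stays. -/
noncomputable def stepS (dA : List Bool → Bool) (s : SS) : SS :=
  if decide ((atbl M).filter (fun e => decide (e.1 = s.1)) = []) then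
    (if decide ((tbl M).filter (fun e => decide (e.1 = (s.1, s.2.map fun t => t.2.headD 0))) = [])
      then s
      else
        ((((tbl M).filter (fun e =>
          decide (e.1 = (s.1, s.2.map fun t => t.2.headD 0)))).headD ((0, []), (0, []))).2.1,
        (List.range (Nat.card M.K)).map fun i =>
          act ((((tbl M).filter (fun e =>
            decide (e.1 = (s.1, s.2.map fun t => t.2.headD 0)))).headD
              ((0, []), (0, []))).2.2.getD i (0, 1)) (s.2.getD i ([], []))))
  else (if ans M dA (s.2.getD (eK M M.qt).val ([], [])) then
      (((atbl M).filter (fun e => decide (e.1 = s.1))).headD (0, (0, 0))).2.1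
    else (((atbl M).filter (fun e => decide (e.1 = s.1))).headD (0, (0, 0))).2.2, s.2)

/-- The coded initial configuration. -/
noncomputable def iniS (x : List Bool) : SS :=
  ((eQ M M.start).val, (List.range (Nat.card M.K)).map fun i =>
    (([], if decide (i = (eK M M.io).val) then x.map fun b => if b then bc M true else bc M false
      else []) : TP))

/-- The numbers of the accepting states. -/
noncomputable def accS : List ℕ :=
  letI : Fintype M.Q := Fintype.ofFinite _
  ((Finset.univ : Finset M.Q).toList.filter fun q => M.accept q).map fun q => (eQ M q).val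

/-- `t` codes the tape `f` with the head at `h`. -/
def TRel (f : ℤ → Option M.Γ) (h : ℤ) (t : TP) : Prop :=
  (∀ i : ℕ, t.1.getD i 0 = cc M (f (h - 1 - i))) ∧ ∀ i : ℕ, t.2.getD i 0 = cc M (f (h + i))

/-- `s` codes the configuration `c`. -/
def CRel (c : M.Cfg) (s : SS) : Prop :=
  s.1 = (eQ M c.state).val ∧ s.2.length = Nat.card M.K ∧
    ∀ k : M.K, TRel M (c.tape k) (c.head k) (s.2.getD (eK M k).val ([], []))

end OSim

end Pool.Agent.H62.CR
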