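import Pool.Agent.H62.CR.OSim

/-!
# Job CR-15: the coded steps simulate the oracle machine
-/

namespace Pool.Agent.H62.CR

open Pool.Agent.PPS

namespace OSim

variable (M : OTM)

/-! ### Codes -/

lemma cc_none : cc M none = 0 := rfl

lemma cc_some_ne (g : M.Γ) : cc M (some g) ≠ 0 := Nat.succ_ne_zero _

lemma cc_inj {a b : Option M.Γ} (h : cc M a = cc M b) : a = b := by
  cases a with
  | none =>
    cases b with
    | none => rfl
    | some g => exact absurd h.symm (cc_some_ne M g)
  | some g =>
    cases b with
    | none => exact absurd h (cc_some_ne M g)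
    | some g' =>
      have h2 : (eG M g).val + 1 = (eG M g').val + 1 := h
      have h3 : eG M g = eG M g' := Fin.ext (by omega)
      rw [(eG M).injective h3]

lemma bc_inj {a b : Bool} (h : bc M a = bc M b) : a = b :=
  M.bit_inj (Option.some_injective _ (cc_inj M h))

lemma lst_length {β : Type} (f : M.K → β) : (lst M f).length = Nat.card M.K := by
  unfold lst
  rw [List.length_ofFn]

lemma lst_getD {β : Type} (f : M.K → β) (k : M.K) (d : β) :
    (lst M f).getD (eK M k).val d = f k := by
  unfold lst
  rw [List.getD_eq_getElem _ _ (by rw [List.length_ofFn]; exact (eK M k).isLt), List.getElem_ofFn]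
  congr 1
  exact (eK M).symm_apply_apply k

lemma lst_inj {β : Type} {f g : M.K → β} (h : lst M f = lst M g) : f = g := by
  funext k
  rw [← lst_getD M f k (f k), h, lst_getD]

lemma range_getD {β : Type} (f : ℕ → β) (n i : ℕ) (hi : i < n) (d : β) :
    ((List.range n).map f).getD i d = f i := by
  rw [List.getD_eq_getElem _ _ (by simpa using hi), List.getElem_map, List.getElem_range]

lemma cc_comp_inj {f g : M.K → Option M.Γ} (h : (lst M fun k => cc M (f k)) =
    lst M fun k => cc M (g k)) : f = g := by
  have h2 := lst_inj M h
  funext k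
  exact cc_inj M (congrFun h2 k)

/-! ### The tables -/

lemma mem_univ_aux {α : Type} (i : Fintype α) (a : α) : a ∈ @Finset.univ α i :=
  @Finset.mem_univ α i a

lemma mem_tbl {e : (ℕ × List ℕ) × (ℕ × List (ℕ × ℕ))} : e ∈ tbl M ↔
    ∃ (q : M.Q) (f : M.K → Option M.Γ) (r : M.Q × (M.K → Option M.Γ × Move)), M.δ q f = some r ∧
      e = (((eQ M q).val, lst M fun k => cc M (f k)),
        ((eQ M r.1).val, lst M fun k => (cc M (r.2 k).1, mc (r.2 k).2))) := by
  unfold tbl
  rw [List.mem_flatMap]
  constructor
  · rintro ⟨⟨q, f⟩, _, h⟩
    dsimp only at h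
    split at h
    · simp at h
    · rename_i r hr
      rw [List.mem_singleton] at h
      exact ⟨q, f, r, hr, h⟩
  · rintro ⟨q, f, r, hr, rfl⟩
    refine ⟨(q, f), ?_, ?_⟩
    · rw [Finset.mem_toList]
      exact mem_univ_aux _ _
    · dsimp only
      rw [hr]
      exact List.mem_singleton.2 rfl

lemma mem_atbl {e : ℕ × (ℕ × ℕ)} : e ∈ atbl M ↔
    ∃ (q : M.Q) (r : M.Q × M.Q), M.ask q = some r ∧
      e = ((eQ M q).val, ((eQ M r.1).val, (eQ M r.2).val)) := by
  unfold atbl
  rw [List.mem_flatMap]
  constructor
  · rintro ⟨q, _, h⟩
    split at h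
    · simp at h
    · rename_i r hr
      rw [List.mem_singleton] at h
      exact ⟨q, r, hr, h⟩
  · rintro ⟨q, r, hr, rfl⟩
    refine ⟨q, ?_, ?_⟩
    · rw [Finset.mem_toList]
      exact mem_univ_aux _ _
    · rw [hr]
      exact List.mem_singleton.2 rfl

lemma headD_eq {β : Type} {l : List β} {e d : β} (h1 : e ∈ l) (h2 : ∀ x ∈ l, x = e) :
    l.headD d = e := by
  cases l with
  | nil => simp at h1
  | cons a t => exact h2 a (by simp)

lemma tbl_none {q : M.Q} {f : M.K → Option M.Γ} (h : M.δ q f = none) :
    (tbl M).filter (fun e => decide (e.1 = ((eQ M q).val, lst M fun k => cc M (f k)))) = [] := by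
  rw [List.filter_eq_nil_iff]
  intro e he hd
  obtain ⟨q', f', r, hr, rfl⟩ := (mem_tbl M).1 he
  have h1 := of_decide_eq_true hd
  rw [Prod.mk.injEq] at h1
  have h2 : q' = q := (eQ M).injective (Fin.ext h1.1)
  have h3 : f' = f := cc_comp_inj M h1.2
  subst h2 h3
  rw [h] at hr
  exact absurd hr (by simp)

lemma tbl_some {q : M.Q} {f : M.K → Option M.Γ} {r : M.Q × (M.K → Option M.Γ × Move)}
    (h : M.δ q f = some r) :
    (tbl M).filter (fun e => decide (e.1 = ((eQ M q).val, lst M fun k => cc M (f k)))) ≠ [] ∧
    ∀ d, ((tbl M).filter (fun e => decide (e.1 = ((eQ M q).val, lst M fun k => cc M (f k))))).headD d =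
      (((eQ M q).val, lst M fun k => cc M (f k)),
        ((eQ M r.1).val, lst M fun k => (cc M (r.2 k).1, mc (r.2 k).2))) := by
  have hmem : (((eQ M q).val, lst M fun k => cc M (f k)),
      ((eQ M r.1).val, lst M fun k => (cc M (r.2 k).1, mc (r.2 k).2))) ∈
      (tbl M).filter (fun e => decide (e.1 = ((eQ M q).val, lst M fun k => cc M (f k)))) := by
    rw [List.mem_filter]
    exact ⟨(mem_tbl M).2 ⟨q, f, r, h, rfl⟩, decide_eq_true rfl⟩
  refine ⟨fun h0 => ?_, fun d => headD_eq hmem ?_⟩
  · rw [h0] at hmem
    simp at hmem
  · intro x hx
    rw [List.mem_filter] at hx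
    obtain ⟨q', f', r', hr', rfl⟩ := (mem_tbl M).1 hx.1
    have h1 := of_decide_eq_true hx.2
    rw [Prod.mk.injEq] at h1
    have h2 : q' = q := (eQ M).injective (Fin.ext h1.1)
    have h3 : f' = f := cc_comp_inj M h1.2
    subst h2 h3
    rw [h] at hr'
    rw [Option.some_injective _ hr']

lemma atbl_none {q : M.Q} (h : M.ask q = none) :
    (atbl M).filter (fun e => decide (e.1 = (eQ M q).val)) = [] := by
  rw [List.filter_eq_nil_iff]
  intro e he hd
  obtain ⟨q', r, hr, rfl⟩ := (mem_atbl M).1 he
  have h1 := of_decide_eq_true hd
  have h2 : q' = q := (eQ M).injective (Fin.ext h1)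
  subst h2
  rw [h] at hr
  exact absurd hr (by simp)

lemma atbl_some {q : M.Q} {r : M.Q × M.Q} (h : M.ask q = some r) :
    (atbl M).filter (fun e => decide (e.1 = (eQ M q).val)) ≠ [] ∧
    ∀ d, ((atbl M).filter (fun e => decide (e.1 = (eQ M q).val))).headD d =
      ((eQ M q).val, ((eQ M r.1).val, (eQ M r.2).val)) := by
  have hmem : ((eQ M q).val, ((eQ M r.1).val, (eQ M r.2).val)) ∈
      (atbl M).filter (fun e => decide (e.1 = (eQ M q).val)) := by
    rw [List.mem_filter]
    exact ⟨(mem_atbl M).2 ⟨q, r, h, rfl⟩, decide_eq_true rfl⟩
  refine ⟨fun h0 => ?_, fun d => headD_eq hmem ?_⟩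
  · rw [h0] at hmem
    simp at hmem
  · intro x hx
    rw [List.mem_filter] at hx
    obtain ⟨q', r', hr', rfl⟩ := (mem_atbl M).1 hx.1
    have h1 := of_decide_eq_true hx.2
    have h2 : q' = q := (eQ M).injective (Fin.ext h1)
    subst h2
    rw [h] at hr'
    rw [Option.some_injective _ hr']

/-! ### Tapes -/

lemma tail_getD (l : List ℕ) (i : ℕ) : l.tail.getD i 0 = l.getD (i + 1) 0 := by
  cases l with
  | nil => simp
  | cons a t => simp

lemma headD_getD (l : List ℕ) : l.headD 0 = l.getD 0 0 := by
  cases l with
  | nil => rfl
  | cons a t => rfl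

lemma trel_act {f : ℤ → Option M.Γ} {h : ℤ} {t : TP} (ht : TRel M f h t) (a : Option M.Γ)
    (mv : Move) :
    TRel M (Function.update f h a) (h + mv.toInt) (act (cc M a, mc mv) t) := by
  obtain ⟨h1, h2⟩ := ht
  cases mv with
  | left =>
    refine ⟨fun i => ?_, fun i => ?_⟩
    · change t.1.tail.getD i 0 = _
      rw [tail_getD, h1, Function.update_of_ne (by simp only [Move.toInt]; omega)]
      exact congrArg (fun z => cc M (f z)) (by simp only [Move.toInt]; omega)
    · change (t.1.headD 0 :: cc M a :: t.2.tail).getD i 0 = _
      rcases i with _ | _ | i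
      · rw [List.getD_cons_zero, headD_getD, h1,
          Function.update_of_ne (by simp only [Move.toInt]; omega)]
        exact congrArg (fun z => cc M (f z)) (by simp only [Move.toInt]; omega)
      · rw [List.getD_cons_succ, List.getD_cons_zero]
        have : h + Move.toInt .left + ((0 + 1 : ℕ) : ℤ) = h := by
          simp only [Move.toInt]
          omega
        rw [this, Function.update_self]
      · rw [List.getD_cons_succ, List.getD_cons_succ, tail_getD, h2,
          Function.update_of_ne (by simp only [Move.toInt]; omega)]
        exact congrArg (fun z => cc M (f z)) (by simp only [Move.toInt]; omega)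
  | stay =>
    refine ⟨fun i => ?_, fun i => ?_⟩
    · change t.1.getD i 0 = _
      rw [h1, Function.update_of_ne (by simp only [Move.toInt]; omega)]
      exact congrArg (fun z => cc M (f z)) (by simp only [Move.toInt]; omega)
    · change (cc M a :: t.2.tail).getD i 0 = _
      rcases i with _ | i
      · rw [List.getD_cons_zero]
        have : h + Move.toInt .stay + ((0 : ℕ) : ℤ) = h := by
          simp only [Move.toInt]
          omega
        rw [this, Function.update_self]
      · rw [List.getD_cons_succ, tail_getD, h2,
          Function.update_of_ne (by simp only [Move.toInt]; omega)]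
        exact congrArg (fun z => cc M (f z)) (by simp only [Move.toInt]; omega)
  | right =>
    refine ⟨fun i => ?_, fun i => ?_⟩
    · change (cc M a :: t.1).getD i 0 = _
      rcases i with _ | i
      · rw [List.getD_cons_zero]
        have : h + Move.toInt .right - 1 - ((0 : ℕ) : ℤ) = h := by
          simp only [Move.toInt]
          omega
        rw [this, Function.update_self]
      · rw [List.getD_cons_succ, h1, Function.update_of_ne (by simp only [Move.toInt]; omega)]
        exact congrArg (fun z => cc M (f z)) (by simp only [Move.toInt]; omega)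
    · change t.2.tail.getD i 0 = _
      rw [tail_getD, h2, Function.update_of_ne (by simp only [Move.toInt]; omega)]
      exact congrArg (fun z => cc M (f z)) (by simp only [Move.toInt]; omega)

/-- Job CR-15a. `iniS M x` codes the initial configuration. -/
theorem crel_ini (x : List Bool) : CRel M (M.init x) (iniS M x) := by
  refine ⟨rfl, ?_, fun k => ?_⟩
  · unfold iniS
    rw [List.length_map, List.length_range]
  · unfold iniS
    dsimp only
    rw [range_getD _ _ _ (eK M k).isLt]
    by_cases hk : k = M.io
    · have h1 : (M.init x).tape k = M.word x := by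
        unfold TM.init
        dsimp only
        rw [if_pos hk]
      have h2 : (M.init x).head k = 0 := rfl
      rw [h1, h2, hk, if_pos (decide_eq_true rfl)]
      refine ⟨fun i => ?_, fun i => ?_⟩
      · unfold TM.word
        rw [if_neg (by omega)]
        simp [cc_none]
      · unfold TM.word
        rw [if_pos (by omega)]
        have h3 : (0 + (i : ℤ)).toNat = i := by omega
        rw [h3]
        dsimp only
        rw [List.getD_eq_getElem?_getD, List.getElem?_map]
        cases hx : x[i]? with
        | none => rfl
        | some b => cases b <;> rfl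
    · have h1 : (M.init x).tape k = fun _ => none := by
        unfold TM.init
        dsimp only
        rw [if_neg hk]
      have h2 : ¬ (decide ((eK M k).val = (eK M M.io).val) = true) := by
        intro h
        exact hk ((eK M).injective (Fin.ext (of_decide_eq_true h)))
      rw [h1, if_neg h2]
      exact ⟨fun i => by simp [cc_none], fun i => by simp [cc_none]⟩

lemma tw_iff (l : List ℕ) (w : List Bool) :
    tw l = w.map (bc M) ↔ ∀ i ≤ w.length, l.getD i 0 = cc M ((w[i]?).map M.bit) := by
  induction l generalizing w with
  | nil =>
    cases w with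
    | nil =>
      refine ⟨fun _ i _ => by simp [cc_none], fun _ => rfl⟩
    | cons b w =>
      refine ⟨fun h => absurd h (by simp [tw]), fun h => ?_⟩
      have := h 0 (Nat.zero_le _)
      simp only [List.getElem?_cons_zero, Option.map_some] at this
      exact absurd this.symm (cc_some_ne M _)
  | cons a l ih =>
    have htw : tw (a :: l) = if a = 0 then [] else a :: tw l := rfl
    rw [htw]
    by_cases ha : a = 0
    · rw [if_pos ha]
      cases w with
      | nil =>
        refine ⟨fun _ i hi => ?_, fun _ => rfl⟩
        have hi0 : i = 0 := by simpa using hi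
        subst hi0
        simp [cc_none, ha]
      | cons b w =>
        refine ⟨fun h => absurd h (by simp), fun h => ?_⟩
        have := h 0 (Nat.zero_le _)
        simp only [List.getElem?_cons_zero, Option.map_some, List.getD_cons_zero] at this
        rw [ha] at this
        exact absurd this.symm (cc_some_ne M _)
    · rw [if_neg ha]
      cases w with
      | nil =>
        refine ⟨fun h => absurd h (by simp), fun h => ?_⟩
        have := h 0 (Nat.zero_le _)
        simp only [List.getElem?_nil, Option.map_none, List.getD_cons_zero] at this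
        exact absurd this ha
      | cons b w =>
        rw [List.map_cons, List.cons.injEq, ih]
        constructor
        · rintro ⟨h1, h2⟩ i hi
          rcases i with _ | i
          · simpa [bc] using h1
          · rw [List.getD_cons_succ, h2 i (by simpa using hi)]
            rfl
        · intro h
          refine ⟨?_, fun i hi => ?_⟩
          · simpa [bc] using h 0 (Nat.zero_le _)
          · have := h (i + 1) (by simpa using hi)
            rw [List.getD_cons_succ] at this
            rw [this]
            rfl

lemma asks_iff {c : M.Cfg} {t : TP} (h : TRel M (c.tape M.qt) (c.head M.qt) t) (w : List Bool) :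
    M.Asks c w ↔ tw t.2 = w.map (bc M) := by
  rw [tw_iff]
  unfold OTM.Asks
  refine forall_congr' fun i => forall_congr' fun _ => ?_
  rw [h.2 i]
  exact ⟨fun h => by rw [h], fun h => cc_inj M h⟩

open Classical in
/-- Job CR-15b. The coded answer is the answer. The codes of cells are injective. If some word `w`
is asked (`OTM.Asks`), then the codes up to the first blank are the codes of the bits of `w`;
otherwise they are not all codes of bits, and no word is asked. -/
theorem ans_eq (A : Set (List Bool)) (c : M.Cfg) (s : SS) (h : CRel M c s) :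
    ans M (fun w => decide (w ∈ A)) (s.2.getD (eK M M.qt).val ([], [])) =
      decide (∃ w ∈ A, M.Asks c w) := by
  have ht := h.2.2 M.qt
  set t := s.2.getD (eK M M.qt).val ([], []) with htdef
  rw [Bool.eq_iff_iff, decide_eq_true_iff]
  unfold ans
  rw [Bool.and_eq_true, decide_eq_true_iff, List.all_eq_true]
  constructor
  · rintro ⟨h1, h2⟩
    refine ⟨_, h2, ?_⟩
    rw [asks_iff M ht, List.map_map]
    symm
    have h3 : ∀ a ∈ tw t.2, ((bc M) ∘ fun a => decide (a = bc M true)) a = a := by
      intro a ha
      have h4 := h1 a ha
      rw [Bool.or_eq_true, decide_eq_true_iff, decide_eq_true_iff] at h4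
      rw [Function.comp_apply]
      by_cases h5 : a = bc M true
      · rw [decide_eq_true h5, h5]
      · rw [decide_eq_false h5, h4.resolve_right h5]
    exact (List.map_congr_left h3).trans (List.map_id' _)
  · rintro ⟨w, hw, hA⟩
    rw [asks_iff M ht] at hA
    rw [hA]
    refine ⟨fun a ha => ?_, ?_⟩
    · obtain ⟨b, _, rfl⟩ := List.mem_map.1 ha
      rw [Bool.or_eq_true, decide_eq_true_iff, decide_eq_true_iff]
      cases b
      · exact Or.inl rfl
      · exact Or.inr rfl
    · rw [List.map_map]
      have h3 : ∀ b ∈ w, ((fun a => decide (a = bc M true)) ∘ bc M) b = b := by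
        intro b _
        rw [Function.comp_apply]
        cases b
        · exact decide_eq_false fun h => absurd (bc_inj M h) (by simp)
        · exact decide_eq_true rfl
      rw [(List.map_congr_left h3).trans (List.map_id' _)]
      exact hw

lemma heads_eq {c : M.Cfg} {s : SS} (h : CRel M c s) :
    (s.2.map fun t => t.2.headD 0) = lst M fun k => cc M (c.tape k (c.head k)) := by
  apply List.ext_getElem
  · rw [List.length_map, lst_length, h.2.1]
  · intro i h1 h2
    rw [List.length_map] at h1
    rw [List.getElem_map]
    have h3 : i < Nat.card M.K := by rw [← h.2.1]; exact h1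
    obtain ⟨k, hk⟩ := (eK M).surjective ⟨i, h3⟩
    have h4 : (eK M k).val = i := by rw [hk]
    have h5 := h.2.2 k
    rw [h4, List.getD_eq_getElem _ _ h1] at h5
    have h6 := h5.2 0
    rw [headD_getD, h6]
    have h7 : (lst M fun k => cc M (c.tape k (c.head k))).getD i 0 =
        cc M (c.tape k (c.head k)) := by
      rw [← h4, lst_getD]
    rw [← List.getD_eq_getElem _ 0 h2, h7]
    exact congrArg (fun z => cc M (c.tape k z)) (by omega)

open Classical in
/-- Job CR-15c. One step. -/
theorem crel_step (A : Set (List Bool)) (c : M.Cfg) (s : SS) (h : CRel M c s) :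
    CRel M ((M.stepO A c).getD c) (stepS M (fun w => decide (w ∈ A)) s) := by
  unfold stepS
  rw [heads_eq M h, h.1]
  cases hask : M.ask c.state with
  | some r =>
    have h1 := atbl_some M hask
    rw [if_neg (by rw [decide_eq_true_iff]; exact h1.1), h1.2]
    have h2 : M.stepO A c =
        some { c with state := if ∃ w ∈ A, M.Asks c w then r.1 else r.2 } := by
      unfold OTM.stepO
      rw [hask]
    rw [h2, Option.getD_some]
    refine ⟨?_, h.2.1, h.2.2⟩
    dsimp only
    rw [ans_eq M A c s h]
    by_cases h3 : ∃ w ∈ A, M.Asks c w
    · rw [if_pos (decide_eq_true h3), if_pos h3]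
    · rw [if_neg (by rw [decide_eq_true_iff]; exact h3), if_neg h3]
  | none =>
    rw [if_pos (decide_eq_true (atbl_none M hask))]
    have h2 : M.stepO A c = M.step c := by
      unfold OTM.stepO
      rw [hask]
    rw [h2]
    cases hδ : M.δ c.state (fun k => c.tape k (c.head k)) with
    | none =>
      rw [if_pos (decide_eq_true (tbl_none M hδ))]
      have h3 : M.step c = none := by
        unfold TM.step
        rw [hδ]
        rfl
      rw [h3, Option.getD_none]
      exact h
    | some r =>
      have h1 := tbl_some M hδ
      rw [if_neg (by rw [decide_eq_true_iff]; exact h1.1), h1.2]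
      have h3 : M.step c = some
          { state := r.1
            head := fun k => c.head k + (r.2 k).2.toInt
            tape := fun k => Function.update (c.tape k) (c.head k) (r.2 k).1 } := by
        unfold TM.step
        rw [hδ]
        rfl
      rw [h3, Option.getD_some]
      refine ⟨rfl, ?_, fun k => ?_⟩
      · dsimp only
        rw [List.length_map, List.length_range]
      · dsimp only
        rw [range_getD _ _ _ (eK M k).isLt, lst_getD]
        exact trel_act M (h.2.2 k) _ _

open Classical in
/-- The coded configuration after `n` steps. -/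
theorem crel_conf (A : Set (List Bool)) (x : List Bool) (n : ℕ) :
    CRel M (M.confO A x n) ((stepS M (fun w => decide (w ∈ A)))^[n] (iniS M x)) := by
  induction n with
  | zero => exact crel_ini M x
  | succ n ih =>
    unfold OTM.confO at ih ⊢
    rw [Function.iterate_succ_apply', Function.iterate_succ_apply']
    exact crel_step M A _ _ ih

/-- Job CR-15d. Accepting states. -/
theorem mem_accS (q : M.Q) : (eQ M q).val ∈ accS M ↔ M.accept q = true := by
  unfold accS
  rw [List.mem_map]
  constructor
  · rintro ⟨q', h1, h2⟩
    have h3 : q' = q := (eQ M).injective (Fin.ext h2)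
    rw [List.mem_filter] at h1
    rw [← h3]
    exact h1.2
  · intro h
    refine ⟨q, ?_, rfl⟩
    rw [List.mem_filter, Finset.mem_toList]
    refine ⟨?_, h⟩
    exact mem_univ_aux _ _

end OSim

end Pool.Agent.H62.CR
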