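import Pool.Agent.PPS.Defs

/-!
# Oracle Turing machines and polynomial-time Turing reductions
-/

namespace Pool.Agent.H62.CR

open Pool.Agent.PPS

/-- An oracle Turing machine: a deterministic multitape Turing machine with a query tape `qt` and
query states. `ask q = some (y, n)` means that `q` is a query state: in this state the machine asks
whether the word that stands on the query tape, from the head on up to the next blank, is in the
oracle, and goes to the state `y` if the answer is yes and to the state `n` otherwise. -/
structure OTM extends TM where
  /-- the query tape -/
  qt : K
  /-- the query states, with the next states for the answers yes and no -/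
  ask : Q → Option (Q × Q)

namespace OTM

variable (M : OTM) (A : Set (List Bool))

/-- In the configuration `c` the word `w` stands on the query tape, from the head on, followed by a
blank. -/
def Asks (c : M.Cfg) (w : List Bool) : Prop :=
  ∀ i : ℕ, i ≤ w.length → c.tape M.qt (c.head M.qt + i) = (w[i]?).map M.bit

open Classical in
/-- One step with the oracle `A`; `none` if the machine has halted. A query is one step. -/
noncomputable def stepO (c : M.Cfg) : Option M.Cfg :=
  match M.ask c.state with
  | some r => some { c with state := if ∃ w ∈ A, M.Asks c w then r.1 else r.2 }
  | none => M.step c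

/-- The configuration reached after `n` steps on input `x` (a halted machine stays where it is). -/
noncomputable def confO (x : List Bool) (n : ℕ) : M.Cfg :=
  (fun c => (M.stepO A c).getD c)^[n] (M.init x)

/-- On input `x` the machine has halted after `n` steps. -/
def HaltedO (x : List Bool) (n : ℕ) : Prop := M.stepO A (M.confO A x n) = none

/-- The machine with the oracle `A` decides the language `L`: it halts on every input `x`, in an
accepting state iff `x ∈ L`. -/
def DecidesO (L : Set (List Bool)) : Prop :=
  ∀ x, ∃ n, M.HaltedO A x n ∧ (M.accept (M.confO A x n).state = true ↔ x ∈ L)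

/-- The machine with the oracle `A` halts on every input `x` within `t |x|` steps. -/
def TimeO (t : ℕ → ℕ) : Prop := ∀ x, M.HaltedO A x (t x.length)

end OTM

/-- `L` is reducible to `A` by a polynomial-time Turing reduction: some oracle Turing machine with
the oracle `A` decides `L` in polynomial time. -/
def TRed (L A : Set (List Bool)) : Prop :=
  ∃ (M : OTM) (p : Polynomial ℕ), M.DecidesO A L ∧ M.TimeO A fun n => p.eval n

/-- `L` and `A` are polynomially equivalent. -/
def PolyEquiv (L A : Set (List Bool)) : Prop := TRed L A ∧ TRed A L

/-- A language in `P` is reducible to every language. -/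
theorem tred_of_mem_P {L : Set (List Bool)} (h : L ∈ P) (A : Set (List Bool)) : TRed L A := by
  obtain ⟨M, p, h1, h2⟩ := h
  let N : OTM := { M with qt := M.io, ask := fun _ => none }
  have hs : ∀ c : N.Cfg, N.stepO A c = N.toTM.step c := fun c => rfl
  have hc : ∀ x n, N.confO A x n = M.conf x n := by
    intro x n
    unfold OTM.confO TM.conf TM.run
    rfl
  refine ⟨N, p, fun x => ?_, fun x => ?_⟩
  · obtain ⟨n, h3, h4⟩ := h1 x
    refine ⟨n, ?_, ?_⟩
    · unfold OTM.HaltedO
      rw [hc]
      exact h3
    · rw [hc]
      exact h4
  · unfold OTM.HaltedO
    rw [hc]
    exact h2 x

end Pool.Agent.H62.CR
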