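import Pool.Agent.H62.CR.Comps

/-!
# Job CR-3: the release lemma

Data: a set `D` of sites `u` (candidates which are pairwise independent: no `lam`-neighbour of one
is in the component of a `lam`-neighbour of the other), with a type `ty u`, a new colour
`inr (host u)` and a new colour `inl (des u)` for the neighbours of `u` of the colours
`lam (!ty u) _` (call them T-vertices of `u`).

Kept vertices `Kp`: see the inductive definition. Define `c1`:
* sites `u` get `inr (host u)`;
* `Kp` vertices keep their colour;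
* `b j` becomes `al j`; if `tot` then `ap j` becomes `al j`;
* a vertex of colour `tau`, not a site and not `Kp`, becomes `al true` if it has a neighbour
  `w` with `Kp w` of colour `lam true _`, and `al false` otherwise;
* a vertex `v` of colour `lam k y`, not `Kp`: if `v` is adjacent to a site `u` (then it is a
  T-vertex of `u`, and `u` is the only site adjacent to `v` by `indep`), it gets `inl (des u)`;
  otherwise, if `tot = false` and `v` has a neighbour in `M` of colour `ap k`, it gets `inl o`;
  otherwise it gets `inl e`;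
* all other vertices keep their colour.

Lemma A. If `Kp v` and `v` has a colour `lam k y`, then `v` is pinned or there are a site `u0` and
a neighbour `w0` of `u0` of a colour `lam (ty u0) y0` with `Cmp w0 v` (call both good). Induction
over `Kp` with the statement: for `v` of colour `lam` this; for `v` of colour `tau`: `v ∈ M` or
for every `k` there is a good neighbour of `v` of a colour `lam k _`. (Case `base`: `v ∈ M` is pinned.
Case `seed`: clear. Case `tau`: clear. Case `lamt`: if `w ∈ M`, then `v` is pinned. Otherwise `w` has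
a good neighbour `w'` of a colour `lam k _`, and `Cmp w' v` by `cmp_of_tau` (with `w`), so `v` is
good.)

Lemma B. A T-vertex `w` of a site `u` is not `Kp`, and no `Kp` vertex `u'` of colour `tau` is adjacent
to `w`. Proof: a T-vertex is not pinned as `u` is a candidate. It is not in the component of a seed
`w0` of `u0`: if `u0 ≠ u` this contradicts `indep`, and if `u0 = u`, then the colours
`lam (ty u) _` of `w0` and `lam (!ty u) _` of `w` are different, contradiction to `Cmp.eq`. So `w` is
not good. If `u'` of colour `tau` is `Kp` and adjacent to `w`, then `u' ∈ M` (so `w` is pinned) or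
`u'` has a good neighbour `w'` of the same type as `w` (the two-part statement of Lemma A), and then
`Cmp w' w`, so `w` is good: contradiction.

`c1` is a homomorphism. Let `v w` be adjacent, `c v = inl x`, `c w = inr y`, `R x y`.
* `x = o, e, a _` (`c1 v = c v`). `w` a site (then `y` is a `tau`, `x = e`): `host w = b _` is adjacent
  to `e`, and `host w = ap _` is excluded by the last clause of `hostP`. Otherwise `c1 w` is `c w` or
  `al _`, fine.
* `x = lam k z`, `Kp v`. `w` a site: `v` is not a T-vertex of `w` (Lemma B), so `k = ty w`, and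
  `lam k _` is adjacent to `b k` and `ap k`. `y = al k`, `ap k`, `b k`: becomes itself or `al k`.
  `y = tau` and `Kp w`: unchanged. `y = tau`, not `Kp w`, not a site: if `k = true`, then `c1 w`
  is `al true`; if `k = false`, then `w` has no `Kp` neighbour of colour `lam true` (otherwise `Kp w`
  by the rule `tau`), so `c1 w = al false`.
* `x = lam k z`, not `Kp v`, `v` adjacent to a site `u`. Then `k = !ty u` (otherwise `Kp v` by
  `seed`), `c1 v = inl (des u)`. The colour `des u` is not a `lam`, so it is adjacent to `al _`.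
  `w` a site: then `w = u` (by `indep` with `v`, `v` and `Cmp.refl`), and `R (des u) (host u)`.
  `y = al k`, `b k`: becomes `al k`. `y = ap k`: if `tot`, becomes `al k`. If `tot = false`, then
  `des u = a (ty u) = a (!k)`, which is adjacent to `ap k`. `y = tau`, not a site: not `Kp w` by
  Lemma B, so it becomes `al _`.
* `x = lam k z`, not `Kp v`, `v` not adjacent to a site. `c1 v` is `o` or `e`. `y = al k`, `b k`:
  becomes `al k`. `y = ap k`: if `tot` it becomes `al k`. If `tot = false`: `w ∈ M` by `Normal.ap`, so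
  `c1 v = o`, fine. `y = tau`: `w` is not a site. If `Kp w`: if `c1 v = e`, fine. If `c1 v = o`, then
  `tot = false` and `v` has a neighbour in `M` of colour `ap k`, so `Kp v` by `lamt`, contradiction.
  If not `Kp w`: it becomes `al _`.

The other claims: `des u` is not a `lam`, so T-vertices and all other changed vertices except sites
have no interior colour under `c1`; sites have colour `tau` (interior) under `c`. A vertex of `M` is
not a site (`Cand.out`); if it has a colour `lam` or `tau`, it is `Kp` by `base`.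
-/

namespace Pool.Agent.H62.CR

variable {V : Type}

/-- A family of independent sites. -/
structure Sites (G : LG V) (c : V → Vx) (M : Finset V) (D : V → Prop) (ty : V → Bool)
    (host : V → S1) (des : V → S0) (tot : Bool) : Prop where
  cand : ∀ u, D u → Cand G c M u
  indep : ∀ u u', D u → D u' → u ≠ u' → ∀ w w', G.adj u w → isLam (c w) = true →
    G.adj u' w' → isLam (c w') = true → ¬ Cmp G c w w'
  hostP : ∀ u, D u → host u = .b (ty u) ∨
    (tot = true ∧ host u = .ap (ty u) ∧ ∀ w, G.adj u w → c w ≠ .inl .e)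
  desP : ∀ u, D u → R (des u) (host u) = true ∧ (∀ k y, des u ≠ .lam k y) ∧
    (tot = false → des u = .a (ty u))

/-- The kept vertices. -/
inductive Kp (G : LG V) (c : V → Vx) (M : Finset V) (D : V → Prop) (ty : V → Bool) (tot : Bool) :
    V → Prop
  | base (v : V) : v ∈ M → (isLam (c v) = true ∨ isTau (c v) = true) → Kp G c M D ty tot v
  | seed (u v : V) (y : Fin 3) : D u → G.adj u v → c v = .inl (.lam (ty u) y) →
      Kp G c M D ty tot v
  | tau (v w w' : V) (x : Fin 3) (s : Bool) (y y' : Fin 3) : ¬ D v → c v = .inr (.tau x s) →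
      G.adj v w → Kp G c M D ty tot w → c w = .inl (.lam false y) →
      G.adj v w' → Kp G c M D ty tot w' → c w' = .inl (.lam true y') → Kp G c M D ty tot v
  | lamt (v m w : V) (k : Bool) (y x : Fin 3) (s : Bool) : tot = false →
      c v = .inl (.lam k y) → G.adj v m → m ∈ M → c m = .inr (.ap k) →
      G.adj v w → Kp G c M D ty tot w → c w = .inr (.tau x s) → Kp G c M D ty tot v

variable {G : LG V} {c : V → Vx} {M : Finset V}

/-- Pinned, or in the component of a kept neighbour of a site. -/
def Good (G : LG V) (c : V → Vx) (M : Finset V) (D : V → Prop) (ty : V → Bool) (v : V) : Prop :=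
  Pinned G c M v ∨ ∃ u0 w0 y0, D u0 ∧ G.adj u0 w0 ∧ c w0 = .inl (.lam (ty u0) y0) ∧ Cmp G c w0 v

theorem Good.cmp {D : V → Prop} {ty : V → Bool} {w v : V} (hw : Good G c M D ty w)
    (h : Cmp G c w v) : Good G c M D ty v := by
  rcases hw with ⟨v', h1, h2⟩ | ⟨u0, w0, y0, h1, h2, h3, h4⟩
  · exact Or.inl ⟨v', h.symm.trans h1, h2⟩
  · exact Or.inr ⟨u0, w0, y0, h1, h2, h3, h4.trans h⟩

theorem kp_good (hom : IsHom G HG c) {D : V → Prop} {ty : V → Bool} {tot : Bool} {v : V}
    (h : Kp G c M D ty tot v) : (isLam (c v) = true → Good G c M D ty v) ∧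
      (∀ x s, c v = .inr (.tau x s) → v ∈ M ∨
        ∀ k, ∃ w y, G.adj v w ∧ c w = .inl (.lam k y) ∧ Good G c M D ty w) := by
  induction h with
  | base v h1 h2 =>
    exact ⟨fun _ => Or.inl ⟨v, Cmp.refl v, Or.inl h1⟩, fun _ _ _ => Or.inl h1⟩
  | seed u v y h1 h2 h3 =>
    refine ⟨fun _ => Or.inr ⟨u, v, y, h1, h2, h3, Cmp.refl v⟩, fun x s h4 => ?_⟩
    rw [h3] at h4; cases h4
  | tau v w w' x s y y' h1 h2 h3 h4 h5 h6 h7 h8 ih1 ih2 =>
    refine ⟨fun h9 => ?_, fun _ _ _ => Or.inr fun k => ?_⟩
    · rw [h2] at h9; cases h9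
    · cases k
      · exact ⟨w, y, h3, h5, ih1.1 (by rw [h5]; rfl)⟩
      · exact ⟨w', y', h6, h8, ih2.1 (by rw [h8]; rfl)⟩
  | lamt v m w k y x s h0 h1 h2 h3 h4 h5 h6 h7 ih =>
    refine ⟨fun _ => ?_, fun x s h9 => ?_⟩
    · rcases ih.2 x s h7 with h8 | h8
      · exact Or.inl ⟨v, Cmp.refl v, Or.inr ⟨w, h8, G.symm _ _ h5, x, s, h7⟩⟩
      · obtain ⟨w', y', h9, h10, h11⟩ := h8 k
        exact h11.cmp (cmp_of_tau hom h7 h9 (G.symm _ _ h5) h10 h1)
    · rw [h1] at h9; cases h9

theorem not_good {D : V → Prop} {ty : V → Bool} {host : V → S1}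
    {des : V → S0} {tot : Bool} (hs : Sites G c M D ty host des tot) {u w : V} {y : Fin 3}
    (hu : D u) (hw : G.adj u w) (hc : c w = .inl (.lam (!ty u) y)) : ¬ Good G c M D ty w := by
  rintro (h1 | ⟨u0, w0, y0, h1, h2, h3, h4⟩)
  · exact (hs.cand u hu).free w hw (by rw [hc]; rfl) h1
  · by_cases h5 : u0 = u
    · subst h5
      have h6 := h4.eq
      rw [hc, h3] at h6
      simp at h6
    · exact hs.indep u0 u h1 hu h5 w0 w h2 (by rw [h3]; rfl) hw (by rw [hc]; rfl) h4

theorem not_kp (hom : IsHom G HG c) {D : V → Prop} {ty : V → Bool} {host : V → S1}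
    {des : V → S0} {tot : Bool} (hs : Sites G c M D ty host des tot) {u w : V} {y : Fin 3}
    (hu : D u) (hw : G.adj u w) (hc : c w = .inl (.lam (!ty u) y)) :
    ¬ Kp G c M D ty tot w := by
  intro h
  exact not_good hs hu hw hc ((kp_good hom h).1 (by rw [hc]; rfl))

theorem not_kp_tau (hom : IsHom G HG c) {D : V → Prop} {ty : V → Bool} {host : V → S1}
    {des : V → S0} {tot : Bool} (hs : Sites G c M D ty host des tot) {u w u' : V} {y x : Fin 3}
    {s : Bool} (hu : D u) (hw : G.adj u w) (hc : c w = .inl (.lam (!ty u) y))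
    (hu' : G.adj u' w) (hcu : c u' = .inr (.tau x s)) : ¬ Kp G c M D ty tot u' := by
  intro h
  refine not_good hs hu hw hc ?_
  rcases (kp_good hom h).2 x s hcu with h1 | h1
  · exact Or.inl ⟨w, Cmp.refl w, Or.inr ⟨u', h1, hu', x, s, hcu⟩⟩
  · obtain ⟨w', y', h2, h3, h4⟩ := h1 (!ty u)
    exact h4.cmp (cmp_of_tau hom hcu h2 hu' h3 hc)

theorem kp_col {D : V → Prop} {ty : V → Bool} {tot : Bool} {v : V}
    (h : Kp G c M D ty tot v) : isLam (c v) = true ∨ isTau (c v) = true := by
  cases h with
  | base _ h1 h2 => exact h2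
  | seed u _ y h1 h2 h3 => left; rw [h3]; rfl
  | tau _ w w' x s y y' h1 h2 => right; rw [h2]; rfl
  | lamt _ m w k y x s h0 h1 => left; rw [h1]; rfl

theorem site_not_kp {D : V → Prop} {ty : V → Bool} {host : V → S1}
    {des : V → S0} {tot : Bool} (hs : Sites G c M D ty host des tot) {v : V}
    (hv : D v) : ¬ Kp G c M D ty tot v := by
  intro h
  obtain ⟨x0, s0, h0⟩ := (hs.cand v hv).tau
  cases h with
  | base _ h1 h2 => exact (hs.cand v hv).out h1
  | seed u _ y h1 h2 h3 => rw [h3] at h0; cases h0
  | tau _ w w' x s y y' h1 h2 => exact h1 hv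
  | lamt _ m w k y x s _ h1 => rw [h1] at h0; cases h0

open Classical in
/-- The new colouring. -/
noncomputable def newc (G : LG V) (c : V → Vx) (M : Finset V) (D : V → Prop) (ty : V → Bool)
    (host : V → S1) (des : V → S0) (tot : Bool) (v : V) : Vx :=
  if D v then .inr (host v) else if Kp G c M D ty tot v then c v else
    match c v with
    | .inl .o => .inl .o
    | .inl .e => .inl .e
    | .inl (.a i) => .inl (.a i)
    | .inl (.lam k _) =>
      if h : ∃ u, D u ∧ G.adj u v then .inl (des h.choose) else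
        if tot = false ∧ ∃ m ∈ M, G.adj v m ∧ c m = .inr (.ap k) then .inl .o else .inl .e
    | .inr .o => .inr .o
    | .inr (.al j) => .inr (.al j)
    | .inr (.ap j) => if tot = true then .inr (.al j) else .inr (.ap j)
    | .inr (.b j) => .inr (.al j)
    | .inr (.tau _ _) =>
      if ∃ w y, G.adj v w ∧ Kp G c M D ty tot w ∧ c w = .inl (.lam true y) then
        .inr (.al true) else .inr (.al false)

section newc

variable {D : V → Prop} {ty : V → Bool} {host : V → S1} {des : V → S0} {tot : Bool}

theorem newc_site {v : V} (hv : D v) : newc G c M D ty host des tot v = .inr (host v) := by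
  rw [newc, if_pos hv]

theorem newc_kp {v : V} (hv : ¬ D v) (h : Kp G c M D ty tot v) :
    newc G c M D ty host des tot v = c v := by
  rw [newc, if_neg hv, if_pos h]

theorem nd (hs : Sites G c M D ty host des tot) {v : V} (h : isTau (c v) = false) : ¬ D v := by
  intro hv
  obtain ⟨x0, s0, h0⟩ := (hs.cand v hv).tau
  rw [h0] at h; cases h

theorem nk {v : V} (h : isTau (c v) = false) (h' : isLam (c v) = false) :
    ¬ Kp G c M D ty tot v := by
  intro hv
  rcases kp_col hv with h1 | h1
  · rw [h1] at h'; cases h'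
  · rw [h1] at h; cases h

theorem newc_o0 (hs : Sites G c M D ty host des tot) {v : V} (h : c v = .inl .o) :
    newc G c M D ty host des tot v = .inl .o := by
  rw [newc, if_neg (nd hs (by rw [h]; rfl)), if_neg (nk (by rw [h]; rfl) (by rw [h]; rfl)), h]

theorem newc_e (hs : Sites G c M D ty host des tot) {v : V} (h : c v = .inl .e) :
    newc G c M D ty host des tot v = .inl .e := by
  rw [newc, if_neg (nd hs (by rw [h]; rfl)), if_neg (nk (by rw [h]; rfl) (by rw [h]; rfl)), h]

theorem newc_a (hs : Sites G c M D ty host des tot) {v : V} {i : Bool} (h : c v = .inl (.a i)) :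
    newc G c M D ty host des tot v = .inl (.a i) := by
  rw [newc, if_neg (nd hs (by rw [h]; rfl)), if_neg (nk (by rw [h]; rfl) (by rw [h]; rfl)), h]

theorem newc_o1 (hs : Sites G c M D ty host des tot) {v : V} (h : c v = .inr .o) :
    newc G c M D ty host des tot v = .inr .o := by
  rw [newc, if_neg (nd hs (by rw [h]; rfl)), if_neg (nk (by rw [h]; rfl) (by rw [h]; rfl)), h]

theorem newc_al (hs : Sites G c M D ty host des tot) {v : V} {i : Bool} (h : c v = .inr (.al i)) :
    newc G c M D ty host des tot v = .inr (.al i) := by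
  rw [newc, if_neg (nd hs (by rw [h]; rfl)), if_neg (nk (by rw [h]; rfl) (by rw [h]; rfl)), h]

theorem newc_b (hs : Sites G c M D ty host des tot) {v : V} {i : Bool} (h : c v = .inr (.b i)) :
    newc G c M D ty host des tot v = .inr (.al i) := by
  rw [newc, if_neg (nd hs (by rw [h]; rfl)), if_neg (nk (by rw [h]; rfl) (by rw [h]; rfl)), h]

theorem newc_ap (hs : Sites G c M D ty host des tot) {v : V} {i : Bool} (h : c v = .inr (.ap i)) :
    newc G c M D ty host des tot v = if tot = true then .inr (.al i) else .inr (.ap i) := by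
  rw [newc, if_neg (nd hs (by rw [h]; rfl)), if_neg (nk (by rw [h]; rfl) (by rw [h]; rfl)), h]

open Classical in
theorem newc_tau {v : V} {x : Fin 3} {s : Bool} (h : c v = .inr (.tau x s)) (hd : ¬ D v)
    (hk : ¬ Kp G c M D ty tot v) : newc G c M D ty host des tot v =
      if ∃ w y, G.adj v w ∧ Kp G c M D ty tot w ∧ c w = .inl (.lam true y) then
        .inr (.al true) else .inr (.al false) := by
  rw [newc, if_neg hd, if_neg hk, h]

theorem newc_tau' {v : V} {x : Fin 3} {s : Bool} (h : c v = .inr (.tau x s)) (hd : ¬ D v)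
    (hk : ¬ Kp G c M D ty tot v) : ∃ j, newc G c M D ty host des tot v = .inr (.al j) := by
  rw [newc_tau h hd hk]
  split_ifs
  · exact ⟨true, rfl⟩
  · exact ⟨false, rfl⟩

open Classical in
theorem newc_lam (hs : Sites G c M D ty host des tot) {v : V} {k : Bool} {y : Fin 3}
    (h : c v = .inl (.lam k y)) (hk : ¬ Kp G c M D ty tot v) : newc G c M D ty host des tot v =
      if h : ∃ u, D u ∧ G.adj u v then .inl (des h.choose) else
        if tot = false ∧ ∃ m ∈ M, G.adj v m ∧ c m = .inr (.ap k) then .inl .o else .inl .e := by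
  rw [newc, if_neg (nd hs (by rw [h]; rfl)), if_neg hk, h]

theorem site_unique (hs : Sites G c M D ty host des tot) {u u' v : V} (hu : D u) (hu' : D u')
    (h1 : G.adj u v) (h2 : G.adj u' v) (h3 : isLam (c v) = true) : u = u' := by
  by_contra hne
  exact hs.indep u u' hu hu' hne v v h1 h3 h2 h3 (Cmp.refl v)

theorem newc_lam1 (hs : Sites G c M D ty host des tot) {v u : V} {k : Bool} {y : Fin 3}
    (h : c v = .inl (.lam k y)) (hk : ¬ Kp G c M D ty tot v) (hu : D u) (huv : G.adj u v) :
    newc G c M D ty host des tot v = .inl (des u) := by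
  have hex : ∃ u, D u ∧ G.adj u v := ⟨u, hu, huv⟩
  rw [newc_lam hs h hk, dif_pos hex]
  have := site_unique hs hex.choose_spec.1 hu hex.choose_spec.2 huv (by rw [h]; rfl)
  rw [this]

theorem newc_lam2 (hs : Sites G c M D ty host des tot) {v : V} {k : Bool} {y : Fin 3}
    (h : c v = .inl (.lam k y)) (hk : ¬ Kp G c M D ty tot v) (hn : ¬ ∃ u, D u ∧ G.adj u v)
    (hm : tot = false ∧ ∃ m ∈ M, G.adj v m ∧ c m = .inr (.ap k)) :
    newc G c M D ty host des tot v = .inl .o := by
  rw [newc_lam hs h hk, dif_neg hn, if_pos hm]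

theorem newc_lam3 (hs : Sites G c M D ty host des tot) {v : V} {k : Bool} {y : Fin 3}
    (h : c v = .inl (.lam k y)) (hk : ¬ Kp G c M D ty tot v) (hn : ¬ ∃ u, D u ∧ G.adj u v)
    (hm : ¬ (tot = false ∧ ∃ m ∈ M, G.adj v m ∧ c m = .inr (.ap k))) :
    newc G c M D ty host des tot v = .inl .e := by
  rw [newc_lam hs h hk, dif_neg hn, if_neg hm]

/-- The cases of side 1. -/
theorem newc_side1 (hs : Sites G c M D ty host des tot) {w : V} {y : S1} (h : c w = .inr y) :
    (D w ∧ newc G c M D ty host des tot w = .inr (host w) ∧ ∃ x s, y = .tau x s) ∨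
    (¬ D w ∧ Kp G c M D ty tot w ∧ newc G c M D ty host des tot w = .inr y ∧
      ∃ x s, y = .tau x s) ∨
    (¬ D w ∧ ¬ Kp G c M D ty tot w ∧ (∃ x s, y = .tau x s) ∧
      ∃ j, newc G c M D ty host des tot w = .inr (.al j)) ∨
    (y = .o ∧ newc G c M D ty host des tot w = .inr .o) ∨
    (∃ j, (y = .al j ∨ y = .b j ∨ (y = .ap j ∧ tot = true)) ∧
      newc G c M D ty host des tot w = .inr (.al j)) ∨
    (∃ j, y = .ap j ∧ tot = false ∧ newc G c M D ty host des tot w = .inr (.ap j)) := by
  rcases y with _ | j | j | j | ⟨x, s⟩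
  · exact Or.inr (Or.inr (Or.inr (Or.inl ⟨rfl, newc_o1 hs h⟩)))
  · exact Or.inr (Or.inr (Or.inr (Or.inr (Or.inl ⟨j, Or.inl rfl, newc_al hs h⟩))))
  · by_cases ht : tot = true
    · refine Or.inr (Or.inr (Or.inr (Or.inr (Or.inl ⟨j, Or.inr (Or.inr ⟨rfl, ht⟩), ?_⟩))))
      rw [newc_ap hs h, if_pos ht]
    · refine Or.inr (Or.inr (Or.inr (Or.inr (Or.inr ⟨j, rfl, by simpa using ht, ?_⟩))))
      rw [newc_ap hs h, if_neg ht]
  · exact Or.inr (Or.inr (Or.inr (Or.inr (Or.inl ⟨j, Or.inr (Or.inl rfl), newc_b hs h⟩))))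
  · by_cases hd : D w
    · exact Or.inl ⟨hd, newc_site hd, x, s, rfl⟩
    · by_cases hk : Kp G c M D ty tot w
      · exact Or.inr (Or.inl ⟨hd, hk, by rw [newc_kp hd hk, h], x, s, rfl⟩)
      · exact Or.inr (Or.inr (Or.inl ⟨hd, hk, ⟨x, s, rfl⟩, newc_tau' h hd hk⟩))

theorem R_al {x : S0} (h : ∀ k y, x ≠ .lam k y) (j : Bool) : R x (.al j) = true := by
  rcases x with _ | _ | i | ⟨k, y⟩
  · rfl
  · rfl
  · rfl
  · exact absurd rfl (h k y)

theorem newc_hadj (h : Normal G c M) (hs : Sites G c M D ty host des tot) {v w : V} {x : S0}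
    {y : S1} (hvw : G.adj v w) (hv : c v = .inl x) (hw : c w = .inr y) :
    hadj (newc G c M D ty host des tot v) (newc G c M D ty host des tot w) = true := by
  have hR : R x y = true := by
    have := h.hom v w hvw
    rw [hv, hw] at this
    exact this
  have hsim : (∀ k z, x ≠ .lam k z) → newc G c M D ty host des tot v = .inl x →
      hadj (newc G c M D ty host des tot v) (newc G c M D ty host des tot w) = true := by
    intro hx hn
    rw [hn]
    rcases newc_side1 hs hw with ⟨h1, h2, x', s', h3⟩ | ⟨h1, h2, h3, x', s', h4⟩ |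
        ⟨h1, h2, h3, j, h4⟩ | ⟨h1, h2⟩ | ⟨j, h1, h2⟩ | ⟨j, h1, h2, h3⟩
    · rw [h2]
      subst h3
      rcases x with _ | _ | i | ⟨k, z⟩
      · simp [R] at hR
      · rcases hs.hostP w h1 with h4 | ⟨h4, h5, h6⟩
        · rw [h4]; rfl
        · exact absurd hv (h6 v (G.symm _ _ hvw))
      · simp [R] at hR
      · exact absurd rfl (hx k z)
    · rw [h3]; exact hR
    · rw [h4]; exact R_al hx j
    · rw [h2, ← h1]; exact hR
    · rw [h2]; exact R_al hx j
    · rw [h3, ← h1]; exact hR
  rcases x with _ | _ | i | ⟨k, z⟩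
  · exact hsim (by intro k z h; cases h) (newc_o0 hs hv)
  · exact hsim (by intro k z h; cases h) (newc_e hs hv)
  · exact hsim (by intro k z h; cases h) (newc_a hs hv)
  clear hsim
  have hlam : isLam (c v) = true := by rw [hv]; rfl
  by_cases hk : Kp G c M D ty tot v
  · -- kept
    rw [newc_kp (nd hs (by rw [hv]; rfl)) hk, hv]
    rcases newc_side1 hs hw with ⟨h1, h2, x', s', h3⟩ | ⟨h1, h2, h3, x', s', h4⟩ |
        ⟨h1, h2, ⟨x', s', h3⟩, j, h4⟩ | ⟨h1, h2⟩ | ⟨j, h1, h2⟩ | ⟨j, h1, h2, h3⟩
    · have hkt : k = ty w := by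
        by_contra hne
        have : k = !ty w := by
          cases k <;> cases hty : ty w <;> simp_all
        subst this
        exact not_kp h.hom hs h1 (G.symm _ _ hvw) hv hk
      rw [h2]
      rcases hs.hostP w h1 with h4 | ⟨h4, h5, h6⟩
      · rw [h4, hkt]
        simp [hadj, R]
      · rw [h5, hkt]
        simp [hadj, R]
    · rw [h3]; exact hR
    · subst h3
      cases k
      · rw [newc_tau hw h1 h2, if_neg]
        · rfl
        · rintro ⟨w', y', h5, h6, h7⟩
          exact h2 (Kp.tau w v w' x' s' z y' h1 hw (G.symm _ _ hvw) hk hv h5 h6 h7)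
      · rw [newc_tau hw h1 h2, if_pos]
        · rfl
        · exact ⟨v, z, G.symm _ _ hvw, hk, hv⟩
    · subst h1; simp [R] at hR
    · rw [h2]
      rcases h1 with h1 | h1 | ⟨h1, h3⟩ <;> subst h1 <;> exact hR
    · rw [h3, ← h1]; exact hR
  · by_cases hu : ∃ u, D u ∧ G.adj u v
    · obtain ⟨u, hu, huv⟩ := hu
      have hkt : k = !ty u := by
        by_contra hne
        have : k = ty u := by
          cases k <;> cases hty : ty u <;> simp_all
        subst this
        exact hk (Kp.seed u v z hu huv hv)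
      rw [newc_lam1 hs hv hk hu huv]
      obtain ⟨d1, d2, d3⟩ := hs.desP u hu
      rcases newc_side1 hs hw with ⟨h1, h2, x', s', h3⟩ | ⟨h1, h2, h3, x', s', h4⟩ |
          ⟨h1, h2, ⟨x', s', h3⟩, j, h4⟩ | ⟨h1, h2⟩ | ⟨j, h1, h2⟩ | ⟨j, h1, h2, h3⟩
      · have : u = w := site_unique hs hu h1 huv (G.symm _ _ hvw) hlam
        subst this
        rw [h2]
        exact d1
      · subst h4
        subst hkt
        exact absurd h2 (not_kp_tau h.hom hs hu huv hv (G.symm _ _ hvw) hw)
      · rw [h4]; exact R_al d2 j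
      · subst h1; simp [R] at hR
      · rw [h2]; exact R_al d2 j
      · rw [h3, d3 h2]
        subst h1
        simp only [R, beq_iff_eq] at hR
        subst hR
        rw [hkt]
        simp [hadj, R]
    · have hend : ∀ y', R .e y' = true → (R .o y' = true ∨ (tot = false → ∀ m ∈ M, G.adj v m →
          c m = .inr (.ap k) → False)) →
          hadj (newc G c M D ty host des tot v) (.inr y') = true := by
        intro y' h1 h2
        by_cases hm : tot = false ∧ ∃ m ∈ M, G.adj v m ∧ c m = .inr (.ap k)
        · rw [newc_lam2 hs hv hk hu hm]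
          rcases h2 with h2 | h2
          · exact h2
          · obtain ⟨h3, m, h4, h5, h6⟩ := hm
            exact absurd h6 (fun h6 => h2 h3 m h4 h5 h6)
        · rw [newc_lam3 hs hv hk hu hm]
          exact h1
      rcases newc_side1 hs hw with ⟨h1, h2, x', s', h3⟩ | ⟨h1, h2, h3, x', s', h4⟩ |
          ⟨h1, h2, ⟨x', s', h3⟩, j, h4⟩ | ⟨h1, h2⟩ | ⟨j, h1, h2⟩ | ⟨j, h1, h2, h3⟩
      · exact absurd ⟨w, h1, G.symm _ _ hvw⟩ hu
      · rw [h3]
        subst h4
        refine hend _ rfl (Or.inr fun h5 m h6 h7 h8 => ?_)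
        exact hk (Kp.lamt v m w k z x' s' h5 hv h7 h6 h8 hvw h2 hw)
      · rw [h4]; exact hend _ rfl (Or.inl rfl)
      · subst h1; simp [R] at hR
      · rw [h2]; exact hend _ rfl (Or.inl rfl)
      · subst h1
        have hj : k = j := by simpa [R] using hR
        subst hj
        have hwM : w ∈ M := by
          by_contra hwM
          exact h.ap w hwM k hw
        rw [h3, newc_lam2 hs hv hk hu ⟨h2, w, hwM, hvw, hw⟩]
        rfl

end newc

/-- Job CR-3. The release lemma. -/
theorem release (h : Normal G c M) {D : V → Prop} {ty : V → Bool} {host : V → S1}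
    {des : V → S0} {tot : Bool} (hs : Sites G c M D ty host des tot) :
    ∃ c1 : V → Vx, IsHom G HG c1 ∧
      (∀ v, isInt (c1 v) = true → isInt (c v) = true) ∧
      (∀ v ∈ M, (∀ j, c v ≠ .inr (.b j)) → (tot = true → ∀ j, c v ≠ .inr (.ap j)) →
        c1 v = c v) ∧
      (∀ u, D u → c1 u = .inr (host u)) ∧
      (∀ u, D u → ∀ w, G.adj u w → c w = .inl .e → c1 w = .inl .e) ∧
      (∀ u, D u → ∀ w y, G.adj u w → c w = .inl (.lam (ty u) y) → c1 w = c w) ∧
      (∀ u, D u → ∀ w y, G.adj u w → c w = .inl (.lam (!ty u) y) → c1 w = .inl (des u)) := by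
  refine ⟨newc G c M D ty host des tot, ?_, ?_, ?_, ?_, ?_, ?_, ?_⟩
  · intro u v huv
    change hadj (newc G c M D ty host des tot u) (newc G c M D ty host des tot v) = true
    have hom := h.hom u v huv
    change hadj (c u) (c v) = true at hom
    rcases hu : c u with x | x <;> rcases hv : c v with y | y
    · rw [hu, hv] at hom; simp [hadj] at hom
    · exact newc_hadj h hs huv hu hv
    · exact hadj_symm _ _ (newc_hadj h hs (G.symm _ _ huv) hv hu)
    · rw [hu, hv] at hom; simp [hadj] at hom
  · intro v hv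
    rcases hc : c v with (_ | _ | i | ⟨k, z⟩) | (_ | j | j | j | ⟨x, s⟩)
    · rw [newc_o0 hs hc] at hv; cases hv
    · rw [newc_e hs hc] at hv; cases hv
    · rw [newc_a hs hc] at hv; cases hv
    · rfl
    · rw [newc_o1 hs hc] at hv; cases hv
    · rw [newc_al hs hc] at hv; cases hv
    · rw [newc_ap hs hc] at hv
      split_ifs at hv <;> cases hv
    · rfl
    · rfl
  · intro v hM h1 h2
    have hd : ¬ D v := fun hd => (hs.cand v hd).out hM
    rcases hc : c v with (_ | _ | i | ⟨k, z⟩) | (_ | j | j | j | ⟨x, s⟩)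
    · rw [newc_o0 hs hc]
    · rw [newc_e hs hc]
    · rw [newc_a hs hc]
    · rw [newc_kp hd (Kp.base v hM (Or.inl (by rw [hc]; rfl))), hc]
    · rw [newc_o1 hs hc]
    · rw [newc_al hs hc]
    · rw [newc_ap hs hc, if_neg]
      intro ht
      exact h2 ht j hc
    · exact absurd hc (h1 j)
    · rw [newc_kp hd (Kp.base v hM (Or.inr (by rw [hc]; rfl))), hc]
  · intro u hu
    exact newc_site hu
  · intro u hu w huw hw
    exact newc_e hs hw
  · intro u hu w y huw hw
    exact newc_kp (nd hs (by rw [hw]; rfl)) (Kp.seed u w y hu huw hw)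
  · intro u hu w y huw hw
    exact newc_lam1 hs hw (not_kp h.hom hs hu huw hw) hu huw

end Pool.Agent.H62.CR
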