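import Pool.Agent.H62.CR.Graph
import Pool.Agent.H79.Thr.Col

/-!
# Job CR-12: 3-colourability reduces to retraction to `H`

For a list `E` of edges (pairs of elements of a type `α`, with a default element `d`) let `RE d E` be the
following list of edges on the vertex set `F α = (ℕ × ℕ) × (α × α)`:
* the vertices `Hv i = ((0, i), (d, d))`, `i < 23`, form a copy of `H`;
* `W p = ((1, 0), (p, p))` for `p : α` (type `false`), `X κ t e = ((2 + κ, t), e)`, `κ < 10`, `t < 3`, for
  `e ∈ E`. For `e = (p, q)` and `t < 3` there are the path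
  `W p, X 3, X 0, X 4, X 1, X 5, X 2, X 6, W q` and the vertices `X 7` adjacent to `X 0` and to
  `lam false (t + 2)`, `X 8` adjacent to `X 1` and to `lam true t`, `X 9` adjacent to `X 2` and to
  `lam false (t + 1)`;
* `W p`, `W q` and `X 1` are adjacent to `b false` and `ap false`, and `X 0`, `X 2` are adjacent to
  `b true` and `ap true`.
In `vtx` the number of `lam false y` is `4 + y`, that of `lam true y` is `7 + y`; `ap false, ap true`
have the numbers `13, 14`, and `b false, b true` the numbers `15, 16`.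

The word `matW VL RE` encodes the graph with the vertices `VL` (repetitions allowed: a repeated
element gives several vertices with the same neighbours) and the edges listed in `RE`, in any
direction.
-/

namespace Pool.Agent.H62.CR

open Pool.Agent.H79.Thr

/-- The type of the vertices. -/
abbrev F (α : Type) := (ℕ × ℕ) × (α × α)

section

variable {α : Type}

/-- The vertices of the copy of `H`. -/
def Hv (d : α) (i : ℕ) : F α := ((0, i), (d, d))

/-- The vertex for `p`. -/
def Wv (p : α) : F α := ((1, 0), (p, p))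

/-- The vertices of the gadget for `e` and `t`. -/
def Xv (κ t : ℕ) (e : α × α) : F α := ((2 + κ, t), e)

/-- The gadget for `e` and `t`; `l1 l2 l3` are the numbers of `lam false (t + 2)`, `lam true t`,
`lam false (t + 1)`. -/
def gad (d : α) (e : α × α) (t l1 l2 l3 : ℕ) : List (F α × F α) :=
  [(Wv e.1, Xv 3 t e), (Xv 0 t e, Xv 3 t e), (Xv 0 t e, Xv 4 t e), (Xv 1 t e, Xv 4 t e),
   (Xv 1 t e, Xv 5 t e), (Xv 2 t e, Xv 5 t e), (Xv 2 t e, Xv 6 t e), (Wv e.2, Xv 6 t e),
   (Xv 0 t e, Xv 7 t e), (Hv d l1, Xv 7 t e), (Xv 1 t e, Xv 8 t e), (Hv d l2, Xv 8 t e),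
   (Xv 2 t e, Xv 9 t e), (Hv d l3, Xv 9 t e),
   (Wv e.1, Hv d 15), (Wv e.1, Hv d 13), (Wv e.2, Hv d 15), (Wv e.2, Hv d 13),
   (Xv 1 t e, Hv d 15), (Xv 1 t e, Hv d 13), (Xv 0 t e, Hv d 16), (Xv 0 t e, Hv d 14),
   (Xv 2 t e, Hv d 16), (Xv 2 t e, Hv d 14)]

/-- The edges of `H` by numbers (from side 0 to side 1). -/
def hE : List (ℕ × ℕ) :=
  (List.finRange 23).flatMap fun i => ((List.finRange 23).filter fun j =>
    (vtx i).isLeft && hadj (vtx i) (vtx j)).map fun j => (i.val, j.val)

/-- The edges of the constructed graph. -/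
def RE (d : α) (E : List (α × α)) : List (F α × F α) :=
  (hE.map fun p => (Hv d p.1, Hv d p.2)) ++
    E.flatMap fun e => gad d e 0 6 7 5 ++ gad d e 1 4 8 6 ++ gad d e 2 5 9 4

/-- The vertices of the constructed graph: first the copy of `H`. -/
def VL (d : α) (E : List (α × α)) : List (F α) :=
  ((List.range 23).map fun i => Hv d i) ++ (RE d E).flatMap fun e => [e.1, e.2]

/-- The word of the graph on `L` with the edges listed in `R`. -/
def matW [DecidableEq α] (L : List (F α)) (R : List (F α × F α)) : List Bool :=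
  List.replicate L.length true ++ false :: L.flatMap fun u => L.map fun v =>
    (decide ((u, v) ∈ R) || decide ((v, u) ∈ R))

/-- The graph on `L` with the edges listed in `R`. -/
def grW (L : List (F α)) (R : List (F α × F α)) : LG (Fin L.length) where
  adj i j := (L.get i, L.get j) ∈ R ∨ (L.get j, L.get i) ∈ R
  symm := fun _ _ h => h.symm

/-- rows of a matrix, read one after the other -/
theorem RetGad_rows {β : Type} {n : ℕ} (g : Fin n → Fin n → β) :
    (List.ofFn fun k : Fin (n * n) => g k.divNat k.modNat) =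
      (List.ofFn fun i : Fin n => List.ofFn fun j : Fin n => g i j).flatten := by
  rw [List.ofFn_mul]
  congr 1
  congr 1
  funext i
  congr 1
  funext j
  have hj : 0 < n := j.pos
  have h1 : (⟨i.1 * n + j.1, by
      calc i.1 * n + j.1 < (i.1 + 1) * n :=
            (Nat.add_lt_add_left j.2 _).trans_eq (by rw [add_mul, one_mul])
        _ ≤ _ := Nat.mul_le_mul_right _ i.2⟩ : Fin (n * n)).divNat = i := by
    apply Fin.ext
    rw [Fin.coe_divNat]
    show (i.1 * n + j.1) / n = i.1
    rw [Nat.add_comm, Nat.add_mul_div_right _ _ hj, Nat.div_eq_of_lt j.2, zero_add]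
  have h2 : (⟨i.1 * n + j.1, by
      calc i.1 * n + j.1 < (i.1 + 1) * n :=
            (Nat.add_lt_add_left j.2 _).trans_eq (by rw [add_mul, one_mul])
        _ ≤ _ := Nat.mul_le_mul_right _ i.2⟩ : Fin (n * n)).modNat = j := by
    apply Fin.ext
    rw [Fin.coe_modNat]
    show (i.1 * n + j.1) % n = j.1
    rw [Nat.add_comm, Nat.add_mul_mod_self_right, Nat.mod_eq_of_lt j.2]
  rw [h1, h2]

/-- Job CR-12a. Write `L.map g` as `List.ofFn`, compare with `enc` (see
`Pool/Agent/H79/Thr/Conv.lean`, `mat_spec`, and `List.flatMap`/`List.ofFn` with `Fin.divNat`,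
`Fin.modNat`, `rows`, `ofFn_range` in `Pool/Agent/H87/HC/Enc.lean`). -/
theorem matW_eq [DecidableEq α] (L : List (F α)) (R : List (F α × F α)) :
    matW L R = enc (grW L R) := by
  classical
  have h1 : ∀ {γ : Type} (g : F α → γ),
      L.map g = List.ofFn (fun i : Fin L.length => g (L.get i)) := by
    intro γ g
    conv_lhs => rw [← List.ofFn_get L]
    rw [List.map_ofFn]
    rfl
  unfold matW enc
  rw [List.flatMap_def, h1, RetGad_rows (fun i j => decide ((grW L R).adj i j))]
  congr 3
  congr 1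
  funext i
  rw [h1]
  congr 1
  funext j
  rw [Bool.eq_iff_iff, Bool.or_eq_true, decide_eq_true_iff, decide_eq_true_iff,
    decide_eq_true_iff]
  exact Iff.rfl

/-- the block of ones and the rest of a word -/
theorem RetGad_head {n n' : ℕ} {X X' : List Bool}
    (h : List.replicate n true ++ false :: X = List.replicate n' true ++ false :: X') :
    n = n' ∧ X = X' := by
  induction n generalizing n' with
  | zero =>
    cases n' with
    | zero => exact ⟨rfl, by simpa using h⟩
    | succ n' => simp [List.replicate_succ] at h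
  | succ n ih =>
    cases n' with
    | zero => simp [List.replicate_succ] at h
    | succ n' =>
      rw [List.replicate_succ, List.replicate_succ, List.cons_append, List.cons_append,
        List.cons.injEq] at h
      obtain ⟨h1, h2⟩ := ih h.2
      exact ⟨by rw [h1], h2⟩

/-- Job CR-12b. `enc` is injective: the number `n` is the length of the block of ones, the
adjacency is read off from the matrix. (Not needed if `ret_iff` is proved otherwise.) -/
theorem enc_inj {n n' : ℕ} {G : LG (Fin n)} {G' : LG (Fin n')} (h : enc G = enc G') :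
    ∃ e : n = n', ∀ i j, G.adj i j ↔ G'.adj (Fin.cast e i) (Fin.cast e j) := by
  classical
  obtain ⟨h1, h2⟩ := RetGad_head h
  subst h1
  refine ⟨rfl, fun i j => ?_⟩
  have h3 := List.ofFn_injective h2
  have h4 := congrFun h3 (finProdFinEquiv (i, j))
  have h5 : finProdFinEquiv.symm (finProdFinEquiv (i, j)) = (i, j) :=
    finProdFinEquiv.symm_apply_apply _
  have h6 : (finProdFinEquiv (i, j)).divNat = i := congrArg Prod.fst h5
  have h7 : (finProdFinEquiv (i, j)).modNat = j := congrArg Prod.snd h5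
  simp only [h6, h7, decide_eq_decide] at h4
  exact h4

theorem RetGad_Hv_inj {d : α} {i j : ℕ} (h : Hv d i = Hv d j) : i = j := by
  have := congrArg (fun x : F α => x.1.2) h
  exact this

theorem RetGad_VL_length (d : α) (E : List (α × α)) : 23 ≤ (VL d E).length := by
  rw [VL, List.length_append, List.length_map, List.length_range]
  exact Nat.le_add_right _ _

theorem RetGad_VL_get (d : α) (E : List (α × α)) (i : Fin 23) :
    (VL d E).get (Fin.castLE (RetGad_VL_length d E) i) = Hv d i := by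
  show (VL d E)[(i : ℕ)]'_ = Hv d i
  have h : i.val < ((List.range 23).map fun i => Hv d i).length := by
    rw [List.length_map, List.length_range]
    exact i.2
  simp only [VL]
  rw [List.getElem_append_left h, List.getElem_map, List.getElem_range]

theorem RetGad_mem_hE {i j : Fin 23} :
    (i.val, j.val) ∈ hE ↔ (vtx i).isLeft = true ∧ hadj (vtx i) (vtx j) = true := by
  unfold hE
  rw [List.mem_flatMap]
  constructor
  · rintro ⟨i', -, h⟩
    rw [List.mem_map] at h
    obtain ⟨j', hj', h1⟩ := h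
    rw [List.mem_filter] at hj'
    have e1 : i' = i := Fin.ext (congrArg Prod.fst h1)
    have e2 : j' = j := Fin.ext (congrArg Prod.snd h1)
    subst e1
    subst e2
    simpa using hj'.2
  · rintro ⟨h1, h2⟩
    refine ⟨i, List.mem_finRange i, ?_⟩
    rw [List.mem_map]
    exact ⟨j, List.mem_filter.2 ⟨List.mem_finRange j, by simp [h1, h2]⟩, rfl⟩

theorem RetGad_gad (d : α) (e : α × α) (t l1 l2 l3 : ℕ) :
    ∀ x ∈ gad d e t l1 l2 l3, x.1.1.1 ≠ 0 ∨ x.2.1.1 ≠ 0 := by
  intro x hx
  simp only [gad, List.mem_cons, List.not_mem_nil, or_false] at hx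
  rcases hx with rfl | rfl | rfl | rfl | rfl | rfl | rfl | rfl | rfl | rfl | rfl | rfl | rfl | rfl |
    rfl | rfl | rfl | rfl | rfl | rfl | rfl | rfl | rfl | rfl <;> simp [Wv, Xv, Hv]

theorem RetGad_mem_RE (d : α) (E : List (α × α)) (i j : Fin 23) :
    (Hv d i, Hv d j) ∈ RE d E ↔ (i.val, j.val) ∈ hE := by
  unfold RE
  rw [List.mem_append]
  constructor
  · rintro (h | h)
    · rw [List.mem_map] at h
      obtain ⟨p, hp, h1⟩ := h
      have e1 : p.1 = i := RetGad_Hv_inj (congrArg Prod.fst h1)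
      have e2 : p.2 = j := RetGad_Hv_inj (congrArg Prod.snd h1)
      rw [← e1, ← e2]
      exact hp
    · exfalso
      rw [List.mem_flatMap] at h
      obtain ⟨e, -, h⟩ := h
      rw [List.mem_append, List.mem_append] at h
      have h0 : ∀ t l1 l2 l3, (Hv d i, Hv d j) ∉ gad d e t l1 l2 l3 := by
        intro t l1 l2 l3 h
        rcases RetGad_gad d e t l1 l2 l3 _ h with h | h <;> exact h rfl
      rcases h with (h | h) | h
      · exact h0 _ _ _ _ h
      · exact h0 _ _ _ _ h
      · exact h0 _ _ _ _ h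
  · intro h
    exact Or.inl (List.mem_map.2 ⟨_, h, rfl⟩)

theorem RetGad_hadj_left : ∀ u v : Vx, hadj u v = true ↔
    (u.isLeft = true ∧ hadj u v = true) ∨ (v.isLeft = true ∧ hadj v u = true) := by
  rintro (x | x) (y | y) <;> simp [hadj]

theorem RetGad_hadj_symm (u v : Vx) (h : hadj u v = true) : hadj v u = true := HG.symm u v h

/-- Job CR-12c. The first 23 vertices form a copy of `H`: `(VL d E).get i = Hv d i` for `i < 23`, and
an edge of a gadget is not of the form `(Hv d i, Hv d j)`. -/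
theorem contains_grW (d : α) (E : List (α × α)) : Contains (grW (VL d E) (RE d E)) H23 := by
  refine ⟨RetGad_VL_length d E, fun i j => ?_⟩
  show ((VL d E).get _, (VL d E).get _) ∈ RE d E ∨ ((VL d E).get _, (VL d E).get _) ∈ RE d E ↔ _
  rw [RetGad_VL_get, RetGad_VL_get, RetGad_mem_RE, RetGad_mem_RE, RetGad_mem_hE, RetGad_mem_hE]
  exact (RetGad_hadj_left _ _).symm

/-- Job CR-12d. Retractions of `grW (VL d E) (RE d E)` correspond to maps `g : F α → Vx` which
respect the edges of `RE d E` and are the identity on the copy of `H`. From `f : Fin n → Fin 23` to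
`g`: `g a = vtx (f i)` for the least `i` with `(VL d E).get i = a` (any value if there is none; all
ends of edges of `RE d E` are in `VL d E`); for `a = Hv d i`, `i < 23`, the least index is `i`. From `g` to
`f`: `vtx (f k) = g ((VL d E).get k)` (`vtx_bij`). -/
theorem retracts_iff_map (d : α) (E : List (α × α)) :
    Retracts (grW (VL d E) (RE d E)) H23 ↔
      ∃ g : F α → Vx, (∀ e ∈ RE d E, hadj (g e.1) (g e.2) = true) ∧
        ∀ i : Fin 23, g (Hv d i) = vtx i := by
  classical
  have hlen := RetGad_VL_length d E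
  constructor
  · rintro ⟨h, f, hf, hfix⟩
    -- an index for every vertex
    have hidx : ∀ a : F α, ∃ k : Fin (VL d E).length, (a ∈ VL d E → (VL d E).get k = a) ∧
        ∀ i : Fin 23, a = Hv d i → k = Fin.castLE hlen i := by
      intro a
      by_cases h1 : ∃ i : Fin 23, a = Hv d i
      · obtain ⟨i, rfl⟩ := h1
        refine ⟨Fin.castLE hlen i, fun _ => RetGad_VL_get d E i, fun j hj => ?_⟩
        rw [Fin.ext (RetGad_Hv_inj hj)]
      · by_cases h2 : a ∈ VL d E
        · obtain ⟨k, hk⟩ := List.get_of_mem h2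
          exact ⟨k, fun _ => hk, fun i hi => absurd ⟨i, hi⟩ h1⟩
        · exact ⟨⟨0, by omega⟩, fun h => absurd h h2, fun i hi => absurd ⟨i, hi⟩ h1⟩
    choose idx hidx1 hidx2 using hidx
    refine ⟨fun a => vtx (f (idx a)), fun e he => ?_, fun i => ?_⟩
    · have hm : ∀ a, (a = e.1 ∨ a = e.2) → a ∈ VL d E := by
        intro a ha
        unfold VL
        rw [List.mem_append]
        right
        rw [List.mem_flatMap]
        exact ⟨e, he, by rcases ha with rfl | rfl <;> simp⟩
      have h1 : (grW (VL d E) (RE d E)).adj (idx e.1) (idx e.2) := by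
        left
        rw [hidx1 e.1 (hm _ (Or.inl rfl)), hidx1 e.2 (hm _ (Or.inr rfl))]
        exact he
      exact hf _ _ h1
    · show vtx (f (idx (Hv d i))) = vtx i
      rw [hidx2 (Hv d i) i rfl]
      exact congrArg vtx (hfix i)
  · rintro ⟨g, hg, hfix⟩
    have he : ∀ z, vtx ((Equiv.ofBijective vtx vtx_bij).symm z) = z := fun z =>
      (Equiv.ofBijective vtx vtx_bij).apply_symm_apply z
    have hs : ∀ i, (Equiv.ofBijective vtx vtx_bij).symm (vtx i) = i := fun i =>
      (Equiv.ofBijective vtx vtx_bij).symm_apply_apply i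
    refine ⟨hlen, fun k => (Equiv.ofBijective vtx vtx_bij).symm (g ((VL d E).get k)), ?_, ?_⟩
    · intro u v h
      show hadj (vtx _) (vtx _) = true
      rw [he, he]
      rcases h with h | h
      · exact hg _ h
      · exact RetGad_hadj_symm _ _ (hg _ h)
    · intro i
      show (Equiv.ofBijective vtx vtx_bij).symm (g ((VL d E).get _)) = i
      rw [RetGad_VL_get, hfix, hs]

/-! ### Auxiliary lemmas for `map_iff` -/

theorem mapiff_false {u : Vx} (h1 : hadj u (.inr (.b false)) = true)
    (h2 : hadj u (.inr (.ap false)) = true) : ∃ c, u = .inl (.lam false c) := by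
  revert u; decide

theorem mapiff_true {u : Vx} (h1 : hadj u (.inr (.b true)) = true)
    (h2 : hadj u (.inr (.ap true)) = true) : ∃ c, u = .inl (.lam true c) := by
  revert u; decide

theorem mapiff_ne {x y : Fin 3} {u : Vx} (h1 : hadj (.inl (.lam false x)) u = true)
    (h2 : hadj (.inl (.lam true y)) u = true) : x ≠ y := by
  revert x y u; decide

theorem mapiff_comb (t a b x1 x2 x3 : Fin 3) (h1 : a ≠ x1) (h2 : t + 2 ≠ x1) (h3 : x2 ≠ x1)
    (h4 : x2 ≠ t) (h5 : x2 ≠ x3) (h6 : t + 1 ≠ x3) (h7 : b ≠ x3) (ha : a = t) (hb : b = t) :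
    False := by
  revert t a b x1 x2 x3; decide

theorem mapiff_exists (t a b : Fin 3) (h : a ≠ b) : ∃ x1 x2 x3 : Fin 3,
    a ≠ x1 ∧ t + 2 ≠ x1 ∧ x2 ≠ x1 ∧ x2 ≠ t ∧ x2 ≠ x3 ∧ t + 1 ≠ x3 ∧ b ≠ x3 := by
  revert t a b; decide

theorem mapiff_mk {x y : Fin 3} (h : x ≠ y) :
    hadj (.inl (.lam false x)) (.inr (mk x y)) = true ∧
      hadj (.inl (.lam true y)) (.inr (mk x y)) = true := by
  revert x y; decide

theorem mapiff_lamf (y : Fin 3) : vtx ⟨4 + y.val, by omega⟩ = .inl (.lam false y) := by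
  revert y; decide

theorem mapiff_lamt (y : Fin 3) : vtx ⟨7 + y.val, by omega⟩ = .inl (.lam true y) := by
  revert y; decide

theorem mapiff_gad_mem {d : α} {E : List (α × α)} {e : α × α} (he : e ∈ E) (t : Fin 3)
    {x : F α × F α}
    (hx : x ∈ gad d e t.val (4 + (t + 2).val) (7 + t.val) (4 + (t + 1).val)) : x ∈ RE d E := by
  refine List.mem_append_right _ (List.mem_flatMap.2 ⟨e, he, ?_⟩)
  fin_cases t
  · exact List.mem_append_left _ (List.mem_append_left _ hx)
  · exact List.mem_append_left _ (List.mem_append_right _ hx)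
  · exact List.mem_append_right _ hx

/-- The map constructed from a colouring. -/
noncomputable def mapiffG (h : α → Fin 3) (y : Fin 3 → α × α → Fin 3 × Fin 3 × Fin 3) : F α → Vx
  | ((0, i), _) => if hi : i < 23 then vtx ⟨i, hi⟩ else .inl .o
  | ((1, _), (p, _)) => .inl (.lam false (h p))
  | ((2, t), e) => .inl (.lam true (y (Fin.ofNat 3 t) e).1)
  | ((3, t), e) => .inl (.lam false (y (Fin.ofNat 3 t) e).2.1)
  | ((4, t), e) => .inl (.lam true (y (Fin.ofNat 3 t) e).2.2)
  | ((5, t), e) => .inr (mk (h e.1) (y (Fin.ofNat 3 t) e).1)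
  | ((6, t), e) => .inr (mk (y (Fin.ofNat 3 t) e).2.1 (y (Fin.ofNat 3 t) e).1)
  | ((7, t), e) => .inr (mk (y (Fin.ofNat 3 t) e).2.1 (y (Fin.ofNat 3 t) e).2.2)
  | ((8, t), e) => .inr (mk (h e.2) (y (Fin.ofNat 3 t) e).2.2)
  | ((9, t), e) => .inr (mk (Fin.ofNat 3 t + 2) (y (Fin.ofNat 3 t) e).1)
  | ((10, t), e) => .inr (mk (y (Fin.ofNat 3 t) e).2.1 (Fin.ofNat 3 t))
  | ((11, t), e) => .inr (mk (Fin.ofNat 3 t + 1) (y (Fin.ofNat 3 t) e).2.2)
  | _ => .inl .o

theorem mapiffG_gad (d : α) (h : α → Fin 3) (y : Fin 3 → α × α → Fin 3 × Fin 3 × Fin 3)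
    (e : α × α) (t : Fin 3)
    (hy : h e.1 ≠ (y t e).1 ∧ t + 2 ≠ (y t e).1 ∧ (y t e).2.1 ≠ (y t e).1 ∧ (y t e).2.1 ≠ t ∧
      (y t e).2.1 ≠ (y t e).2.2 ∧ t + 1 ≠ (y t e).2.2 ∧ h e.2 ≠ (y t e).2.2)
    (x : F α × F α) (hx : x ∈ gad d e t.val (4 + (t + 2).val) (7 + t.val) (4 + (t + 1).val)) :
    hadj (mapiffG h y x.1) (mapiffG h y x.2) = true := by
  obtain ⟨h1, h2, h3, h4, h5, h6, h7⟩ := hy
  have ht : Fin.ofNat 3 t.val = t := (by decide : ∀ t : Fin 3, Fin.ofNat 3 t.val = t) t
  have hl1 : mapiffG h y (Hv d (4 + (t + 2).val)) = .inl (.lam false (t + 2)) := by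
    rw [← mapiff_lamf (t + 2)]
    exact dif_pos (by omega)
  have hl2 : mapiffG h y (Hv d (7 + t.val)) = .inl (.lam true t) := by
    rw [← mapiff_lamt t]
    exact dif_pos (by omega)
  have hl3 : mapiffG h y (Hv d (4 + (t + 1).val)) = .inl (.lam false (t + 1)) := by
    rw [← mapiff_lamf (t + 1)]
    exact dif_pos (by omega)
  have e0 : mapiffG h y (Xv 0 t.val e) = .inl (.lam true (y t e).1) := by
    show Sum.inl (S0.lam true (y (Fin.ofNat 3 t.val) e).1) = _
    rw [ht]
  have e1 : mapiffG h y (Xv 1 t.val e) = .inl (.lam false (y t e).2.1) := by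
    show Sum.inl (S0.lam false (y (Fin.ofNat 3 t.val) e).2.1) = _
    rw [ht]
  have e2 : mapiffG h y (Xv 2 t.val e) = .inl (.lam true (y t e).2.2) := by
    show Sum.inl (S0.lam true (y (Fin.ofNat 3 t.val) e).2.2) = _
    rw [ht]
  have e3 : mapiffG h y (Xv 3 t.val e) = .inr (mk (h e.1) (y t e).1) := by
    show Sum.inr (mk (h e.1) (y (Fin.ofNat 3 t.val) e).1) = _
    rw [ht]
  have e4 : mapiffG h y (Xv 4 t.val e) = .inr (mk (y t e).2.1 (y t e).1) := by
    show Sum.inr (mk (y (Fin.ofNat 3 t.val) e).2.1 (y (Fin.ofNat 3 t.val) e).1) = _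
    rw [ht]
  have e5 : mapiffG h y (Xv 5 t.val e) = .inr (mk (y t e).2.1 (y t e).2.2) := by
    show Sum.inr (mk (y (Fin.ofNat 3 t.val) e).2.1 (y (Fin.ofNat 3 t.val) e).2.2) = _
    rw [ht]
  have e6 : mapiffG h y (Xv 6 t.val e) = .inr (mk (h e.2) (y t e).2.2) := by
    show Sum.inr (mk (h e.2) (y (Fin.ofNat 3 t.val) e).2.2) = _
    rw [ht]
  have e7 : mapiffG h y (Xv 7 t.val e) = .inr (mk (t + 2) (y t e).1) := by
    show Sum.inr (mk ((Fin.ofNat 3 t.val) + 2) (y (Fin.ofNat 3 t.val) e).1) = _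
    rw [ht]
  have e8 : mapiffG h y (Xv 8 t.val e) = .inr (mk (y t e).2.1 t) := by
    show Sum.inr (mk (y (Fin.ofNat 3 t.val) e).2.1 (Fin.ofNat 3 t.val)) = _
    rw [ht]
  have e9 : mapiffG h y (Xv 9 t.val e) = .inr (mk (t + 1) (y t e).2.2) := by
    show Sum.inr (mk ((Fin.ofNat 3 t.val) + 1) (y (Fin.ofNat 3 t.val) e).2.2) = _
    rw [ht]
  have w1 : mapiffG h y (Wv e.1) = .inl (.lam false (h e.1)) := rfl
  have w2 : mapiffG h y (Wv e.2) = .inl (.lam false (h e.2)) := rfl
  have b1 : mapiffG h y (Hv d 15) = .inr (.b false) := rfl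
  have b2 : mapiffG h y (Hv d 16) = .inr (.b true) := rfl
  have a1 : mapiffG h y (Hv d 13) = .inr (.ap false) := rfl
  have a2 : mapiffG h y (Hv d 14) = .inr (.ap true) := rfl
  simp only [gad, List.mem_cons, List.not_mem_nil, or_false] at hx
  rcases hx with rfl | rfl | rfl | rfl | rfl | rfl | rfl | rfl | rfl | rfl | rfl | rfl | rfl | rfl |
    rfl | rfl | rfl | rfl | rfl | rfl | rfl | rfl | rfl | rfl
  · simp only [w1, e3]; exact (mapiff_mk h1).1
  · simp only [e0, e3]; exact (mapiff_mk h1).2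
  · simp only [e0, e4]; exact (mapiff_mk h3).2
  · simp only [e1, e4]; exact (mapiff_mk h3).1
  · simp only [e1, e5]; exact (mapiff_mk h5).1
  · simp only [e2, e5]; exact (mapiff_mk h5).2
  · simp only [e2, e6]; exact (mapiff_mk h7).2
  · simp only [w2, e6]; exact (mapiff_mk h7).1
  · simp only [e0, e7]; exact (mapiff_mk h2).2
  · simp only [hl1, e7]; exact (mapiff_mk h2).1
  · simp only [e1, e8]; exact (mapiff_mk h4).1
  · simp only [hl2, e8]; exact (mapiff_mk h4).2
  · simp only [e2, e9]; exact (mapiff_mk h6).2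
  · simp only [hl3, e9]; exact (mapiff_mk h6).1
  · simp only [w1, b1]; rfl
  · simp only [w1, a1]; rfl
  · simp only [w2, b1]; rfl
  · simp only [w2, a1]; rfl
  · simp only [e1, b1]; rfl
  · simp only [e1, a1]; rfl
  · simp only [e0, b2]; rfl
  · simp only [e0, a2]; rfl
  · simp only [e2, b2]; rfl
  · simp only [e2, a2]; rfl

/-- Job CR-12e. Left to right: `g (Wv p)` is adjacent to `b false` and `ap false`, for all `p` in `E`,
so it is some `inl (lam false (h p))`; the same for `X 1`; `X 0` and `X 2` have colours `lam true _`.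
A vertex adjacent to vertices of the colours `lam false x` and `lam true y` has a colour `tau` with
the coordinates `x` and `y`, so `x ≠ y` (`crd_ne`). Let `x1, x2, x3` be the colours of `X 0, X 1, X 2`
for `e = (p, q)` and `t`. Then `h p ≠ x1`, `x1 ≠ t + 2`, `x1 ≠ x2`, `x2 ≠ t`, `x2 ≠ x3`, `x3 ≠ t + 1`,
`x3 ≠ h q`. If `h p = h q = t`, then `x1 = t + 1`, `x2 = t + 2`, `x3 = t`: contradiction (`decide`). So
`h p ≠ h q`. Right to left: for `t x y : Fin 3`, `x ≠ y` there are `x1 x2 x3` with these properties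
(`decide`); `g (X 0) = lam true x1`, `g (X 1) = lam false x2`, `g (X 2) = lam true x3`, and the other
vertices get colours `mk _ _` (see `mk_crd`) with the colours of the two neighbours as
coordinates. -/
theorem map_iff (d : α) (E : List (α × α)) :
    (∃ g : F α → Vx, (∀ e ∈ RE d E, hadj (g e.1) (g e.2) = true) ∧
      ∀ i : Fin 23, g (Hv d i) = vtx i) ↔ EColourable 3 E := by
  classical
  constructor
  · rintro ⟨g, hg, hd⟩
    have b1 : g (Hv d 15) = .inr (.b false) := hd 15
    have b2 : g (Hv d 16) = .inr (.b true) := hd 16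
    have a1 : g (Hv d 13) = .inr (.ap false) := hd 13
    have a2 : g (Hv d 14) = .inr (.ap true) := hd 14
    let h : α → Fin 3 := fun p =>
      if hp : ∃ c, g (Wv p) = .inl (.lam false c) then hp.choose else 0
    have hh : ∀ p c, g (Wv p) = .inl (.lam false c) → h p = c := by
      intro p c hc
      have hp : ∃ c, g (Wv p) = .inl (.lam false c) := ⟨c, hc⟩
      have h1 : h p = hp.choose := dif_pos hp
      have h2 := hc.symm.trans hp.choose_spec
      rw [h1]
      injection h2 with h3
      injection h3 with _ h4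
      exact h4.symm
    refine ⟨h, fun e he heq => ?_⟩
    have key : ∀ t : Fin 3, ∀ x ∈ gad d e t.val (4 + (t + 2).val) (7 + t.val) (4 + (t + 1).val),
        hadj (g x.1) (g x.2) = true := fun t x hx => hg x (mapiff_gad_mem he t hx)
    have k := key (h e.1)
    generalize ht : h e.1 = t at k
    have hl1 : g (Hv d (4 + (t + 2).val)) = .inl (.lam false (t + 2)) :=
      (hd ⟨4 + (t + 2).val, by omega⟩).trans (mapiff_lamf (t + 2))
    have hl2 : g (Hv d (7 + t.val)) = .inl (.lam true t) :=
      (hd ⟨7 + t.val, by omega⟩).trans (mapiff_lamt t)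
    have hl3 : g (Hv d (4 + (t + 1).val)) = .inl (.lam false (t + 1)) :=
      (hd ⟨4 + (t + 1).val, by omega⟩).trans (mapiff_lamf (t + 1))
    simp only [gad, List.forall_mem_cons] at k
    obtain ⟨k1, k2, k3, k4, k5, k6, k7, k8, k9, k10, k11, k12, k13, k14, k15, k16, k17, k18, k19,
      k20, k21, k22, k23, k24, -⟩ := k
    rw [b1] at k15 k17 k19
    rw [a1] at k16 k18 k20
    rw [b2] at k21 k23
    rw [a2] at k22 k24
    obtain ⟨a, ha⟩ := mapiff_false k15 k16
    obtain ⟨b, hb⟩ := mapiff_false k17 k18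
    obtain ⟨x2, hx2⟩ := mapiff_false k19 k20
    obtain ⟨x1, hx1⟩ := mapiff_true k21 k22
    obtain ⟨x3, hx3⟩ := mapiff_true k23 k24
    rw [ha] at k1
    rw [hx1] at k2 k3 k9
    rw [hx2] at k4 k5 k11
    rw [hx3] at k6 k7 k13
    rw [hb] at k8
    rw [hl1] at k10
    rw [hl2] at k12
    rw [hl3] at k14
    have e1 : a = t := by rw [← ht]; exact (hh _ _ ha).symm
    have e2 : b = t := by rw [← ht, heq]; exact (hh _ _ hb).symm
    exact mapiff_comb t a b x1 x2 x3 (mapiff_ne k1 k2) (mapiff_ne k10 k9) (mapiff_ne k4 k3)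
      (mapiff_ne k11 k12) (mapiff_ne k5 k6) (mapiff_ne k14 k13) (mapiff_ne k8 k7) e1 e2
  · rintro ⟨h, hh⟩
    have hy : ∀ (t : Fin 3) (e : α × α), ∃ y : Fin 3 × Fin 3 × Fin 3, h e.1 ≠ h e.2 →
        (h e.1 ≠ y.1 ∧ t + 2 ≠ y.1 ∧ y.2.1 ≠ y.1 ∧ y.2.1 ≠ t ∧
          y.2.1 ≠ y.2.2 ∧ t + 1 ≠ y.2.2 ∧ h e.2 ≠ y.2.2) := by
      intro t e
      by_cases he : h e.1 = h e.2
      · exact ⟨(0, 0, 0), fun h => absurd he h⟩
      · obtain ⟨x1, x2, x3, hx⟩ := mapiff_exists t _ _ he
        exact ⟨(x1, x2, x3), fun _ => hx⟩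
    choose y hy using hy
    refine ⟨mapiffG h y, ?_, fun i => dif_pos i.isLt⟩
    intro x hx
    rcases List.mem_append.1 hx with hx | hx
    · obtain ⟨⟨i, j⟩, hij, rfl⟩ := List.mem_map.1 hx
      obtain ⟨i', -, hij⟩ := List.mem_flatMap.1 hij
      obtain ⟨j', hj', hij⟩ := List.mem_map.1 hij
      obtain ⟨-, hj'⟩ := List.mem_filter.1 hj'
      obtain ⟨rfl, rfl⟩ := Prod.mk.inj hij
      rw [Bool.and_eq_true] at hj'
      have e1 : mapiffG h y (Hv d i'.val) = vtx i' := dif_pos i'.isLt
      have e2 : mapiffG h y (Hv d j'.val) = vtx j' := dif_pos j'.isLt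
      show hadj (mapiffG h y (Hv d i'.val)) (mapiffG h y (Hv d j'.val)) = true
      rw [e1, e2]
      exact hj'.2
    · obtain ⟨e, he, hx⟩ := List.mem_flatMap.1 hx
      rcases List.mem_append.1 hx with hx | hx
      · rcases List.mem_append.1 hx with hx | hx
        · exact mapiffG_gad d h y e 0 (hy 0 e (hh e he)) x hx
        · exact mapiffG_gad d h y e 1 (hy 1 e (hh e he)) x hx
      · exact mapiffG_gad d h y e 2 (hy 2 e (hh e he)) x hx

/-- The reduction is correct. -/
theorem ret_iff [DecidableEq α] (d : α) (E : List (α × α)) :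
    matW (VL d E) (RE d E) ∈ RET H23 ↔ EColourable 3 E := by
  rw [← map_iff d E, ← retracts_iff_map d E, matW_eq]
  constructor
  · rintro ⟨n, G, h1, -, h2⟩
    obtain ⟨e, h3⟩ := enc_inj h1
    subst e
    have h4 : grW (VL d E) (RE d E) = G := by
      cases hG : grW (VL d E) (RE d E)
      cases G
      congr
      funext i j
      have := h3 i j
      rw [hG] at this
      exact propext this
    rw [h4]; exact h2
  · intro h
    exact ⟨_, _, rfl, contains_grW d E, h⟩

end

end Pool.Agent.H62.CR
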